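import Pool.Agent.KGC.Defs

/-! Elementary facts on the complex Gaussian `L²`: inner products, the barycentre, linear
functionals, the projection `P21`. -/

open MeasureTheory ProbabilityTheory Real
open scoped ComplexConjugate

namespace Pool.Agent.KGC

variable {n : ℕ}

/-! ### inner products -/

lemma inner_L2C (f g : L2C n) : (inner ℂ f g : ℂ) = ∫ x, conj (f x) * g x ∂(gm n) := by
  rw [L2.inner_def]
  refine integral_congr_ae (Filter.Eventually.of_forall fun x => ?_)
  simp [mul_comm]

lemma integrable_mul_L2C (f g : L2C n) : Integrable (fun x => conj (f x) * g x) (gm n) := by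
  have h := L2.integrable_inner (𝕜 := ℂ) f g
  refine h.congr (Filter.Eventually.of_forall fun x => ?_)
  simp [mul_comm]

lemma norm_sq_L2C (f : L2C n) : ‖f‖ ^ 2 = ∫ x, ‖f x‖ ^ 2 ∂(gm n) := by
  have h := inner_self_eq_norm_sq_to_K (𝕜 := ℂ) f
  rw [inner_L2C] at h
  have h2 : (∫ x, conj (f x) * f x ∂(gm n)) = ((∫ x, ‖f x‖ ^ 2 ∂(gm n) : ℝ) : ℂ) := by
    rw [← integral_complex_ofReal]
    refine integral_congr_ae (Filter.Eventually.of_forall fun x => ?_)
    simp only
    rw [Complex.conj_mul']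
    push_cast
    rfl
  rw [h2] at h
  have h3 : (((∫ x, ‖f x‖ ^ 2 ∂(gm n) : ℝ) : ℂ)) = ((‖f‖ ^ 2 : ℝ) : ℂ) := by
    rw [h]
    push_cast
    rfl
  exact (Complex.ofReal_injective h3).symm

lemma integrable_norm_sq_L2C (f : L2C n) : Integrable (fun x => ‖f x‖ ^ 2) (gm n) :=
  (memLp_two_iff_integrable_sq_norm (Lp.memLp f).1).1 (Lp.memLp f)

/-! ### linear functionals and the barycentre -/

lemma coe_lin (a : Cn n) : ∀ᵐ x ∂(gm n), lin a x = inner ℂ a (cvec n x) :=
  (PGC.cinner a).memLp.coeFn_toLp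

lemma memLp_cvec : MemLp (cvec n) 2 (gm n) := by
  refine (memLp_two_iff_integrable_sq_norm continuous_cvec.aestronglyMeasurable).2 ?_
  simp_rw [norm_cvec, div_pow]
  exact (Pool.Agent.KG.integrable_norm_pow (E := Om n) 2).div_const _

lemma memLp_conj {f : Om n → ℂ} (hf : MemLp f 2 (gm n)) : MemLp (fun x => conj (f x)) 2 (gm n) := by
  refine hf.of_le (Complex.continuous_conj.comp_aestronglyMeasurable hf.1)
    (Filter.Eventually.of_forall fun x => ?_)
  simp

lemma integrable_conj_smul (f : L2C n) : Integrable (fun x => conj (f x) • cvec n x) (gm n) := by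
  have h := MemLp.smul (p := 2) (q := 2) (r := 1) memLp_cvec (memLp_conj (Lp.memLp f))
  exact memLp_one_iff_integrable.1 h

/-- the barycentre and linear functionals -/
lemma inner_bar (a : Cn n) (f : L2C n) : (inner ℂ a (bar f) : ℂ) = inner ℂ f (lin a) := by
  unfold bar
  rw [← _root_.integral_inner (integrable_conj_smul f) a, inner_L2C]
  refine integral_congr_ae ?_
  filter_upwards [coe_lin a] with x hx
  rw [hx, inner_smul_right]

lemma bar_add (f g : L2C n) : bar (f + g) = bar f + bar g := by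
  refine ext_inner_left ℂ fun a => ?_
  rw [inner_add_right, inner_bar, inner_bar, inner_bar, inner_add_left]

lemma bar_smul (c : ℂ) (f : L2C n) : bar (c • f) = conj c • bar f := by
  refine ext_inner_left ℂ fun a => ?_
  rw [inner_smul_right, inner_bar, inner_bar, inner_smul_left]

lemma bar_sub (f g : L2C n) : bar (f - g) = bar f - bar g := by
  refine ext_inner_left ℂ fun a => ?_
  rw [inner_sub_right, inner_bar, inner_bar, inner_bar, inner_sub_left]

lemma bar_apply (f : L2C n) (i : Fin n) : bar f i = ∫ x, conj (f x) * cvec n x i ∂(gm n) := by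
  classical
  have h3 : bar f i = inner ℂ (EuclideanSpace.single i (1 : ℂ)) (bar f) := by
    simp [EuclideanSpace.inner_single_left]
  rw [h3, inner_bar, inner_L2C]
  refine integral_congr_ae ?_
  filter_upwards [coe_lin (EuclideanSpace.single i (1 : ℂ))] with x hx
  rw [hx, EuclideanSpace.inner_single_left]
  simp

lemma integrable_conj_mul_cvec (f : L2C n) (i : Fin n) :
    Integrable (fun x => conj (f x) * cvec n x i) (gm n) := by
  classical
  refine (integrable_mul_L2C f (lin (EuclideanSpace.single i (1 : ℂ)))).congr ?_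
  filter_upwards [coe_lin (EuclideanSpace.single i (1 : ℂ))] with x hx
  rw [hx, EuclideanSpace.inner_single_left]
  simp

lemma norm_lin (a : Cn n) : ‖lin a‖ ^ 2 = ‖a‖ ^ 2 := by
  rw [norm_sq_L2C]
  have h1 : ∫ x, ‖lin a x‖ ^ 2 ∂(gm n) = ∫ x, ((inner ℝ (dirRe a) x : ℝ) ^ 2 * (1 / 2) +
      (inner ℝ (dirIm a) x : ℝ) ^ 2 * (1 / 2)) ∂(gm n) := by
    refine integral_congr_ae ?_
    filter_upwards [coe_lin a] with x hx
    rw [hx, inner_cvec, norm_div, div_pow, mul_comm Complex.I, Complex.norm_add_mul_I,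
      Real.sq_sqrt (by positivity), Complex.norm_real, Real.norm_eq_abs, sq_abs,
      Real.sq_sqrt (by norm_num)]
    ring
  have i1 := (Pool.Agent.KG.integrable_inner_pow (dirRe a) 2).mul_const (1 / 2)
  have i2 := (Pool.Agent.KG.integrable_inner_pow (dirIm a) 2).mul_const (1 / 2)
  rw [h1, integral_add i1 i2, integral_mul_const, integral_mul_const,
    Pool.Agent.KG.integral_inner_pow, Pool.Agent.KG.integral_inner_pow, norm_dirRe, norm_dirIm,
    Pool.Agent.KG.moment_two]
  ring

/-- the function `f` is (square integrable and) an element of `CV n a b` -/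
def InCV (a b : ℕ) (f : Om n → ℂ) : Prop := ∃ hf : MemLp f 2 (gm n), hf.toLp f ∈ CV n a b

lemma InCV.add {a b : ℕ} {f g : Om n → ℂ} (hf : InCV a b f) (hg : InCV a b g) :
    InCV a b (fun x => f x + g x) := by
  obtain ⟨hf1, hf2⟩ := hf
  obtain ⟨hg1, hg2⟩ := hg
  refine ⟨hf1.add hg1, ?_⟩
  have h := MemLp.toLp_add hf1 hg1
  change (hf1.add hg1).toLp (f + g) ∈ CV n a b
  rw [h]
  exact (CV n a b).add_mem hf2 hg2

lemma InCV.smul {a b : ℕ} {f : Om n → ℂ} (c : ℂ) (hf : InCV a b f) :
    InCV a b (fun x => c * f x) := by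
  obtain ⟨hf1, hf2⟩ := hf
  refine ⟨hf1.const_mul c, ?_⟩
  have h := MemLp.toLp_const_smul c hf1
  change (hf1.const_smul c).toLp (c • f) ∈ CV n a b
  rw [h]
  exact (CV n a b).smul_mem c hf2

lemma InCV.congr {a b : ℕ} {f g : Om n → ℂ} (hf : InCV a b f) (h : ∀ x, g x = f x) :
    InCV a b g := by
  have : g = f := funext h
  rw [this]
  exact hf

lemma InCV.zero {a b : ℕ} : InCV a b (fun _ : Om n => (0 : ℂ)) := by
  refine ⟨MemLp.zero, ?_⟩
  change (MemLp.zero : MemLp (0 : Om n → ℂ) 2 (gm n)).toLp 0 ∈ CV n a b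
  rw [MemLp.toLp_zero]
  exact (CV n a b).zero_mem

lemma InCV.sum {a b : ℕ} {ι : Type*} (s : Finset ι) {f : ι → Om n → ℂ}
    (h : ∀ i ∈ s, InCV a b (f i)) : InCV a b (fun x => ∑ i ∈ s, f i x) := by
  classical
  induction s using Finset.induction_on with
  | empty => simpa using InCV.zero
  | insert c s hc ih =>
    have h1 := (h c (Finset.mem_insert_self c s)).add (ih fun i hi => h i
      (Finset.mem_insert_of_mem hi))
    exact h1.congr fun x => Finset.sum_insert hc

lemma InCV.cmono {a b : ℕ} (m : (Fin a → Option (Fin n)) × (Fin b → Option (Fin n))) :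
    InCV a b (cmono m : Om n → ℂ) :=
  ⟨(PGC.cmono m).memLp, Submodule.subset_span ⟨m, rfl⟩⟩

lemma inner_eq_sum (a x : Cn n) : (inner ℂ a x : ℂ) = ∑ i, conj (a i) * x i := by
  rw [PiLp.inner_apply]
  exact Finset.sum_congr rfl fun i _ => by simp [mul_comm]

theorem lin_mem (a : Cn n) : lin a ∈ CV n 1 1 := by
  have h : InCV 1 1 (fun x : Om n => (inner ℂ a (cvec n x) : ℂ)) := by
    have h1 : InCV 1 1 (fun x : Om n => ∑ i ∈ Finset.univ, conj (a i) *
        Pool.Agent.KGC.cmono ((fun _ => some i, fun _ => none) :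
          (Fin 1 → Option (Fin n)) × (Fin 1 → Option (Fin n))) x) :=
      InCV.sum _ fun i _ => (InCV.cmono _).smul _
    refine h1.congr fun x => ?_
    rw [inner_eq_sum]
    refine Finset.sum_congr rfl fun i _ => ?_
    simp [Pool.Agent.KGC.cmono, cco]
  obtain ⟨_, h2⟩ := h
  exact h2

/-! ### the projection -/

lemma P21_mem (f : L2C n) : P21 n f ∈ H21 n := Submodule.starProjection_apply_mem _ _

lemma inner_P21_of_mem {h : L2C n} (hh : h ∈ H21 n) (f : L2C n) :
    (inner ℂ h (P21 n f) : ℂ) = inner ℂ h f := by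
  have := Submodule.starProjection_inner_eq_zero (K := H21 n) f h hh
  rw [inner_sub_left] at this
  have h2 := congrArg conj this
  rw [map_sub, inner_conj_symm, inner_conj_symm, map_zero, sub_eq_zero] at h2
  exact h2.symm

lemma norm_P21_le (f : L2C n) : ‖P21 n f‖ ≤ ‖f‖ := Submodule.norm_starProjection_apply_le _ _

lemma P21_lin (a : Cn n) : P21 n (lin a) = 0 := by
  refine (Submodule.starProjection_apply_eq_zero_iff _).2 ?_
  intro h hh
  have h2 : h ∈ (CV n 2 0 ⊔ CV n 1 1)ᗮ := (Submodule.mem_inf.1 hh).2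
  have h3 := (Submodule.mem_orthogonal _ _).1 h2 (lin a) (Submodule.mem_sup_right (lin_mem a))
  rw [← inner_conj_symm, h3, map_zero]

end Pool.Agent.KGC
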