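import Pool.Agent.KGC.Reduce

/-! The bound `Re B(f,g) ≤ 15π/64` for `ε = 1/2`. -/

open MeasureTheory ProbabilityTheory Real Set
open scoped ComplexConjugate

namespace Pool.Agent.KGC

variable {n : ℕ}

/-- the integral inequality over the chaos -/
lemma star_half {e : Cn n} (he : ‖e‖ = 1) {Q : L2C n} (hQ : Q ∈ H21 n) :
    ∫ x, (MM (((3 / 2 * c0 : ℝ) : ℂ) * inner ℂ e (cvec n x)) (Q x) -
      ‖((3 / 2 * c0 : ℝ) : ℂ) * (inner ℂ e (cvec n x) : ℂ)‖) ∂(gm n) ≤ 1 / 2 * ‖Q‖ ^ 2 := by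
  refine star (fun z q => MM (((3 / 2 * c0 : ℝ) : ℂ) * z) q - ‖((3 / 2 * c0 : ℝ) : ℂ) * z‖)
    ?_ ?_ (1 / 2) _ _ _ slice e he Q hQ
  · have h1 : Continuous (fun p : ℂ × ℂ => MM (((3 / 2 * c0 : ℝ) : ℂ) * p.1) p.2) :=
      continuous_MM.comp ((continuous_const.mul continuous_fst).prodMk continuous_snd)
    have h2 : Continuous (fun p : ℂ × ℂ => ‖((3 / 2 * c0 : ℝ) : ℂ) * p.1‖) := by fun_prop
    exact h1.sub h2
  · intro z q
    have h1 := MM_ge (((3 / 2 * c0 : ℝ) : ℂ) * z) q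
    have h2 := MM_le (((3 / 2 * c0 : ℝ) : ℂ) * z) q
    rw [abs_of_nonneg (by linarith)]
    linarith

/-- the form is bounded by `15π/64` for `ε = 1/2` -/
theorem B_le (hn : 0 < n) (f g : L2C n) (hf : ∀ᵐ x ∂(gm n), ‖f x‖ ≤ 1)
    (hg : ∀ᵐ x ∂(gm n), ‖g x‖ ≤ 1) : (B (1 / 2) f g).re ≤ 15 * π / 64 := by
  obtain ⟨α, e, Q, hα0, -, he, hQ, H1, H2⟩ := reduce hn (1 / 2) (by norm_num) f g hf hg
  have hc := c0_pos
  have hc2 := c0_sq
  by_cases hc' : α ≤ 3 / 4 * c0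
  · have h1 : α ^ 2 ≤ (3 / 4 * c0) ^ 2 := pow_le_pow_left₀ hα0 hc' 2
    rw [mul_pow, hc2] at h1
    have hpi := Real.pi_gt_d2
    nlinarith
  · push Not at hc'
    obtain ⟨y, hy⟩ : ∃ y : ℝ, α = y * c0 := ⟨α / c0, by field_simp⟩
    have hy3 : 3 / 4 < y := by
      rw [hy] at hc'
      exact lt_of_mul_lt_mul_right hc' hc.le
    set κ : ℝ := 4 * y - 3 with hκ
    have hκ0 : 0 < κ := by linarith
    have h2 : (0 : ℝ) < √2 := by positivity
    have h22 : √2 ^ 2 = 2 := Real.sq_sqrt (by norm_num)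
    have h2c : (√2 : ℂ) ≠ 0 := by exact_mod_cast h2.ne'
    have h := H1 ((3 / 2 + κ / 2) * c0) (-(κ * c0 / (2 * √2)))
    -- the test function
    have hwt : ∀ z : ℂ, wt (1 / 2) ((3 / 2 + κ / 2) * c0) (-(κ * c0 / (2 * √2))) z =
        ((3 / 2 * c0 : ℝ) : ℂ) * z + ((κ / 4 * c0 * ‖z‖ ^ 2 : ℝ) : ℂ) * z := by
      intro z
      unfold wt h21
      have h3 : (((2 * (1 / 2) * (-(κ * c0 / (2 * √2))) : ℝ)) : ℂ) = -(κ * c0 / (2 * (√2 : ℂ))) := by
        push_cast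
        ring
      have h4 : (√2 : ℂ) ^ 2 = 2 := by
        rw [← Complex.ofReal_pow, h22]
        norm_num
      rw [h3]
      push_cast
      have h5 : (-(↑κ * ↑c0 / (2 * (√2 : ℂ)))) * (z * ((‖z‖ : ℂ) ^ 2 - 2) / (√2 : ℂ)) =
          -(↑κ * ↑c0 / 4 * (z * ((‖z‖ : ℂ) ^ 2 - 2))) := by
        field_simp
        rw [h4]
        ring
      rw [h5]
      ring
    have hnorm : ∀ z : ℂ, ‖((3 / 2 * c0 : ℝ) : ℂ) * z + ((κ / 4 * c0 * ‖z‖ ^ 2 : ℝ) : ℂ) * z‖ =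
        ‖((3 / 2 * c0 : ℝ) : ℂ) * z‖ + ‖((κ / 4 * c0 * ‖z‖ ^ 2 : ℝ) : ℂ) * z‖ := by
      intro z
      rw [← add_mul, ← Complex.ofReal_add, norm_mul, norm_mul, norm_mul, Complex.norm_real,
        Complex.norm_real, Complex.norm_real, Real.norm_eq_abs, Real.norm_eq_abs,
        Real.norm_eq_abs, abs_of_nonneg (by positivity), abs_of_nonneg (by positivity),
        abs_of_nonneg (by positivity)]
      ring
    have hnorm2 : ∀ z : ℂ, ‖((3 / 2 * c0 : ℝ) : ℂ) * z + ((κ / 4 * c0 * ‖z‖ ^ 2 : ℝ) : ℂ) * z‖ =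
        3 / 2 * c0 * ‖z‖ ^ 1 + κ / 4 * c0 * ‖z‖ ^ 3 := by
      intro z
      rw [hnorm, norm_mul, norm_mul, Complex.norm_real,
        Complex.norm_real, Real.norm_eq_abs,
        Real.norm_eq_abs, abs_of_nonneg (by positivity), abs_of_nonneg (by positivity)]
      ring
    set φ : ℂ → ℝ := fun z => 3 / 2 * c0 * ‖z‖ ^ 1 + κ / 4 * c0 * ‖z‖ ^ 3 with hφ
    have hφi : Integrable φ gC :=
      ((moment_pow 1).1.const_mul _).add ((moment_pow 3).1.const_mul _)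
    have hφI : ∫ z, φ z ∂gC = c0 ^ 2 * (3 / 2 + 3 / 8 * κ) := by
      have h1 : ∫ z : ℂ, ‖z‖ ^ 1 ∂gC = c0 := by
        rw [← m_one]
        simp
      rw [hφ, integral_add ((moment_pow 1).1.const_mul _) ((moment_pow 3).1.const_mul _),
        integral_const_mul, integral_const_mul, h1, m_three]
      ring
    have hstar := star_half he hQ
    have hGi : Integrable (fun x => MM (((3 / 2 * c0 : ℝ) : ℂ) * inner ℂ e (cvec n x)) (Q x) -
      ‖((3 / 2 * c0 : ℝ) : ℂ) * (inner ℂ e (cvec n x) : ℂ)‖) (gm n) := by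
      refine (integrable_L2C Q).mono ?_ (Filter.Eventually.of_forall fun x => ?_)
      · have hcv : AEStronglyMeasurable (fun x : Om n => ((3 / 2 * c0 : ℝ) : ℂ) *
            (inner ℂ e (cvec n x) : ℂ)) (gm n) :=
          (continuous_const.mul (PGC.cinner e).continuous).aestronglyMeasurable
        exact (continuous_MM.comp_aestronglyMeasurable
          (hcv.prodMk (Lp.aestronglyMeasurable Q))).sub hcv.norm
      · have h1 := MM_ge (((3 / 2 * c0 : ℝ) : ℂ) * inner ℂ e (cvec n x)) (Q x)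
        have h2 := MM_le (((3 / 2 * c0 : ℝ) : ℂ) * inner ℂ e (cvec n x)) (Q x)
        rw [Real.norm_eq_abs, abs_of_nonneg (by linarith)]
        linarith
    have hmain : ∫ x, MM (wt (1 / 2) ((3 / 2 + κ / 2) * c0) (-(κ * c0 / (2 * √2)))
        (inner ℂ e (cvec n x))) (Q x) ∂(gm n) ≤ c0 ^ 2 * (3 / 2 + 3 / 8 * κ) + 1 / 2 * ‖Q‖ ^ 2 := by
      calc ∫ x, MM (wt (1 / 2) ((3 / 2 + κ / 2) * c0) (-(κ * c0 / (2 * √2)))
            (inner ℂ e (cvec n x))) (Q x) ∂(gm n)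
          ≤ ∫ x, (φ (inner ℂ e (cvec n x)) +
            (MM (((3 / 2 * c0 : ℝ) : ℂ) * inner ℂ e (cvec n x)) (Q x) -
              ‖((3 / 2 * c0 : ℝ) : ℂ) * (inner ℂ e (cvec n x) : ℂ)‖)) ∂(gm n) := by
            refine integral_mono_of_nonneg (Filter.Eventually.of_forall fun x => ?_)
              ((integrable_comp_inner he hφi).add hGi) (Filter.Eventually.of_forall fun x => ?_)
            · exact (norm_nonneg _).trans (MM_ge _ _)
            · set z : ℂ := inner ℂ e (cvec n x)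
              have h1 := MM_sub_le (((3 / 2 * c0 : ℝ) : ℂ) * z)
                (((κ / 4 * c0 * ‖z‖ ^ 2 : ℝ) : ℂ) * z) (Q x) (hnorm z)
              rw [hnorm2] at h1
              simp only [hwt, hφ]
              linarith
        _ = c0 ^ 2 * (3 / 2 + 3 / 8 * κ) + ∫ x, (MM (((3 / 2 * c0 : ℝ) : ℂ) *
              inner ℂ e (cvec n x)) (Q x) -
              ‖((3 / 2 * c0 : ℝ) : ℂ) * (inner ℂ e (cvec n x) : ℂ)‖) ∂(gm n) := by
            rw [integral_add (integrable_comp_inner he hφi) hGi, integral_comp_inner he hφi, hφI]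
        _ ≤ _ := by linarith
    have hb0 : (1 / 2 : ℝ) * (-(κ * c0 / (2 * √2))) ^ 2 = c0 ^ 2 * κ ^ 2 / 16 := by
      rw [neg_sq, div_pow, mul_pow, mul_pow, h22]
      ring
    rw [hb0] at h
    have hfin : α ^ 2 - (3 / 2 + κ / 2) * c0 * α + c0 ^ 2 * κ ^ 2 / 16 +
        c0 ^ 2 * (3 / 2 + 3 / 8 * κ) = 15 / 16 * c0 ^ 2 := by
      rw [hy, hκ]
      ring
    have h15 : 15 / 16 * c0 ^ 2 = 15 * π / 64 := by
      rw [hc2]
      ring
    linarith

end Pool.Agent.KGC
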