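import Pool.Agent.KGC.Star

/-! The functions `h21(⟨e,x⟩)` belong to the chaos of bidegree `(2,1)` and have norm one. -/

open MeasureTheory ProbabilityTheory Real Set
open scoped ComplexConjugate

namespace Pool.Agent.KGC

variable {n : ℕ}

lemma herm_mem_CV (e : Cn n) : herm e ∈ CV n 2 1 := by
  have h1 : ∀ i j k : Fin n, InCV 2 1 (fun x : Om n => cvec n x i * cvec n x j *
      conj (cvec n x k)) := by
    intro i j k
    refine (InCV.cmono ((![some i, some j], fun _ => some k) :
      (Fin 2 → Option (Fin n)) × (Fin 1 → Option (Fin n)))).congr fun x => ?_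
    simp [cmono, cco, Fin.prod_univ_two]
  have h2 : ∀ i : Fin n, InCV 2 1 (fun x : Om n => cvec n x i) := by
    intro i
    refine (InCV.cmono ((![some i, none], fun _ => none) :
      (Fin 2 → Option (Fin n)) × (Fin 1 → Option (Fin n)))).congr fun x => ?_
    simp [cmono, cco, Fin.prod_univ_two]
  have h3 : InCV 2 1 (fun x : Om n => ∑ i ∈ Finset.univ, ∑ j ∈ Finset.univ,
      ∑ k ∈ Finset.univ, (conj (e i) * conj (e j) * e k) *
        (cvec n x i * cvec n x j * conj (cvec n x k))) :=
    InCV.sum _ fun i _ => InCV.sum _ fun j _ => InCV.sum _ fun k _ => (h1 i j k).smul _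
  have h4 : InCV 2 1 (fun x : Om n => ∑ i ∈ Finset.univ, (-2 * conj (e i)) * cvec n x i) :=
    InCV.sum _ fun i _ => (h2 i).smul _
  have h5 : InCV 2 1 (fun x : Om n => h21 (inner ℂ e (cvec n x))) := by
    refine ((h3.add h4).smul ((√2 : ℂ)⁻¹)).congr fun x => ?_
    rw [h21_eq, inner_cvec_sum, map_sum, div_eq_inv_mul]
    congr 1
    have e1 : ∑ i : Fin n, ∑ j : Fin n, ∑ k : Fin n, (conj (e i) * conj (e j) * e k) *
        (cvec n x i * cvec n x j * conj (cvec n x k)) =
        (∑ i, conj (e i) * cvec n x i) * ((∑ j, conj (e j) * cvec n x j) *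
          ∑ k, conj (conj (e k) * cvec n x k)) := by
      rw [Finset.sum_mul]
      refine Finset.sum_congr rfl fun i _ => ?_
      rw [Finset.sum_mul, Finset.mul_sum]
      refine Finset.sum_congr rfl fun j _ => ?_
      rw [Finset.mul_sum, Finset.mul_sum]
      refine Finset.sum_congr rfl fun k _ => ?_
      simp only [map_mul, Complex.conj_conj]
      ring
    have e2 : ∑ i : Fin n, (-2 * conj (e i)) * cvec n x i =
        -2 * ∑ i, conj (e i) * cvec n x i := by
      rw [Finset.mul_sum]
      exact Finset.sum_congr rfl fun i _ => by ring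
    rw [e1, e2]
    ring
  obtain ⟨_, h6⟩ := h5
  exact h6

lemma h21_I (z : ℂ) : h21 (Complex.I * z) = Complex.I * h21 z := by
  unfold h21
  rw [norm_mul, Complex.norm_I, one_mul]
  ring

lemma h21_neg (z : ℂ) : h21 (-z) = -h21 z := by
  unfold h21
  rw [norm_neg]
  ring

lemma qf_h21 (z : ℂ) : qf 0 0 0 0 0 1 z = h21 z := by
  unfold qf pf
  simp

/-- polynomials without top coefficient are orthogonal to `h21` -/
lemma integral_conj_h21_mul_qf (c00 c10 c01 c20 c11 : ℂ) :
    ∫ z, conj (h21 z) * qf c00 c10 c01 c20 c11 0 z ∂gC = 0 := by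
  have hint : Integrable (fun z => conj (h21 z) * qf c00 c10 c01 c20 c11 0 z) gC := by
    have h1 : MemLp (fun z => conj (qf 0 0 0 0 0 1 z)) 2 gC := by
      refine (memLp_two_iff_integrable_sq_norm ?_).2 ?_
      · exact (Complex.continuous_conj.comp (continuous_qf 0 0 0 0 0 1)).aestronglyMeasurable
      · refine (memLp_qf 0 0 0 0 0 1).congr (Filter.Eventually.of_forall fun z => ?_)
        simp
    have h2 : MemLp (fun z => qf c00 c10 c01 c20 c11 0 z) 2 gC := by
      refine (memLp_two_iff_integrable_sq_norm ?_).2 (memLp_qf c00 c10 c01 c20 c11 0)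
      exact (continuous_qf c00 c10 c01 c20 c11 0).aestronglyMeasurable
    have h3 := h1.integrable_mul h2
    refine h3.congr (Filter.Eventually.of_forall fun z => ?_)
    simp only [Pi.mul_apply]
    rw [qf_h21]
  have h := avg4 hint
  have h2 : ∫ z, (conj (h21 z) * qf c00 c10 c01 c20 c11 0 z +
      conj (h21 (Complex.I * z)) * qf c00 c10 c01 c20 c11 0 (Complex.I * z) +
      conj (h21 (-z)) * qf c00 c10 c01 c20 c11 0 (-z) +
      conj (h21 (-(Complex.I * z))) * qf c00 c10 c01 c20 c11 0 (-(Complex.I * z))) ∂gC = 0 := by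
    have h3 : ∀ z : ℂ, conj (h21 z) * qf c00 c10 c01 c20 c11 0 z +
      conj (h21 (Complex.I * z)) * qf c00 c10 c01 c20 c11 0 (Complex.I * z) +
      conj (h21 (-z)) * qf c00 c10 c01 c20 c11 0 (-z) +
      conj (h21 (-(Complex.I * z))) * qf c00 c10 c01 c20 c11 0 (-(Complex.I * z)) =
      (4 * c10 / (√2 : ℂ)) * (‖z‖ : ℂ) ^ 4 - (8 * c10 / (√2 : ℂ)) * ((‖z‖ : ℂ) ^ 2) := by
      intro z
      rw [qf_I, qf_neg, qf_negI, qf_self, h21_neg, h21_neg, h21_I]
      have hz : (‖z‖ : ℂ) ^ 2 = z * conj z := (Complex.mul_conj' z).symm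
      have hz4 : (‖z‖ : ℂ) ^ 4 = (z * conj z) ^ 2 := by
        rw [← hz]
        ring
      have hI : Complex.I * Complex.I = -1 := Complex.I_mul_I
      have hh : conj (h21 z) * z = ((z * conj z) ^ 2 - 2 * (z * conj z)) / (√2 : ℂ) := by
        rw [h21_eq]
        simp only [map_div₀, map_mul, map_sub, Complex.conj_conj, Complex.conj_ofReal, map_ofNat]
        ring
      rw [hz4, hz]
      simp only [map_neg, map_mul, Complex.conj_I]
      linear_combination (4 * c10) * hh -
        (2 * conj (h21 z) * (c10 * z - c01 * conj z)) * hI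
    simp_rw [h3]
    rw [integral_sub (cmom_four.1.const_mul _) (cmom_two.1.const_mul _), integral_const_mul,
      integral_const_mul, cmom_two.2, cmom_four.2]
    ring
  rw [h2] at h
  exact (smul_eq_zero.1 h).resolve_left (by norm_num)

lemma coe_herm (e : Cn n) : ∀ᵐ x ∂(gm n), herm e x = h21 (inner ℂ e (cvec n x)) :=
  (PGC.herm e).memLp.coeFn_toLp

/-- orthogonality to a function of the form `qf(…, 0)` on slices -/
lemma inner_herm_eq_zero {e : Cn n} (he : ‖e‖ = 1) {f : Om n → ℂ} (hf : PGC f)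
    (h : ∀ y, ∃ c00 c10 c01 c20 c11 : ℂ, ∀ z, f (slp e (z, y)) = qf c00 c10 c01 c20 c11 0 z) :
    (inner ℂ (hf.memLp.toLp f) (herm e) : ℂ) = 0 := by
  rw [← inner_conj_symm, inner_L2C]
  have h1 : ∫ x, conj (herm e x) * hf.memLp.toLp f x ∂(gm n) =
      ∫ x, conj (h21 (inner ℂ e (cvec n x))) * f x ∂(gm n) := by
    refine integral_congr_ae ?_
    filter_upwards [coe_herm e, hf.memLp.coeFn_toLp] with x hx hx'
    rw [hx, hx']
  rw [h1, fubini he ((PGC.herm e).conj.mul hf).integrable]
  have h2 : ∀ y : Om n, ∫ z, conj (h21 (inner ℂ e (cvec n (slp e (z, y))))) * f (slp e (z, y)) ∂gC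
      = 0 := by
    intro y
    obtain ⟨c00, c10, c01, c20, c11, hc⟩ := h y
    simp only [inner_cvec_slp he, hc]
    exact integral_conj_h21_mul_qf _ _ _ _ _
  simp [h2]

theorem herm_mem (e : Cn n) (he : ‖e‖ = 1) : herm e ∈ H21 n := by
  have h2c : (√2 : ℂ) ≠ 0 := by
    have h2p : (0 : ℝ) < √2 := by positivity
    exact_mod_cast h2p.ne'
  refine Submodule.mem_inf.2 ⟨herm_mem_CV e, ?_⟩
  rw [← Submodule.inf_orthogonal]
  refine Submodule.mem_inf.2 ⟨?_, ?_⟩
  · refine (Submodule.mem_orthogonal _ _).2 fun u hu => ?_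
    unfold CV at hu
    induction hu using Submodule.span_induction with
    | mem x h =>
      obtain ⟨m, rfl⟩ := h
      refine inner_herm_eq_zero he (PGC.cmono m) fun y => ?_
      refine ⟨cco (m.1 0) (prj e y) * cco (m.1 1) (prj e y),
        dirc e (m.1 0) * cco (m.1 1) (prj e y) + dirc e (m.1 1) * cco (m.1 0) (prj e y), 0,
        (√2 : ℂ) * (dirc e (m.1 0) * dirc e (m.1 1)), 0, fun z => ?_⟩
      unfold cmono qf pf
      rw [Fin.prod_univ_two, Fin.prod_univ_zero, cco_slp, cco_slp]
      field_simp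
      ring
    | zero => exact inner_zero_left _
    | add f g _ _ hf hg => rw [inner_add_left, hf, hg, add_zero]
    | smul c f _ hf => rw [inner_smul_left, hf, mul_zero]
  · refine (Submodule.mem_orthogonal _ _).2 fun u hu => ?_
    unfold CV at hu
    induction hu using Submodule.span_induction with
    | mem x h =>
      obtain ⟨m, rfl⟩ := h
      refine inner_herm_eq_zero he (PGC.cmono m) fun y => ?_
      refine ⟨cco (m.1 0) (prj e y) * conj (cco (m.2 0) (prj e y)) +
          dirc e (m.1 0) * conj (dirc e (m.2 0)),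
        dirc e (m.1 0) * conj (cco (m.2 0) (prj e y)),
        cco (m.1 0) (prj e y) * conj (dirc e (m.2 0)), 0,
        dirc e (m.1 0) * conj (dirc e (m.2 0)), fun z => ?_⟩
      have hz : (‖z‖ : ℂ) ^ 2 = z * conj z := (Complex.mul_conj' z).symm
      unfold cmono qf pf
      rw [Fin.prod_univ_one, Fin.prod_univ_one, cco_slp, cco_slp, hz]
      simp only [map_add, map_mul]
      ring
    | zero => exact inner_zero_left _
    | add f g _ _ hf hg => rw [inner_add_left, hf, hg, add_zero]
    | smul c f _ hf => rw [inner_smul_left, hf, mul_zero]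

theorem norm_herm (e : Cn n) (he : ‖e‖ = 1) : ‖herm e‖ = 1 := by
  have h : ‖herm e‖ ^ 2 = 1 := by
    have hi : Integrable (fun x : Om n => ‖h21 (inner ℂ e (cvec n x))‖ ^ 2) (gm n) :=
      (memLp_two_iff_integrable_sq_norm (PGC.herm e).continuous.aestronglyMeasurable).1
        (PGC.herm e).memLp
    have h1 : ‖herm e‖ ^ 2 = ∫ x, ‖h21 (inner ℂ e (cvec n x))‖ ^ 2 ∂(gm n) := by
      rw [norm_sq_L2C]
      refine integral_congr_ae ?_
      filter_upwards [coe_herm e] with x hx
      rw [hx]
    rw [h1, fubini he hi]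
    have h2 : ∀ y : Om n, ∫ z, ‖h21 (inner ℂ e (cvec n (slp e (z, y))))‖ ^ 2 ∂gC = 1 := by
      intro y
      simp only [inner_cvec_slp he]
      have := integral_norm_qf 0 0 0 0 0 1
      simp only [qf_h21] at this
      rw [this]
      simp
    simp [h2]
  nlinarith [norm_nonneg (herm e)]

end Pool.Agent.KGC
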