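import Pool.Agent.KG.Gauss1D
import Pool.Agent.KG.Identity

/-! The standard complex Gaussian variable: rotation invariance and radial moments. -/

open MeasureTheory ProbabilityTheory Real Set
open scoped ENNReal

namespace Pool.Agent.KGC

open Pool.Agent.KG

/-- the map `(s,t) ↦ (s + i t)/√2` -/
noncomputable def tc (p : ℝ × ℝ) : ℂ := ((p.1 : ℂ) + Complex.I * (p.2 : ℂ)) / (√2 : ℂ)

lemma continuous_tc : Continuous tc := by
  unfold tc
  fun_prop

/-- the law of a standard complex Gaussian variable (`E|ζ|² = 1`) -/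
noncomputable def gC : Measure ℂ := (g1.prod g1).map tc

instance : IsProbabilityMeasure gC := Measure.isProbabilityMeasure_map
  continuous_tc.measurable.aemeasurable

lemma norm_tc (p : ℝ × ℝ) : ‖tc p‖ = √(p.1 ^ 2 + p.2 ^ 2) / √2 := by
  unfold tc
  rw [norm_div, Complex.norm_real, Real.norm_eq_abs, abs_of_pos (by positivity : (0 : ℝ) < √2),
    mul_comm Complex.I, Complex.norm_add_mul_I]

/-- the lower integral of a radial function in polar coordinates -/
lemma lintegral_radial {f : ℝ → ℝ≥0∞} (hf : Measurable f) :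
    ∫⁻ p, f (√(p.1 ^ 2 + p.2 ^ 2)) ∂(g1.prod g1) =
      ∫⁻ r in Ioi (0 : ℝ), ENNReal.ofReal (r * rexp (-r ^ 2 / 2)) * f r := by
  have hd : g1.prod g1 = (volume : Measure (ℝ × ℝ)).withDensity
      (fun p => gaussianPDF 0 1 p.1 * gaussianPDF 0 1 p.2) := by
    rw [show g1 = gaussianReal 0 1 from rfl, gaussianReal_of_var_ne_zero 0 one_ne_zero,
      prod_withDensity (measurable_gaussianPDF 0 1) (measurable_gaussianPDF 0 1)]
    rfl
  have hm : Measurable (fun p : ℝ × ℝ => gaussianPDF 0 1 p.1 * gaussianPDF 0 1 p.2) :=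
    ((measurable_gaussianPDF 0 1).comp measurable_fst).mul
      ((measurable_gaussianPDF 0 1).comp measurable_snd)
  have hm2 : Measurable (fun p : ℝ × ℝ => f (√(p.1 ^ 2 + p.2 ^ 2))) := hf.comp (by fun_prop)
  rw [hd, lintegral_withDensity_eq_lintegral_mul _ hm hm2, ← lintegral_comp_polarCoord_symm]
  have e : ∀ q ∈ polarCoord.target, ENNReal.ofReal q.1 •
      ((fun p : ℝ × ℝ => gaussianPDF 0 1 p.1 * gaussianPDF 0 1 p.2) *
        fun p : ℝ × ℝ => f (√(p.1 ^ 2 + p.2 ^ 2))) (polarCoord.symm q) =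
      (ENNReal.ofReal (q.1 * rexp (-q.1 ^ 2 / 2)) * f q.1) *
        ((fun _ => ENNReal.ofReal ((2 * π)⁻¹)) q.2) := by
    intro q hq
    rw [polarCoord_target] at hq
    have hr : 0 < q.1 := hq.1
    simp only [Pi.mul_apply, polarCoord_symm_apply]
    have e1 : (q.1 * Real.cos q.2) ^ 2 + (q.1 * Real.sin q.2) ^ 2 = q.1 ^ 2 := by
      have := Real.cos_sq_add_sin_sq q.2
      linear_combination q.1 ^ 2 * this
    have e2 : gaussianPDF 0 1 (q.1 * Real.cos q.2) * gaussianPDF 0 1 (q.1 * Real.sin q.2) =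
        ENNReal.ofReal ((2 * π)⁻¹ * rexp (-q.1 ^ 2 / 2)) := by
      unfold gaussianPDF
      rw [← ENNReal.ofReal_mul (gaussianPDFReal_nonneg _ _ _), Kriv.pdf_mul, e1]
    rw [e1, Real.sqrt_sq hr.le, e2, smul_eq_mul, ENNReal.ofReal_mul (by positivity),
      ENNReal.ofReal_mul hr.le]
    ring
  rw [setLIntegral_congr_fun polarCoord.open_target.measurableSet e, polarCoord_target,
    Measure.volume_eq_prod, ← Measure.prod_restrict,
    lintegral_prod_mul (f := fun r => ENNReal.ofReal (r * rexp (-r ^ 2 / 2)) * f r)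
      (g := fun _ => ENNReal.ofReal ((2 * π)⁻¹))]
  · have h1 : ∫⁻ _θ in Ioo (-π) π, ENNReal.ofReal ((2 * π)⁻¹) = 1 := by
      rw [setLIntegral_const, Real.volume_Ioo, ← ENNReal.ofReal_mul (by positivity)]
      have : (2 * π)⁻¹ * (π - -π) = 1 := by
        have := Real.pi_pos
        field_simp
        ring
      rw [this, ENNReal.ofReal_one]
    rw [h1, mul_one]
  · exact ((by fun_prop : Measurable fun r : ℝ =>
      ENNReal.ofReal (r * rexp (-r ^ 2 / 2))).mul hf).aemeasurable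
  · exact measurable_const.aemeasurable

/-- half line moments of `e^{-r²/2}` -/
noncomputable def J (k : ℕ) : ℝ := ∫ r in Ioi (0 : ℝ), r ^ k * rexp (-r ^ 2 / 2)

lemma exp_eq_phi (r : ℝ) : rexp (-r ^ 2 / 2) = √(2 * π) * phi r := by
  unfold phi
  have : √(2 * π) ≠ 0 := by positivity
  field_simp

lemma integrableOn_J (k : ℕ) : IntegrableOn (fun r : ℝ => r ^ k * rexp (-r ^ 2 / 2)) (Ioi 0) := by
  have h := ((integrable_phi_pow k).const_mul (√(2 * π))).integrableOn (s := Ioi (0 : ℝ))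
  refine h.congr_fun (fun r _ => ?_) measurableSet_Ioi
  simp only
  rw [exp_eq_phi]
  ring

lemma J_succ (k : ℕ) : J (k + 2) = (k + 1) * J k := by
  have hd : ∀ t ∈ Ici (0 : ℝ), HasDerivAt (fun t : ℝ => t ^ (k + 1) * rexp (-t ^ 2 / 2))
      ((k + 1) * (t ^ k * rexp (-t ^ 2 / 2)) - t ^ (k + 2) * rexp (-t ^ 2 / 2)) t := by
    intro t _
    have h1 : HasDerivAt (fun t : ℝ => -t ^ 2 / 2) (-t) t := by
      have := ((hasDerivAt_pow 2 t).neg).div_const 2
      exact this.congr_deriv (by norm_num; ring)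
    have := (hasDerivAt_pow (k + 1) t).mul h1.exp
    exact this.congr_deriv (by push_cast; ring)
  have hi : IntegrableOn (fun t : ℝ => (k + 1) * (t ^ k * rexp (-t ^ 2 / 2)) -
      t ^ (k + 2) * rexp (-t ^ 2 / 2)) (Ioi 0) :=
    ((integrableOn_J k).const_mul _).sub (integrableOn_J (k + 2))
  have hl : Filter.Tendsto (fun t : ℝ => t ^ (k + 1) * rexp (-t ^ 2 / 2)) Filter.atTop
      (nhds 0) := by
    have := (tendsto_phi_mul_pow (k + 1)).const_mul (√(2 * π))
    rw [mul_zero] at this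
    refine this.congr fun t => ?_
    rw [exp_eq_phi]
    ring
  have h := integral_Ioi_of_hasDerivAt_of_tendsto' hd hi hl
  rw [integral_sub ((integrableOn_J k).const_mul _) (integrableOn_J (k + 2)),
    integral_const_mul] at h
  unfold J
  simp at h
  linarith

lemma J_one : J 1 = 1 := by
  unfold J
  simpa using Kriv.integral_radial

lemma J_zero : J 0 = √(π / 2) := by
  unfold J
  have h := integral_gaussian_Ioi (1 / 2)
  have h2 : ∫ r in Ioi (0 : ℝ), r ^ 0 * rexp (-r ^ 2 / 2) =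
      ∫ x in Ioi (0 : ℝ), rexp (-(1 / 2) * x ^ 2) := by
    refine setIntegral_congr_fun measurableSet_Ioi fun r _ => ?_
    simp only [pow_zero, one_mul]
    congr 1
    ring
  rw [h2, h]
  have h3 : π / (1 / 2) = 2 ^ 2 * (π / 2) := by ring
  rw [h3, Real.sqrt_mul (by positivity), Real.sqrt_sq (by norm_num)]
  ring

lemma J_two : J 2 = √(π / 2) := by
  rw [show 2 = 0 + 2 from rfl, J_succ, J_zero]
  norm_num

lemma J_four : J 4 = 3 * √(π / 2) := by
  rw [show 4 = 2 + 2 from rfl, J_succ, J_two]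
  norm_num

lemma J_six : J 6 = 15 * √(π / 2) := by
  rw [show 6 = 4 + 2 from rfl, J_succ, J_four]
  push_cast
  ring

lemma J_three : J 3 = 2 := by
  rw [show 3 = 1 + 2 from rfl, J_succ, J_one]
  norm_num

lemma J_five : J 5 = 8 := by
  rw [show 5 = 3 + 2 from rfl, J_succ, J_three]
  norm_num

lemma J_seven : J 7 = 48 := by
  rw [show 7 = 5 + 2 from rfl, J_succ, J_five]
  norm_num

/-- radial moments -/
lemma radial {f : ℝ → ℝ} (hf : Measurable f) (h0 : ∀ r, 0 ≤ r → 0 ≤ f r) (k : ℕ)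
    (h : ∀ r, 0 < r → r * f r = r ^ k) :
    Integrable (fun p : ℝ × ℝ => f (√(p.1 ^ 2 + p.2 ^ 2))) (g1.prod g1) ∧
    ∫ p, f (√(p.1 ^ 2 + p.2 ^ 2)) ∂(g1.prod g1) = J k := by
  have hJ : 0 ≤ J k := setIntegral_nonneg measurableSet_Ioi fun r hr => by
    have : 0 < r := hr
    positivity
  have key : ∫⁻ p, ENNReal.ofReal (f (√(p.1 ^ 2 + p.2 ^ 2))) ∂(g1.prod g1) =
      ENNReal.ofReal (J k) := by
    rw [lintegral_radial (f := fun r => ENNReal.ofReal (f r)) (by fun_prop)]
    unfold J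
    rw [ofReal_integral_eq_lintegral_ofReal (integrableOn_J k)]
    · refine setLIntegral_congr_fun measurableSet_Ioi fun r hr => ?_
      have hr' : 0 < r := hr
      rw [← ENNReal.ofReal_mul (by positivity)]
      congr 1
      rw [← h r hr']
      ring
    · refine (ae_restrict_iff' measurableSet_Ioi).2 (Filter.Eventually.of_forall fun r hr => ?_)
      have hr' : 0 < r := hr
      simp only [Pi.zero_apply]
      positivity
  have hm : Measurable (fun p : ℝ × ℝ => f (√(p.1 ^ 2 + p.2 ^ 2))) := hf.comp (by fun_prop)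
  have hnn : 0 ≤ᵐ[g1.prod g1] fun p : ℝ × ℝ => f (√(p.1 ^ 2 + p.2 ^ 2)) :=
    Filter.Eventually.of_forall fun p => h0 _ (Real.sqrt_nonneg _)
  constructor
  · refine ⟨hm.aestronglyMeasurable, ?_⟩
    rw [hasFiniteIntegral_iff_ofReal hnn, key]
    exact ENNReal.ofReal_lt_top
  · rw [integral_eq_lintegral_of_nonneg_ae hnn hm.aestronglyMeasurable, key,
      ENNReal.toReal_ofReal hJ]

/-- radial moments of `gC` -/
lemma radialC {f : ℝ → ℝ} (hf : Measurable f) (h0 : ∀ r, 0 ≤ r → 0 ≤ f r) (k : ℕ)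
    (h : ∀ r, 0 < r → r * f (r / √2) = r ^ k) :
    Integrable (fun z : ℂ => f ‖z‖) gC ∧ ∫ z, f ‖z‖ ∂gC = J k := by
  have hm : Measurable (fun z : ℂ => f ‖z‖) := hf.comp measurable_norm
  have h1 := radial (f := fun r => f (r / √2)) (by fun_prop)
    (fun r hr => h0 _ (by positivity)) k h
  unfold gC
  rw [integrable_map_measure hm.aestronglyMeasurable continuous_tc.measurable.aemeasurable,
    integral_map continuous_tc.measurable.aemeasurable hm.aestronglyMeasurable]
  have h2 : ((fun z : ℂ => f ‖z‖) ∘ tc) = fun p : ℝ × ℝ => f (√(p.1 ^ 2 + p.2 ^ 2) / √2) := by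
    funext p
    simp only [Function.comp]
    rw [norm_tc]
  have h3 : (fun p : ℝ × ℝ => f ‖tc p‖) = fun p : ℝ × ℝ => f (√(p.1 ^ 2 + p.2 ^ 2) / √2) := h2
  rw [h2, h3]
  exact h1

lemma sqrt_pi_div_two : √(π / 2) = √π / √2 := Real.sqrt_div' _ (by norm_num)

lemma moment_inv : Integrable (fun z : ℂ => ‖z‖⁻¹) gC ∧ ∫ z, ‖z‖⁻¹ ∂gC = √π := by
  have h2 : (0 : ℝ) < √2 := by positivity
  have h := radialC (f := fun r => (√2)⁻¹ * r⁻¹) (by fun_prop) (fun r hr => by positivity) 0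
    (fun r hr => by
      field_simp)
  have h3 : (fun z : ℂ => ‖z‖⁻¹) = fun z : ℂ => √2 * ((√2)⁻¹ * ‖z‖⁻¹) := by
    funext z
    field_simp
  rw [h3, integral_const_mul, h.2, J_zero, sqrt_pi_div_two]
  refine ⟨h.1.const_mul _, ?_⟩
  field_simp

lemma moment_pow (m : ℕ) : Integrable (fun z : ℂ => ‖z‖ ^ m) gC ∧
    ∫ z, ‖z‖ ^ m ∂gC = J (m + 1) / √2 ^ m := by
  have h2 : (0 : ℝ) < √2 := by positivity
  have h := radialC (f := fun r => √2 ^ m * r ^ m) (by fun_prop) (fun r hr => by positivity)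
    (m + 1) (fun r hr => by
      rw [div_pow]
      field_simp
      ring)
  have h3 : (fun z : ℂ => ‖z‖ ^ m) = fun z : ℂ => (√2 ^ m)⁻¹ * (√2 ^ m * ‖z‖ ^ m) := by
    funext z
    field_simp
  rw [h3, integral_const_mul, h.2]
  refine ⟨h.1.const_mul _, ?_⟩
  field_simp

/-- the constant `E|ζ| = √π/2` -/
noncomputable def c0 : ℝ := √π / 2

lemma c0_pos : 0 < c0 := by unfold c0; positivity

lemma c0_sq : c0 ^ 2 = π / 4 := by
  unfold c0
  rw [div_pow, Real.sq_sqrt Real.pi_pos.le]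
  norm_num

lemma sqrt_two_sq : √2 ^ 2 = 2 := Real.sq_sqrt (by norm_num)

lemma m_inv : ∫ z, ‖z‖⁻¹ ∂gC = 2 * c0 := by
  rw [moment_inv.2]
  unfold c0
  ring

lemma m_one : ∫ z, ‖z‖ ∂gC = c0 := by
  have h := (moment_pow 1).2
  simp only [pow_one] at h
  rw [h, J_two, sqrt_pi_div_two, div_div, ← sq, sqrt_two_sq]
  rfl

lemma m_two : ∫ z, ‖z‖ ^ 2 ∂gC = 1 := by
  rw [(moment_pow 2).2, J_three, sqrt_two_sq]
  norm_num

lemma m_three : ∫ z, ‖z‖ ^ 3 ∂gC = 3 / 2 * c0 := by
  rw [(moment_pow 3).2, J_four, sqrt_pi_div_two]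
  have h : √2 * √2 ^ 3 = 4 := by
    calc √2 * √2 ^ 3 = (√2 ^ 2) ^ 2 := by ring
      _ = 4 := by rw [sqrt_two_sq]; norm_num
  have h2 : (0 : ℝ) < √2 := by positivity
  unfold c0
  rw [← mul_div_assoc, div_div, h]
  ring

lemma m_four : ∫ z, ‖z‖ ^ 4 ∂gC = 2 := by
  rw [(moment_pow 4).2, J_five]
  have : √2 ^ 4 = 4 := by
    calc √2 ^ 4 = (√2 ^ 2) ^ 2 := by ring
      _ = 4 := by rw [sqrt_two_sq]; norm_num
  rw [this]
  norm_num

lemma m_five : ∫ z, ‖z‖ ^ 5 ∂gC = 15 / 4 * c0 := by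
  rw [(moment_pow 5).2, J_six, sqrt_pi_div_two]
  have h : √2 * √2 ^ 5 = 8 := by
    calc √2 * √2 ^ 5 = (√2 ^ 2) ^ 3 := by ring
      _ = 8 := by rw [sqrt_two_sq]; norm_num
  unfold c0
  rw [← mul_div_assoc, div_div, h]
  ring

lemma m_six : ∫ z, ‖z‖ ^ 6 ∂gC = 6 := by
  rw [(moment_pow 6).2, J_seven]
  have : √2 ^ 6 = 8 := by
    calc √2 ^ 6 = (√2 ^ 2) ^ 3 := by ring
      _ = 8 := by rw [sqrt_two_sq]; norm_num
  rw [this]
  norm_num

/-- rotation by a quarter turn -/
lemma map_rot : gC.map (fun z => Complex.I * z) = gC := by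
  have hneg : g1.map (fun t => -t) = g1 := by
    have := gaussianReal_map_neg (μ := 0) (v := 1)
    simpa using this
  have h1 : (g1.prod g1).map (fun p : ℝ × ℝ => (-p.2, p.1)) = g1.prod g1 := by
    have e1 : (fun p : ℝ × ℝ => (-p.2, p.1)) =
        (Prod.map (fun t : ℝ => -t) (fun t : ℝ => t)) ∘ Prod.swap := by
      funext p
      rfl
    rw [e1, ← Measure.map_map (by fun_prop) measurable_swap, Measure.prod_swap,
      ← Measure.map_prod_map _ _ (by fun_prop) (by fun_prop), hneg]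
    simp
  unfold gC
  rw [Measure.map_map (by fun_prop) continuous_tc.measurable]
  conv_rhs => rw [← h1, Measure.map_map continuous_tc.measurable (by fun_prop)]
  congr 1
  funext p
  simp only [Function.comp, tc]
  push_cast
  have h2 : Complex.I * Complex.I = -1 := Complex.I_mul_I
  rw [← mul_div_assoc]
  congr 1
  linear_combination (p.2 : ℂ) * h2

lemma measurePreserving_rot : MeasurePreserving (fun z => Complex.I * z) gC gC :=
  ⟨by fun_prop, map_rot⟩

lemma integral_rot {E : Type*} [NormedAddCommGroup E] [NormedSpace ℝ E] (f : ℂ → E) :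
    ∫ z, f (Complex.I * z) ∂gC = ∫ z, f z ∂gC := by
  have h : MeasurableEmbedding (fun z : ℂ => Complex.I * z) :=
    (MeasurableEquiv.mulLeft₀ Complex.I Complex.I_ne_zero).measurableEmbedding
  conv_rhs => rw [← map_rot]
  rw [h.integral_map]

end Pool.Agent.KGC
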