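import Pool.Agent.KGC.Vec
import Pool.Agent.KGC.Plane

/-! The complex Gaussian space, polynomials of bounded bidegree, the chaos of bidegree `(2,1)`
and the sesquilinear form `⟨P₁f, P₁g⟩ - ε⟨P₂₁f, P₂₁g⟩`. -/

open MeasureTheory ProbabilityTheory Real
open scoped ComplexConjugate

namespace Pool.Agent.KGC

open Pool.Agent.KG (integrable_norm_pow)

/-- the complex Euclidean space -/
abbrev Cn (n : ℕ) := EuclideanSpace ℂ (Fin n)

/-- the underlying real Gaussian space of dimension `2n` -/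
abbrev Om (n : ℕ) := EuclideanSpace ℝ (Fin n × Fin 2)

/-- its Gaussian measure -/
noncomputable abbrev gm (n : ℕ) : Measure (Om n) := stdGaussian (Om n)

/-- complex valued square integrable functions -/
noncomputable abbrev L2C (n : ℕ) := Lp ℂ 2 (gm n)

variable {n : ℕ}

/-- continuous functions of polynomial growth -/
def PGC (f : Om n → ℂ) : Prop := Continuous f ∧ ∃ (C : ℝ) (k : ℕ), ∀ x, ‖f x‖ ≤ C * (1 + ‖x‖) ^ k

lemma PGC.continuous {f : Om n → ℂ} (h : PGC f) : Continuous f := h.1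

lemma integrable_growth (C : ℝ) (k : ℕ) : Integrable (fun x : Om n => C * (1 + ‖x‖) ^ k) (gm n) := by
  refine Integrable.const_mul ?_ C
  simp_rw [add_pow, one_pow, one_mul]
  refine integrable_finsetSum _ fun i _ => ?_
  exact (integrable_norm_pow (E := Om n) _).mul_const _

lemma PGC.integrable {f : Om n → ℂ} (h : PGC f) : Integrable f (gm n) := by
  obtain ⟨hc, C, k, hk⟩ := h
  exact (integrable_growth C k).mono' hc.aestronglyMeasurable (Filter.Eventually.of_forall hk)

lemma PGC.const (c : ℂ) : PGC (fun _ : Om n => c) :=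
  ⟨continuous_const, ‖c‖, 0, fun x => by simp⟩

lemma PGC.mul {f g : Om n → ℂ} (hf : PGC f) (hg : PGC g) : PGC (fun x => f x * g x) := by
  obtain ⟨hc, C, k, hk⟩ := hf
  obtain ⟨hc', C', k', hk'⟩ := hg
  refine ⟨hc.mul hc', C * C', k + k', fun x => ?_⟩
  rw [norm_mul, pow_add]
  calc ‖f x‖ * ‖g x‖ ≤ (C * (1 + ‖x‖) ^ k) * (C' * (1 + ‖x‖) ^ k') :=
        mul_le_mul (hk x) (hk' x) (norm_nonneg _) ((norm_nonneg _).trans (hk x))
    _ = _ := by ring

lemma PGC.add {f g : Om n → ℂ} (hf : PGC f) (hg : PGC g) : PGC (fun x => f x + g x) := by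
  obtain ⟨hc, C, k, hk⟩ := hf
  obtain ⟨hc', C', k', hk'⟩ := hg
  have h1 : ∀ x : Om n, (1 : ℝ) ≤ 1 + ‖x‖ := fun x => by linarith [norm_nonneg x]
  have hC : 0 ≤ C := by
    have := (norm_nonneg _).trans (hk 0)
    simpa using this
  have hC' : 0 ≤ C' := by
    have := (norm_nonneg _).trans (hk' 0)
    simpa using this
  refine ⟨hc.add hc', C + C', max k k', fun x => ?_⟩
  refine (norm_add_le _ _).trans ?_
  rw [add_mul]
  refine add_le_add ((hk x).trans ?_) ((hk' x).trans ?_)
  · exact mul_le_mul_of_nonneg_left (pow_le_pow_right₀ (h1 x) (le_max_left _ _)) hC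
  · exact mul_le_mul_of_nonneg_left (pow_le_pow_right₀ (h1 x) (le_max_right _ _)) hC'

lemma PGC.conj {f : Om n → ℂ} (hf : PGC f) : PGC (fun x => conj (f x)) := by
  obtain ⟨hc, C, k, hk⟩ := hf
  exact ⟨Complex.continuous_conj.comp hc, C, k, fun x => by simpa using hk x⟩

lemma PGC.neg {f : Om n → ℂ} (hf : PGC f) : PGC (fun x => - f x) := by
  obtain ⟨hc, C, k, hk⟩ := hf
  exact ⟨hc.neg, C, k, fun x => by simpa using hk x⟩

lemma PGC.sub {f g : Om n → ℂ} (hf : PGC f) (hg : PGC g) : PGC (fun x => f x - g x) := by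
  have := hf.add hg.neg
  simpa [sub_eq_add_neg] using this

lemma PGC.prod {ι : Type*} (s : Finset ι) {f : ι → Om n → ℂ} (h : ∀ i ∈ s, PGC (f i)) :
    PGC (fun x => ∏ i ∈ s, f i x) := by
  classical
  induction s using Finset.induction_on with
  | empty => simpa using PGC.const 1
  | insert a s ha ih =>
    have h1 := (h a (Finset.mem_insert_self a s)).mul
      (ih fun i hi => h i (Finset.mem_insert_of_mem hi))
    have h2 : (fun x => ∏ i ∈ insert a s, f i x) = fun x => f a x * ∏ i ∈ s, f i x := by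
      funext x
      exact Finset.prod_insert ha
    rw [h2]
    exact h1

lemma PGC.memLp {f : Om n → ℂ} (h : PGC f) : MemLp f 2 (gm n) := by
  refine (memLp_two_iff_integrable_sq_norm h.continuous.aestronglyMeasurable).2 ?_
  obtain ⟨hc, C, k, hk⟩ := h.mul h.conj
  refine (integrable_growth C k).mono' (by have := h.continuous; fun_prop)
    (Filter.Eventually.of_forall fun x => ?_)
  have h1 := hk x
  rw [norm_mul, RCLike.norm_conj] at h1
  rw [Real.norm_eq_abs, abs_of_nonneg (sq_nonneg _), sq]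
  exact h1

/-- coordinates, extended by the constant function `1` -/
noncomputable def cco (m : Option (Fin n)) (x : Om n) : ℂ :=
  match m with
  | none => 1
  | some i => cvec n x i

lemma continuous_cvec : Continuous (cvec n) := by
  unfold cvec
  refine (PiLp.continuous_toLp 2 _).comp ?_
  fun_prop

lemma norm_cvec_le (x : Om n) : ‖cvec n x‖ ≤ ‖x‖ := by
  rw [norm_cvec]
  refine div_le_self (norm_nonneg _) ?_
  rw [Real.one_le_sqrt]
  norm_num

lemma PGC.cinner (a : Cn n) : PGC (fun x : Om n => inner ℂ a (cvec n x)) := by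
  refine ⟨continuous_const.inner continuous_cvec, ‖a‖, 1, fun x => ?_⟩
  rw [pow_one]
  refine (norm_inner_le_norm a _).trans ?_
  refine mul_le_mul_of_nonneg_left ?_ (norm_nonneg a)
  linarith [norm_cvec_le x]

lemma PGC.cco (m : Option (Fin n)) : PGC (cco m : Om n → ℂ) := by
  classical
  cases m with
  | none => exact PGC.const 1
  | some i =>
    have h := PGC.cinner (EuclideanSpace.single i (1 : ℂ))
    have h2 : (Pool.Agent.KGC.cco (some i) : Om n → ℂ) =
        fun x => inner ℂ (EuclideanSpace.single i (1 : ℂ)) (cvec n x) := by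
      funext x
      simp [Pool.Agent.KGC.cco, EuclideanSpace.inner_single_left]
    rw [h2]
    exact h

/-- monomials of bidegree at most `(a,b)` -/
noncomputable def cmono {a b : ℕ} (m : (Fin a → Option (Fin n)) × (Fin b → Option (Fin n)))
    (x : Om n) : ℂ := (∏ i, cco (m.1 i) x) * ∏ j, conj (cco (m.2 j) x)

lemma PGC.cmono {a b : ℕ} (m : (Fin a → Option (Fin n)) × (Fin b → Option (Fin n))) :
    PGC (cmono m : Om n → ℂ) :=
  (PGC.prod _ fun i _ => PGC.cco (m.1 i)).mul (PGC.prod _ fun j _ => (PGC.cco (m.2 j)).conj)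

/-- polynomials of bidegree at most `(a,b)`, as a subspace of `L²` -/
noncomputable def CV (n a b : ℕ) : Submodule ℂ (L2C n) :=
  Submodule.span ℂ (Set.range fun m : (Fin a → Option (Fin n)) × (Fin b → Option (Fin n)) =>
    (PGC.cmono m).memLp.toLp (cmono m))

instance finiteDimensional_CV (n a b : ℕ) : FiniteDimensional ℂ (CV n a b) :=
  FiniteDimensional.span_of_finite ℂ (Set.finite_range _)

/-- the chaos of bidegree `(2,1)` -/
noncomputable def H21 (n : ℕ) : Submodule ℂ (L2C n) := CV n 2 1 ⊓ (CV n 2 0 ⊔ CV n 1 1)ᗮ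

instance finiteDimensional_H21 (n : ℕ) : FiniteDimensional ℂ (H21 n) :=
  Submodule.finiteDimensional_inf_left _ _

/-- orthogonal projection onto the chaos of bidegree `(2,1)` -/
noncomputable def P21 (n : ℕ) : L2C n →L[ℂ] L2C n := (H21 n).starProjection

/-- the linear functional `⟨a,x⟩` of the complex Gaussian vector -/
noncomputable def lin (a : Cn n) : L2C n := (PGC.cinner a).memLp.toLp _

/-- the normalised Hermite polynomial of bidegree `(2,1)` -/
noncomputable def h21 (z : ℂ) : ℂ := z * ((‖z‖ : ℂ) ^ 2 - 2) / (√2 : ℂ)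

lemma h21_eq (z : ℂ) : h21 z = z * (z * conj z - 2) / (√2 : ℂ) := by
  unfold h21
  rw [← Complex.mul_conj']

lemma PGC.herm (e : Cn n) : PGC (fun x : Om n => h21 (inner ℂ e (cvec n x))) := by
  have h := PGC.cinner e
  have h1 := ((h.mul ((h.mul h.conj).sub (PGC.const 2))).mul (PGC.const ((√2 : ℂ)⁻¹)))
  have h2 : (fun x : Om n => h21 (inner ℂ e (cvec n x))) = fun x =>
      inner ℂ e (cvec n x) * (inner ℂ e (cvec n x) * conj (inner ℂ e (cvec n x)) - 2) *
        (√2 : ℂ)⁻¹ := by
    funext x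
    rw [h21_eq, div_eq_mul_inv]
  rw [h2]
  exact h1

/-- `h21(⟨e,x⟩)` as an element of `L²` -/
noncomputable def herm (e : Cn n) : L2C n := (PGC.herm e).memLp.toLp _

/-- the barycentre `E[conj f(x) x]` -/
noncomputable def bar (f : L2C n) : Cn n := ∫ x, conj (f x) • cvec n x ∂(gm n)

/-- the sesquilinear form `⟨P₁f, P₁g⟩ - ε ⟨P₂₁f, P₂₁g⟩` -/
noncomputable def B (ε : ℝ) (f g : L2C n) : ℂ :=
  inner ℂ (bar g) (bar f) - ε * inner ℂ (P21 n f) (P21 n g)

/-- the supremum of `|∑ a_ij p_i q_j|` over complex scalars in the unit disc -/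
noncomputable def beta {m n : ℕ} (A : Matrix (Fin m) (Fin n) ℂ) : ℝ :=
  sSup {r : ℝ | ∃ (p : Fin m → ℂ) (q : Fin n → ℂ), (∀ i, ‖p i‖ ≤ 1) ∧ (∀ j, ‖q j‖ ≤ 1) ∧
    r = ‖∑ i, ∑ j, A i j * p i * q j‖}

/-- `K` is a constant for which the complex Grothendieck inequality holds -/
def IsGrothendieckBound (K : ℝ) : Prop :=
  ∀ (m n : ℕ) (A : Matrix (Fin m) (Fin n) ℂ) (H : Type) [NormedAddCommGroup H]
    [InnerProductSpace ℂ H] [CompleteSpace H] (u : Fin m → H) (v : Fin n → H),
    (∀ i, ‖u i‖ ≤ 1) → (∀ j, ‖v j‖ ≤ 1) →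
    ‖∑ i, ∑ j, A i j * (inner ℂ (u i) (v j) : ℂ)‖ ≤ K * beta A

/-- the complex Grothendieck constant -/
noncomputable def KGcomplex : ℝ := sInf {K : ℝ | 0 < K ∧ IsGrothendieckBound K}

end Pool.Agent.KGC
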