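import Pool.Agent.KGC.Defs
import Pool.Agent.KG.Krivine

/-! The complex Grothendieck inequality holds with some constant (from the real one). -/

namespace Pool.Agent.KGC

lemma beta_bddAbove {m n : ℕ} (A : Matrix (Fin m) (Fin n) ℂ) :
    BddAbove {r : ℝ | ∃ (p : Fin m → ℂ) (q : Fin n → ℂ), (∀ i, ‖p i‖ ≤ 1) ∧ (∀ j, ‖q j‖ ≤ 1) ∧
      r = ‖∑ i, ∑ j, A i j * p i * q j‖} := by
  refine ⟨∑ i, ∑ j, ‖A i j‖, ?_⟩
  rintro r ⟨p, q, hp, hq, rfl⟩
  refine (norm_sum_le _ _).trans (Finset.sum_le_sum fun i _ => ?_)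
  refine (norm_sum_le _ _).trans (Finset.sum_le_sum fun j _ => ?_)
  rw [norm_mul, norm_mul]
  calc ‖A i j‖ * ‖p i‖ * ‖q j‖ ≤ ‖A i j‖ * 1 * 1 := by
        gcongr
        · exact hp i
        · exact hq j
    _ = ‖A i j‖ := by ring

lemma le_beta {m n : ℕ} (A : Matrix (Fin m) (Fin n) ℂ) (p : Fin m → ℂ) (q : Fin n → ℂ)
    (hp : ∀ i, ‖p i‖ ≤ 1) (hq : ∀ j, ‖q j‖ ≤ 1) :
    ‖∑ i, ∑ j, A i j * p i * q j‖ ≤ beta A :=
  le_csSup (beta_bddAbove A) ⟨p, q, hp, hq, rfl⟩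

lemma beta_re_le {m n : ℕ} (A : Matrix (Fin m) (Fin n) ℂ) :
    KG.beta (Matrix.of fun i j => (A i j).re) ≤ beta A := by
  unfold KG.beta
  refine csSup_le ⟨_, 0, 0, by simp, by simp, rfl⟩ ?_
  rintro r ⟨p, q, hp, hq, rfl⟩
  have h1 : ∑ i, ∑ j, (Matrix.of fun i j => (A i j).re : Matrix (Fin m) (Fin n) ℝ) i j * p i * q j =
      (∑ i, ∑ j, A i j * (p i : ℂ) * (q j : ℂ)).re := by
    simp [Complex.re_sum]
  rw [h1]
  refine (Complex.abs_re_le_norm _).trans (le_beta A _ _ (fun i => ?_) (fun j => ?_))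
  · simpa using hp i
  · simpa using hq j

lemma beta_im_le {m n : ℕ} (A : Matrix (Fin m) (Fin n) ℂ) :
    KG.beta (Matrix.of fun i j => (A i j).im) ≤ beta A := by
  unfold KG.beta
  refine csSup_le ⟨_, 0, 0, by simp, by simp, rfl⟩ ?_
  rintro r ⟨p, q, hp, hq, rfl⟩
  have h1 : ∑ i, ∑ j, (Matrix.of fun i j => (A i j).im : Matrix (Fin m) (Fin n) ℝ) i j * p i * q j =
      (∑ i, ∑ j, A i j * (p i : ℂ) * (q j : ℂ)).im := by
    simp [Complex.im_sum]
  rw [h1]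
  refine (Complex.abs_im_le_norm _).trans (le_beta A _ _ (fun i => ?_) (fun j => ?_))
  · simpa using hp i
  · simpa using hq j

/-- the complex Grothendieck inequality holds with some constant -/
theorem exists_bound : ∃ K : ℝ, 0 < K ∧ IsGrothendieckBound K := by
  obtain ⟨K, hK0, hK⟩ := KG.exists_bound
  refine ⟨4 * K, by positivity, ?_⟩
  intro m n A H _ _ _ u v hu hv
  letI : InnerProductSpace ℝ H := InnerProductSpace.rclikeToReal ℂ H
  have hu' : ∀ i, ‖Complex.I • u i‖ ≤ 1 := fun i => by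
    rw [norm_smul, Complex.norm_I, one_mul]
    exact hu i
  have h11 := hK m n (Matrix.of fun i j => (A i j).re) H u v hu hv
  have h12 := hK m n (Matrix.of fun i j => (A i j).re) H (fun i => Complex.I • u i) v hu' hv
  have h21 := hK m n (Matrix.of fun i j => (A i j).im) H u v hu hv
  have h22 := hK m n (Matrix.of fun i j => (A i j).im) H (fun i => Complex.I • u i) v hu' hv
  have b1 := mul_le_mul_of_nonneg_left (beta_re_le A) hK0.le
  have b2 := mul_le_mul_of_nonneg_left (beta_im_le A) hK0.le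
  have hre : ∀ i j, (inner ℝ (u i) (v j) : ℝ) = (inner ℂ (u i) (v j) : ℂ).re := fun i j => rfl
  have him : ∀ i j, (inner ℝ (Complex.I • u i) (v j) : ℝ) = (inner ℂ (u i) (v j) : ℂ).im := by
    intro i j
    have : (inner ℝ (Complex.I • u i) (v j) : ℝ) = (inner ℂ (Complex.I • u i) (v j) : ℂ).re := rfl
    rw [this, inner_smul_left]
    simp
  simp only [Matrix.of_apply, hre, him] at h11 h12 h21 h22
  have e : ∑ i, ∑ j, A i j * (inner ℂ (u i) (v j) : ℂ) =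
      ((∑ i, ∑ j, (A i j).re * (inner ℂ (u i) (v j) : ℂ).re
        - ∑ i, ∑ j, (A i j).im * (inner ℂ (u i) (v j) : ℂ).im : ℝ) : ℂ) +
      ((∑ i, ∑ j, (A i j).re * (inner ℂ (u i) (v j) : ℂ).im
        + ∑ i, ∑ j, (A i j).im * (inner ℂ (u i) (v j) : ℂ).re : ℝ) : ℂ) * Complex.I := by
    apply Complex.ext
    · simp [Complex.re_sum, Finset.sum_sub_distrib]
    · simp [Complex.im_sum, Finset.sum_add_distrib]
  rw [e]
  refine (norm_add_le _ _).trans ?_
  rw [norm_mul, Complex.norm_I, mul_one, Complex.norm_real, Complex.norm_real, Real.norm_eq_abs,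
    Real.norm_eq_abs]
  have t1 := abs_sub (∑ i, ∑ j, (A i j).re * (inner ℂ (u i) (v j) : ℂ).re)
    (∑ i, ∑ j, (A i j).im * (inner ℂ (u i) (v j) : ℂ).im)
  have t2 := abs_add_le (∑ i, ∑ j, (A i j).re * (inner ℂ (u i) (v j) : ℂ).im)
    (∑ i, ∑ j, (A i j).im * (inner ℂ (u i) (v j) : ℂ).re)
  linarith

end Pool.Agent.KGC
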