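import Pool.Agent.KGC.Basic
import Pool.Agent.KG.Discretize
import Pool.Agent.KG.GaussN

/-! From a bound for the form `B ε` on bounded functions to a lower bound for the complex
Grothendieck constant. -/

open MeasureTheory ProbabilityTheory Real Filter Topology
open scoped ComplexConjugate

namespace Pool.Agent.KGC

variable {n : ℕ}

lemma bar_sum {ι : Type*} (s : Finset ι) (p : ι → ℂ) (χ : ι → L2C n) :
    bar (∑ c ∈ s, p c • χ c) = ∑ c ∈ s, conj (p c) • bar (χ c) := by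
  refine ext_inner_left ℂ fun a => ?_
  rw [inner_bar, sum_inner, inner_sum]
  refine Finset.sum_congr rfl fun c _ => ?_
  rw [inner_smul_left, inner_smul_right, inner_bar]

lemma B_sum {ι : Type*} (s : Finset ι) (ε : ℝ) (p q : ι → ℂ) (χ : ι → L2C n) :
    B ε (∑ c ∈ s, p c • χ c) (∑ d ∈ s, q d • χ d) =
      ∑ c ∈ s, ∑ d ∈ s, B ε (χ c) (χ d) * conj (p c) * q d := by
  unfold B
  rw [bar_sum, bar_sum, map_sum, map_sum, sum_inner, sum_inner, Finset.mul_sum]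
  have h1 : ∀ x ∈ s, inner ℂ (conj (q x) • bar (χ x)) (∑ c ∈ s, conj (p c) • bar (χ c)) =
      ∑ c ∈ s, inner ℂ (bar (χ x)) (bar (χ c)) * conj (p c) * q x := by
    intro x _
    rw [inner_sum]
    refine Finset.sum_congr rfl fun c _ => ?_
    rw [inner_smul_left, inner_smul_right, Complex.conj_conj]
    ring
  rw [Finset.sum_congr rfl h1, Finset.sum_comm, ← Finset.sum_sub_distrib]
  refine Finset.sum_congr rfl fun c _ => ?_
  rw [inner_sum, Finset.mul_sum, ← Finset.sum_sub_distrib]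
  refine Finset.sum_congr rfl fun d _ => ?_
  rw [map_smul, map_smul, inner_smul_left, inner_smul_right]
  ring

lemma B_smul_right (ε : ℝ) (c : ℂ) (f g : L2C n) : B ε f (c • g) = c * B ε f g := by
  unfold B
  rw [bar_smul, map_smul, inner_smul_left, inner_smul_right, Complex.conj_conj]
  ring

section Cells

variable {E : Type} (Y : SimpleFunc (Om n) E) {k : ℕ} (e : Y.range ≃ Fin k)

/-- the index of the cell of a point -/
noncomputable def cell (x : Om n) : Fin k := e ⟨Y x, Y.mem_range_self x⟩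

open Classical in
/-- a function constant on cells, as a simple function -/
noncomputable def cellFun (p : Fin k → ℂ) : SimpleFunc (Om n) ℂ :=
  Y.map (fun v => if h : v ∈ Y.range then p (e ⟨v, h⟩) else 0)

lemma cellFun_apply (p : Fin k → ℂ) (x : Om n) : cellFun Y e p x = p (cell Y e x) := by
  unfold cellFun cell
  rw [SimpleFunc.map_apply, dif_pos (Y.mem_range_self x)]

lemma memLp_cell (p : Fin k → ℂ) : MemLp (fun x => p (cell Y e x)) 2 (gm n) := by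
  have h : (fun x => p (cell Y e x)) = cellFun Y e p := funext fun x => (cellFun_apply Y e p x).symm
  rw [h]
  exact SimpleFunc.memLp_of_isFiniteMeasure _ _ _

/-- functions constant on cells, as elements of `L²` -/
noncomputable def Phi : (Fin k → ℂ) →ₗ[ℂ] L2C n where
  toFun p := (memLp_cell Y e p).toLp _
  map_add' p q := by
    rw [← MemLp.toLp_add]
    rfl
  map_smul' c p := by
    rw [RingHom.id_apply, ← MemLp.toLp_const_smul]
    rfl

lemma Phi_coe (p : Fin k → ℂ) : ∀ᵐ x ∂(gm n), Phi Y e p x = p (cell Y e x) :=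
  (memLp_cell Y e p).coeFn_toLp

/-- the indicator functions of the cells -/
noncomputable def chi (c : Fin k) : L2C n := Phi Y e (fun j => if c = j then 1 else 0)

lemma Phi_eq (p : Fin k → ℂ) : Phi Y e p = ∑ c, p c • chi Y e c :=
  LinearMap.pi_apply_eq_sum_univ (Phi Y e) p

lemma B_Phi (ε : ℝ) (p q : Fin k → ℂ) :
    B ε (Phi Y e p) (Phi Y e q) = ∑ c, ∑ d, B ε (chi Y e c) (chi Y e d) * conj (p c) * q d := by
  rw [Phi_eq, Phi_eq, B_sum]

lemma norm_Phi_le (p : Fin k → ℂ) (hp : ∀ c, ‖p c‖ ≤ 1) : ∀ᵐ x ∂(gm n), ‖Phi Y e p x‖ ≤ 1 := by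
  filter_upwards [Phi_coe Y e p] with x hx
  rw [hx]
  exact hp _

end Cells

/-- the norm of the form from its real part -/
lemma norm_B_le (ε β0 : ℝ) (hβ0 : 0 ≤ β0)
    (hB : ∀ f g : L2C n, (∀ᵐ x ∂(gm n), ‖f x‖ ≤ 1) →
      (∀ᵐ x ∂(gm n), ‖g x‖ ≤ 1) → (B ε f g).re ≤ β0)
    (f g : L2C n) (hf : ∀ᵐ x ∂(gm n), ‖f x‖ ≤ 1) (hg : ∀ᵐ x ∂(gm n), ‖g x‖ ≤ 1) :
    ‖B ε f g‖ ≤ β0 := by
  by_cases h0 : B ε f g = 0
  · rw [h0, norm_zero]
    exact hβ0
  · have hn : (‖B ε f g‖ : ℂ) ≠ 0 := by simpa using h0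
    set c : ℂ := conj (B ε f g) / ‖B ε f g‖ with hc
    have hc1 : ‖c‖ = 1 := by
      rw [hc, norm_div, RCLike.norm_conj, Complex.norm_real, norm_norm]
      exact div_self (by simpa using h0)
    have h1 : ∀ᵐ x ∂(gm n), ‖(c • g) x‖ ≤ 1 := by
      filter_upwards [Lp.coeFn_smul c g, hg] with x hx hgx
      rw [hx, Pi.smul_apply, norm_smul, hc1, one_mul]
      exact hgx
    have h2 := hB f (c • g) hf h1
    rw [B_smul_right] at h2
    have h3 : c * B ε f g = (‖B ε f g‖ : ℂ) := by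
      rw [hc, div_mul_eq_mul_div, Complex.conj_mul', sq, mul_div_assoc, div_self hn, mul_one]
    rw [h3, Complex.ofReal_re] at h2
    exact h2

/-- the main inequality in dimension `n` -/
lemma lower_dim (ε β0 : ℝ) (hβ0 : 0 < β0)
    (hB : ∀ (n : ℕ), 0 < n → ∀ f g : L2C n, (∀ᵐ x ∂(gm n), ‖f x‖ ≤ 1) →
      (∀ᵐ x ∂(gm n), ‖g x‖ ≤ 1) → (B ε f g).re ≤ β0)
    (hnum : ∀ (n : ℕ) (F : Fin n → L2C n), (∀ᵐ x ∂(gm n), ∑ i, ‖F i x‖ ^ 2 ≤ 1) → 0 < n →
      ∀ τ : ℝ, 0 ≤ τ → τ ≤ ∫ x, ∑ i, (conj (F i x) * cvec n x i).re ∂(gm n) →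
      (1 + ε) * (τ ^ 2 / n) - ε ≤ ∑ i, (B ε (F i) (F i)).re)
    (K : ℝ) (hK : 0 < K) (h : IsGrothendieckBound K) (n : ℕ) (hn : 0 < n) (τ : ℝ) (hτ0 : 0 ≤ τ)
    (hτ : τ < ∫ x, ‖cvec n x‖ ∂(gm n)) :
    (1 + ε) * (τ ^ 2 / n) - ε ≤ K * β0 := by
  classical
  obtain ⟨Y, hY1, hY2⟩ := Pool.Agent.KG.exists_simple (𝕜 := ℂ) hn (gm n) (cvec n)
    (measurable_cvec n) (by
      simp_rw [norm_cvec]
      have := Pool.Agent.KG.integrable_norm_pow (E := Om n) 1
      simp only [pow_one] at this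
      exact this.div_const _) τ hτ
  obtain ⟨k, ⟨e⟩⟩ := Finite.exists_equiv_fin Y.range
  set v : Fin k → Cn n := fun c => (e.symm c : Cn n) with hv
  have hvY : ∀ x, v (cell Y e x) = Y x := by
    intro x
    simp [hv, cell]
  have hv1 : ∀ c, ‖v c‖ = 1 := by
    intro c
    obtain ⟨x, hx⟩ := SimpleFunc.mem_range.1 (e.symm c).2
    simp only [hv]
    rw [← hx]
    exact hY1 x
  set F : Fin n → L2C n := fun i => Phi Y e (fun c => v c i) with hF
  have hFc : ∀ᵐ x ∂(gm n), ∀ i, F i x = Y x i := by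
    rw [ae_all_iff]
    intro i
    filter_upwards [Phi_coe Y e (fun c => v c i)] with x hx
    simp only [hF]
    rw [hx, hvY]
  have hF1 : ∀ᵐ x ∂(gm n), ∑ i, ‖F i x‖ ^ 2 ≤ 1 := by
    filter_upwards [hFc] with x hx
    simp_rw [hx]
    have h1 := EuclideanSpace.norm_sq_eq (Y x)
    rw [← h1, hY1]
    norm_num
  have hF2 : τ ≤ ∫ x, ∑ i, (conj (F i x) * cvec n x i).re ∂(gm n) := by
    refine hY2.le.trans (le_of_eq ?_)
    refine integral_congr_ae ?_
    filter_upwards [hFc] with x hx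
    simp_rw [hx]
    rw [PiLp.inner_apply]
    simp only [RCLike.re_eq_complex_re, Complex.re_sum]
    refine Finset.sum_congr rfl fun i _ => ?_
    rw [RCLike.inner_apply']
  have h1 := hnum n F hF1 hn τ hτ0 hF2
  set A : Matrix (Fin k) (Fin k) ℂ := Matrix.of fun c d => B ε (chi Y e c) (chi Y e d) with hA
  have h2 : ∑ i, B ε (F i) (F i) = ∑ c, ∑ d, A c d * (inner ℂ (v c) (v d) : ℂ) := by
    simp only [hF]
    simp_rw [B_Phi]
    rw [Finset.sum_comm]
    refine Finset.sum_congr rfl fun c _ => ?_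
    rw [Finset.sum_comm]
    refine Finset.sum_congr rfl fun d _ => ?_
    rw [PiLp.inner_apply, Finset.mul_sum]
    refine Finset.sum_congr rfl fun i _ => ?_
    rw [RCLike.inner_apply', hA, Matrix.of_apply, ← mul_assoc]
  have h3 : beta A ≤ β0 := by
    unfold beta
    refine csSup_le ⟨_, 0, 0, by simp, by simp, rfl⟩ ?_
    rintro r ⟨p, q, hp, hq, rfl⟩
    have h4 : ∑ i, ∑ j, A i j * p i * q j = B ε (Phi Y e (fun i => conj (p i))) (Phi Y e q) := by
      rw [B_Phi]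
      simp only [Complex.conj_conj]
      rfl
    rw [h4]
    exact norm_B_le ε β0 hβ0.le (fun f g => hB n hn f g) _ _
      (norm_Phi_le Y e _ (fun c => by simpa using hp c)) (norm_Phi_le Y e q hq)
  have h5 := h k k A (Cn n) v v (fun c => (hv1 c).le) (fun c => (hv1 c).le)
  calc (1 + ε) * (τ ^ 2 / n) - ε ≤ ∑ i, (B ε (F i) (F i)).re := h1
    _ = (∑ i, B ε (F i) (F i)).re := (Complex.re_sum _ _).symm
    _ = (∑ c, ∑ d, A c d * (inner ℂ (v c) (v d) : ℂ)).re := by rw [h2]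
    _ ≤ ‖∑ c, ∑ d, A c d * (inner ℂ (v c) (v d) : ℂ)‖ := Complex.re_le_norm _
    _ ≤ K * beta A := h5
    _ ≤ K * β0 := mul_le_mul_of_nonneg_left h3 hK.le

/-- `E‖x‖ ≥ √n (1 - 1/n)` -/
lemma integral_norm_cvec_ge {n : ℕ} (hn : 0 < n) :
    √(n : ℝ) * (1 - 1 / n) ≤ ∫ x, ‖cvec n x‖ ∂(gm n) := by
  have hn0 : (0 : ℝ) < n := by exact_mod_cast hn
  have h := Pool.Agent.KG.integral_norm_ge (ι := Fin n × Fin 2) (by
    simpa [Fintype.card_prod] using hn)
  have h2 : (Fintype.card (Fin n × Fin 2) : ℝ) = 2 * n := by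
    simp [Fintype.card_prod, mul_comm]
  rw [h2] at h
  simp_rw [norm_cvec]
  rw [integral_div, le_div_iff₀ (by positivity)]
  refine le_trans ?_ h
  rw [Real.sqrt_mul (by norm_num)]
  have h3 : (1 : ℝ) - 1 / n ≤ 1 - 1 / (2 * n) := by
    have : (1 : ℝ) / (2 * n) ≤ 1 / n := by
      apply one_div_le_one_div_of_le hn0
      linarith
    linarith
  calc √(n : ℝ) * (1 - 1 / n) * √2 = (√2 * √(n : ℝ)) * (1 - 1 / n) := by ring
    _ ≤ (√2 * √(n : ℝ)) * (1 - 1 / (2 * n)) := mul_le_mul_of_nonneg_left h3 (by positivity)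

/-- from the bound of the form `B ε` to a lower bound for the Grothendieck constant. -/
theorem lower_of (ε β0 : ℝ) (hβ0 : 0 < β0)
    (hB : ∀ (n : ℕ), 0 < n → ∀ f g : L2C n, (∀ᵐ x ∂(gm n), ‖f x‖ ≤ 1) →
      (∀ᵐ x ∂(gm n), ‖g x‖ ≤ 1) → (B ε f g).re ≤ β0)
    (hnum : ∀ (n : ℕ) (F : Fin n → L2C n), (∀ᵐ x ∂(gm n), ∑ i, ‖F i x‖ ^ 2 ≤ 1) → 0 < n →
      ∀ τ : ℝ, 0 ≤ τ → τ ≤ ∫ x, ∑ i, (conj (F i x) * cvec n x i).re ∂(gm n) →
      (1 + ε) * (τ ^ 2 / n) - ε ≤ ∑ i, (B ε (F i) (F i)).re)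
    (K : ℝ) (hK : 0 < K) (h : IsGrothendieckBound K) : 1 / β0 ≤ K := by
  rw [div_le_iff₀ hβ0]
  have key : ∀ m : ℕ, 2 ≤ m → (1 + ε) * (1 - 2 / (m : ℝ)) ^ 2 - ε ≤ K * β0 := by
    intro m hm
    have hm0 : (0 : ℝ) < m := by exact_mod_cast (by omega : 0 < m)
    have hm2 : (2 : ℝ) ≤ m := by exact_mod_cast hm
    have hs : 0 < √(m : ℝ) := Real.sqrt_pos.2 hm0
    have h1 : (0 : ℝ) ≤ 1 - 2 / m := by
      rw [sub_nonneg, div_le_one hm0]
      exact hm2
    have h2 := integral_norm_cvec_ge (n := m) (by omega)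
    have h3 : √(m : ℝ) * (1 - 2 / m) < ∫ x, ‖cvec m x‖ ∂(gm m) := by
      refine lt_of_lt_of_le ?_ h2
      apply mul_lt_mul_of_pos_left _ hs
      have : (1 : ℝ) / m < 2 / m := by
        apply div_lt_div_of_pos_right _ hm0
        norm_num
      linarith
    have h4 := lower_dim ε β0 hβ0 hB hnum K hK h m (by omega) (√(m : ℝ) * (1 - 2 / m))
      (mul_nonneg hs.le h1) h3
    have h5 : (√(m : ℝ) * (1 - 2 / m)) ^ 2 / m = (1 - 2 / m) ^ 2 := by
      rw [mul_pow, Real.sq_sqrt hm0.le]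
      field_simp
    rwa [h5] at h4
  have hlim : Tendsto (fun m : ℕ => (1 + ε) * (1 - 2 / (m : ℝ)) ^ 2 - ε) atTop
      (𝓝 ((1 + ε) * (1 - 0) ^ 2 - ε)) := by
    refine ((Tendsto.pow ?_ 2).const_mul _).sub_const _
    exact tendsto_const_nhds.sub (tendsto_const_div_atTop_nhds_zero_nat 2)
  have h6 := le_of_tendsto hlim (eventually_atTop.2 ⟨2, key⟩)
  linarith

end Pool.Agent.KGC
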