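import Pool.Agent.KGC.PlaneIneq

/-! Gaussian integrals of the polynomials `qf`. -/

open MeasureTheory ProbabilityTheory Real Set
open scoped ComplexConjugate

namespace Pool.Agent.KGC

/-- averaging over the four rotations -/
lemma avg4 {E : Type*} [NormedAddCommGroup E] [NormedSpace ℝ E] {G : ℂ → E}
    (hG : Integrable G gC) :
    (4 : ℝ) • ∫ z, G z ∂gC =
      ∫ z, (G z + G (Complex.I * z) + G (-z) + G (-(Complex.I * z))) ∂gC := by
  have hmp := measurePreserving_rot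
  have h1 : Integrable (fun z => G (Complex.I * z)) gC :=
    (hmp.integrable_comp hG.aestronglyMeasurable).2 hG
  have h2 : Integrable (fun z => G (Complex.I * (Complex.I * z))) gC :=
    (hmp.integrable_comp h1.aestronglyMeasurable).2 h1
  have h3 : Integrable (fun z => G (Complex.I * (Complex.I * (Complex.I * z)))) gC :=
    (hmp.integrable_comp h2.aestronglyMeasurable).2 h2
  have e1 : ∫ z, G (Complex.I * z) ∂gC = ∫ z, G z ∂gC := integral_rot G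
  have e2 : ∫ z, G (Complex.I * (Complex.I * z)) ∂gC = ∫ z, G z ∂gC := by
    rw [integral_rot (fun z => G (Complex.I * z)), e1]
  have e3 : ∫ z, G (Complex.I * (Complex.I * (Complex.I * z))) ∂gC = ∫ z, G z ∂gC := by
    rw [integral_rot (fun z => G (Complex.I * (Complex.I * z))), e2]
  have r2 : ∀ z : ℂ, Complex.I * (Complex.I * z) = -z := fun z => by
    rw [← mul_assoc, Complex.I_mul_I]
    ring
  have r3 : ∀ z : ℂ, Complex.I * (Complex.I * (Complex.I * z)) = -(Complex.I * z) := fun z => r2 _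
  simp_rw [r3] at h3 e3
  simp_rw [r2] at h2 e2
  rw [integral_add (by exact (hG.add h1).add h2) h3, integral_add (by exact hG.add h1) h2,
    integral_add hG h1, e1, e2, e3]
  module

lemma qf_I (c00 c10 c01 c20 c11 c21 z : ℂ) : qf c00 c10 c01 c20 c11 c21 (Complex.I * z) =
    c00 + (Complex.I * (c10 * z + c21 * h21 z) - Complex.I * (c01 * conj z) -
      c20 * (z ^ 2 / (√2 : ℂ)) + c11 * ((‖z‖ : ℂ) ^ 2 - 1)) := by
  unfold qf
  rw [pf_I]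

lemma qf_neg (c00 c10 c01 c20 c11 c21 z : ℂ) : qf c00 c10 c01 c20 c11 c21 (-z) =
    c00 + (-(c10 * z + c21 * h21 z) - (c01 * conj z) +
      c20 * (z ^ 2 / (√2 : ℂ)) + c11 * ((‖z‖ : ℂ) ^ 2 - 1)) := by
  unfold qf
  rw [pf_neg]

lemma qf_negI (c00 c10 c01 c20 c11 c21 z : ℂ) : qf c00 c10 c01 c20 c11 c21 (-(Complex.I * z)) =
    c00 + (-(Complex.I * (c10 * z + c21 * h21 z)) + Complex.I * (c01 * conj z) -
      c20 * (z ^ 2 / (√2 : ℂ)) + c11 * ((‖z‖ : ℂ) ^ 2 - 1)) := by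
  unfold qf
  rw [pf_negI]

lemma qf_self (c00 c10 c01 c20 c11 c21 z : ℂ) : qf c00 c10 c01 c20 c11 c21 z =
    c00 + ((c10 * z + c21 * h21 z) + (c01 * conj z) +
      c20 * (z ^ 2 / (√2 : ℂ)) + c11 * ((‖z‖ : ℂ) ^ 2 - 1)) := rfl

lemma cmom_two : Integrable (fun z : ℂ => (‖z‖ : ℂ) ^ 2) gC ∧ ∫ z, (‖z‖ : ℂ) ^ 2 ∂gC = 1 := by
  have h := (moment_pow 2).1
  constructor
  · have := h.ofReal (𝕜 := ℂ)
    refine this.congr (Filter.Eventually.of_forall fun z => ?_)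
    simp
  · have : ∫ z : ℂ, ((‖z‖ ^ 2 : ℝ) : ℂ) ∂gC = ((∫ z : ℂ, ‖z‖ ^ 2 ∂gC : ℝ) : ℂ) :=
      integral_ofReal
    rw [m_two] at this
    push_cast at this
    exact this

lemma cmom_four : Integrable (fun z : ℂ => (‖z‖ : ℂ) ^ 4) gC ∧ ∫ z, (‖z‖ : ℂ) ^ 4 ∂gC = 2 := by
  have h := (moment_pow 4).1
  constructor
  · have := h.ofReal (𝕜 := ℂ)
    refine this.congr (Filter.Eventually.of_forall fun z => ?_)
    simp
  · have : ∫ z : ℂ, ((‖z‖ ^ 4 : ℝ) : ℂ) ∂gC = ((∫ z : ℂ, ‖z‖ ^ 4 ∂gC : ℝ) : ℂ) :=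
      integral_ofReal
    rw [m_four] at this
    push_cast at this
    exact this

lemma integral_qf (c00 c10 c01 c20 c11 c21 : ℂ) :
    ∫ z, qf c00 c10 c01 c20 c11 c21 z ∂gC = c00 := by
  have h := avg4 (integrable_qf c00 c10 c01 c20 c11 c21)
  have h2 : ∫ z, (qf c00 c10 c01 c20 c11 c21 z + qf c00 c10 c01 c20 c11 c21 (Complex.I * z) +
      qf c00 c10 c01 c20 c11 c21 (-z) + qf c00 c10 c01 c20 c11 c21 (-(Complex.I * z))) ∂gC =
      4 * c00 := by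
    have h3 : ∀ z : ℂ, qf c00 c10 c01 c20 c11 c21 z + qf c00 c10 c01 c20 c11 c21 (Complex.I * z) +
      qf c00 c10 c01 c20 c11 c21 (-z) + qf c00 c10 c01 c20 c11 c21 (-(Complex.I * z)) =
      4 * c00 + (4 * c11) * ((‖z‖ : ℂ) ^ 2 - 1) := by
      intro z
      rw [qf_I, qf_neg, qf_negI, qf_self]
      ring
    simp_rw [h3]
    have i2 : Integrable (fun z : ℂ => (4 * c11) * ((‖z‖ : ℂ) ^ 2 - 1)) gC :=
      (cmom_two.1.sub (integrable_const 1)).const_mul _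
    have e2 : ∫ z : ℂ, (4 * c11) * ((‖z‖ : ℂ) ^ 2 - 1) ∂gC = 0 := by
      rw [integral_const_mul, integral_sub cmom_two.1 (integrable_const 1), cmom_two.2]
      simp
    rw [integral_add (integrable_const _) i2, e2]
    simp
  rw [h2] at h
  rw [Complex.real_smul] at h
  push_cast at h
  exact mul_left_cancel₀ (by norm_num : (4 : ℂ) ≠ 0) h

lemma integrable_conj_mul_qf (c00 c10 c01 c20 c11 c21 : ℂ) :
    Integrable (fun z => conj z * qf c00 c10 c01 c20 c11 c21 z) gC := by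
  obtain ⟨C, hC⟩ := exists_growth_pf c10 c01 c20 c11 c21
  have hq := continuous_qf c00 c10 c01 c20 c11 c21
  have h2 : Continuous (fun z : ℂ => conj z) := Complex.continuous_conj
  refine integrable_of_growthC (C := ‖c00‖ + C) (k := 4)
    (h2.mul hq).aestronglyMeasurable fun z => ?_
  have hz := norm_nonneg z
  rw [norm_mul, RCLike.norm_conj]
  have h3 : ‖qf c00 c10 c01 c20 c11 c21 z‖ ≤ (‖c00‖ + C) * (1 + ‖z‖) ^ 3 := by
    unfold qf
    refine (norm_add_le _ _).trans ?_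
    rw [add_mul]
    refine add_le_add ?_ (hC z)
    have : (1 : ℝ) ≤ (1 + ‖z‖) ^ 3 := one_le_pow₀ (by linarith)
    nlinarith [norm_nonneg c00]
  calc ‖z‖ * ‖qf c00 c10 c01 c20 c11 c21 z‖ ≤ (1 + ‖z‖) * ((‖c00‖ + C) * (1 + ‖z‖) ^ 3) :=
        mul_le_mul (by linarith) h3 (norm_nonneg _) (by linarith)
    _ = _ := by ring

lemma integral_conj_mul_qf (c00 c10 c01 c20 c11 c21 : ℂ) :
    ∫ z, conj z * qf c00 c10 c01 c20 c11 c21 z ∂gC = c10 := by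
  have h := avg4 (integrable_conj_mul_qf c00 c10 c01 c20 c11 c21)
  have h2' : (√2 : ℂ) ≠ 0 := by
    have : (0 : ℝ) < √2 := by positivity
    exact_mod_cast this.ne'
  have h2 : ∫ z, (conj z * qf c00 c10 c01 c20 c11 c21 z +
      conj (Complex.I * z) * qf c00 c10 c01 c20 c11 c21 (Complex.I * z) +
      conj (-z) * qf c00 c10 c01 c20 c11 c21 (-z) +
      conj (-(Complex.I * z)) * qf c00 c10 c01 c20 c11 c21 (-(Complex.I * z))) ∂gC =
      4 * c10 := by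
    have h3 : ∀ z : ℂ, conj z * qf c00 c10 c01 c20 c11 c21 z +
      conj (Complex.I * z) * qf c00 c10 c01 c20 c11 c21 (Complex.I * z) +
      conj (-z) * qf c00 c10 c01 c20 c11 c21 (-z) +
      conj (-(Complex.I * z)) * qf c00 c10 c01 c20 c11 c21 (-(Complex.I * z)) =
      (4 * c10 - 8 * c21 / (√2 : ℂ)) * ((‖z‖ : ℂ) ^ 2) + (4 * c21 / (√2 : ℂ)) * (‖z‖ : ℂ) ^ 4 := by
      intro z
      rw [qf_I, qf_neg, qf_negI, qf_self]
      have hz : (‖z‖ : ℂ) ^ 2 = z * conj z := (Complex.mul_conj' z).symm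
      have hz4 : (‖z‖ : ℂ) ^ 4 = (z * conj z) ^ 2 := by
        rw [← hz]
        ring
      unfold h21
      rw [hz4, hz]
      simp only [map_neg, map_mul, Complex.conj_I]
      have hI : Complex.I * Complex.I = -1 := Complex.I_mul_I
      field_simp
      linear_combination (-2 * conj z * ((√2 : ℂ) * (c10 * z) + c21 * (z * (z * conj z - 2))
        - (√2 : ℂ) * (c01 * conj z))) * hI
    simp_rw [h3]
    rw [integral_add (cmom_two.1.const_mul _) (cmom_four.1.const_mul _), integral_const_mul,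
      integral_const_mul, cmom_two.2, cmom_four.2]
    field_simp
    ring
  rw [h2] at h
  rw [Complex.real_smul] at h
  push_cast at h
  exact mul_left_cancel₀ (by norm_num : (4 : ℂ) ≠ 0) h

lemma memLp_qf (c00 c10 c01 c20 c11 c21 : ℂ) :
    Integrable (fun z => ‖qf c00 c10 c01 c20 c11 c21 z‖ ^ 2) gC := by
  obtain ⟨C, hC⟩ := exists_growth_pf c10 c01 c20 c11 c21
  have hq := continuous_qf c00 c10 c01 c20 c11 c21
  refine integrable_of_growthC (C := (‖c00‖ + C) ^ 2) (k := 6)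
    (hq.norm.pow 2).aestronglyMeasurable fun z => ?_
  have hz := norm_nonneg z
  have h3 : ‖qf c00 c10 c01 c20 c11 c21 z‖ ≤ (‖c00‖ + C) * (1 + ‖z‖) ^ 3 := by
    unfold qf
    refine (norm_add_le _ _).trans ?_
    rw [add_mul]
    refine add_le_add ?_ (hC z)
    have : (1 : ℝ) ≤ (1 + ‖z‖) ^ 3 := one_le_pow₀ (by linarith)
    nlinarith [norm_nonneg c00]
  rw [norm_pow, norm_norm]
  calc ‖qf c00 c10 c01 c20 c11 c21 z‖ ^ 2 ≤ ((‖c00‖ + C) * (1 + ‖z‖) ^ 3) ^ 2 :=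
        pow_le_pow_left₀ (norm_nonneg _) h3 2
    _ = _ := by ring

lemma integral_norm_qf (c00 c10 c01 c20 c11 c21 : ℂ) :
    ∫ z, ‖qf c00 c10 c01 c20 c11 c21 z‖ ^ 2 ∂gC =
      ‖c00‖ ^ 2 + ‖c10‖ ^ 2 + ‖c01‖ ^ 2 + ‖c20‖ ^ 2 + ‖c11‖ ^ 2 + ‖c21‖ ^ 2 := by
  have h := avg4 (memLp_qf c00 c10 c01 c20 c11 c21)
  have h2 : (0 : ℝ) < √2 := by positivity
  have h22 : √2 ^ 2 = 2 := Real.sq_sqrt (by norm_num)
  have h3 : ∀ z : ℂ, ‖qf c00 c10 c01 c20 c11 c21 z‖ ^ 2 +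
      ‖qf c00 c10 c01 c20 c11 c21 (Complex.I * z)‖ ^ 2 +
      ‖qf c00 c10 c01 c20 c11 c21 (-z)‖ ^ 2 +
      ‖qf c00 c10 c01 c20 c11 c21 (-(Complex.I * z))‖ ^ 2 =
      4 * ((‖c00‖ ^ 2 - 2 * (conj c00 * c11).re + ‖c11‖ ^ 2) +
      (2 * (conj c00 * c11).re - 2 * ‖c11‖ ^ 2 + ‖c01‖ ^ 2 + ‖c10‖ ^ 2 -
        4 / √2 * (c10 * conj c21).re + 2 * ‖c21‖ ^ 2) * ‖z‖ ^ 2 +
      (‖c11‖ ^ 2 + 1 / 2 * ‖c20‖ ^ 2 + 2 / √2 * (c10 * conj c21).re - 2 * ‖c21‖ ^ 2) * ‖z‖ ^ 4 +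
      (1 / 2 * ‖c21‖ ^ 2) * ‖z‖ ^ 6) := by
    intro z
    rw [qf_I, qf_neg, qf_negI, qf_self]
    have eX : ‖c10 * z + c21 * h21 z‖ ^ 2 = ‖z‖ ^ 2 * (‖c10‖ ^ 2 +
        2 * (‖z‖ ^ 2 - 2) / √2 * (c10 * conj c21).re + (‖z‖ ^ 2 - 2) ^ 2 / 2 * ‖c21‖ ^ 2) := by
      have e1 : c10 * z + c21 * h21 z = z * (c10 + c21 * (((‖z‖ ^ 2 - 2) / √2 : ℝ) : ℂ)) := by
        unfold h21
        push_cast
        ring
      rw [e1, norm_mul, mul_pow]
      congr 1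
      have e2 : ‖c10 + c21 * (((‖z‖ ^ 2 - 2) / √2 : ℝ) : ℂ)‖ ^ 2 = ‖c10‖ ^ 2 +
          2 * ((‖z‖ ^ 2 - 2) / √2) * (c10 * conj c21).re + ((‖z‖ ^ 2 - 2) / √2) ^ 2 * ‖c21‖ ^ 2 := by
        generalize (‖z‖ ^ 2 - 2) / √2 = a
        simp only [Complex.sq_norm, Complex.normSq_apply]
        simp
        ring
      rw [e2, div_pow, h22]
      ring
    have eY : ‖c01 * conj z‖ ^ 2 = ‖z‖ ^ 2 * ‖c01‖ ^ 2 := by
      rw [norm_mul, RCLike.norm_conj]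
      ring
    have eZ : ‖c20 * (z ^ 2 / (√2 : ℂ))‖ ^ 2 = ‖z‖ ^ 4 / 2 * ‖c20‖ ^ 2 := by
      rw [norm_mul, norm_div, norm_pow, Complex.norm_real, Real.norm_eq_abs,
        abs_of_pos (by positivity), mul_pow, div_pow, h22]
      ring
    have eW : ‖c00 + c11 * ((‖z‖ : ℂ) ^ 2 - 1)‖ ^ 2 = ‖c00‖ ^ 2 +
        2 * (‖z‖ ^ 2 - 1) * (conj c00 * c11).re + (‖z‖ ^ 2 - 1) ^ 2 * ‖c11‖ ^ 2 := by
      have : ((‖z‖ : ℂ) ^ 2 - 1) = ((‖z‖ ^ 2 - 1 : ℝ) : ℂ) := by push_cast; ring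
      rw [this]
      generalize ‖z‖ ^ 2 - 1 = a
      simp only [Complex.sq_norm, Complex.normSq_apply]
      simp
      ring
    have hN : ∀ c X Y Z W : ℂ, ‖c + (X + Y + Z + W)‖ ^ 2 +
        ‖c + (Complex.I * X - Complex.I * Y - Z + W)‖ ^ 2 +
        ‖c + (-X - Y + Z + W)‖ ^ 2 + ‖c + (-(Complex.I * X) + Complex.I * Y - Z + W)‖ ^ 2 =
        4 * (‖X‖ ^ 2 + ‖Y‖ ^ 2 + ‖Z‖ ^ 2 + ‖c + W‖ ^ 2) := by
      intro c X Y Z W
      simp only [Complex.sq_norm, Complex.normSq_apply]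
      simp
      ring
    rw [hN, eX, eY, eZ, eW]
    field_simp
    ring
  have i2 := (moment_pow 2).1
  have i4 := (moment_pow 4).1
  have i6 := (moment_pow 6).1
  simp_rw [h3] at h
  have hi : ∀ a b c d : ℝ, ∫ z : ℂ, (a + b * ‖z‖ ^ 2 + c * ‖z‖ ^ 4 + d * ‖z‖ ^ 6) ∂gC =
      a + b * 1 + c * 2 + d * 6 := by
    intro a b c d
    have j1 : Integrable (fun z : ℂ => a + b * ‖z‖ ^ 2) gC :=
      (integrable_const _).add (i2.const_mul _)
    have j2 : Integrable (fun z : ℂ => a + b * ‖z‖ ^ 2 + c * ‖z‖ ^ 4) gC :=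
      j1.add (i4.const_mul _)
    rw [integral_add j2 (i6.const_mul _), integral_add j1 (i4.const_mul _),
      integral_add (integrable_const _) (i2.const_mul _), integral_const_mul, integral_const_mul,
      integral_const_mul, m_two, m_four, m_six]
    simp
  rw [integral_const_mul, hi, smul_eq_mul] at h
  have h4 : ∫ z, ‖qf c00 c10 c01 c20 c11 c21 z‖ ^ 2 ∂gC =
      ((‖c00‖ ^ 2 - 2 * (conj c00 * c11).re + ‖c11‖ ^ 2) +
      (2 * (conj c00 * c11).re - 2 * ‖c11‖ ^ 2 + ‖c01‖ ^ 2 + ‖c10‖ ^ 2 -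
        4 / √2 * (c10 * conj c21).re + 2 * ‖c21‖ ^ 2) * 1 +
      (‖c11‖ ^ 2 + 1 / 2 * ‖c20‖ ^ 2 + 2 / √2 * (c10 * conj c21).re - 2 * ‖c21‖ ^ 2) * 2 +
      (1 / 2 * ‖c21‖ ^ 2) * 6) := by
    linarith
  rw [h4]
  ring

end Pool.Agent.KGC
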