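import Pool.Agent.KGC.Basic

/-! The numerator: vector valued functions. -/

open MeasureTheory ProbabilityTheory Real
open scoped ComplexConjugate

namespace Pool.Agent.KGC

variable {n : ℕ}

lemma norm_P21_sq_le (F : L2C n) : ‖P21 n F‖ ^ 2 ≤ ‖F‖ ^ 2 - ‖bar F‖ ^ 2 := by
  have h1 : P21 n F = P21 n (F - lin (bar F)) := by
    rw [map_sub, P21_lin, sub_zero]
  rw [h1]
  refine (pow_le_pow_left₀ (norm_nonneg _) (norm_P21_le _) 2).trans (le_of_eq ?_)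
  rw [norm_sub_sq (𝕜 := ℂ), norm_lin, ← inner_bar, inner_self_eq_norm_sq]
  ring

lemma re_B_self (ε : ℝ) (F : L2C n) : (B ε F F).re = ‖bar F‖ ^ 2 - ε * ‖P21 n F‖ ^ 2 := by
  unfold B
  rw [inner_self_eq_norm_sq_to_K, inner_self_eq_norm_sq_to_K]
  have h : ((‖bar F‖ : ℂ) ^ 2 - (ε : ℂ) * (‖P21 n F‖ : ℂ) ^ 2) =
      ((‖bar F‖ ^ 2 - ε * ‖P21 n F‖ ^ 2 : ℝ) : ℂ) := by
    push_cast
    rfl
  change ((‖bar F‖ : ℂ) ^ 2 - (ε : ℂ) * (‖P21 n F‖ : ℂ) ^ 2).re = _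
  rw [h, Complex.ofReal_re]

/-- lower bound for the numerator. -/
theorem numer (ε : ℝ) (hε : 0 ≤ ε) (n : ℕ) (F : Fin n → L2C n)
    (hF : ∀ᵐ x ∂(gm n), ∑ i, ‖F i x‖ ^ 2 ≤ 1) (hn : 0 < n) (τ : ℝ) (hτ0 : 0 ≤ τ)
    (hτ : τ ≤ ∫ x, ∑ i, (conj (F i x) * cvec n x i).re ∂(gm n)) :
    (1 + ε) * (τ ^ 2 / n) - ε ≤ ∑ i, (B ε (F i) (F i)).re := by
  classical
  have hn0 : (0 : ℝ) < n := by exact_mod_cast hn
  have h1 : ∀ i, (1 + ε) * ‖bar (F i)‖ ^ 2 - ε * ‖F i‖ ^ 2 ≤ (B ε (F i) (F i)).re := by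
    intro i
    rw [re_B_self]
    have := mul_le_mul_of_nonneg_left (norm_P21_sq_le (F i)) hε
    linarith
  have h2 : ∑ i, ‖F i‖ ^ 2 ≤ 1 := by
    have hi : ∀ i ∈ Finset.univ, Integrable (fun x => ‖F i x‖ ^ 2) (gm n) :=
      fun i _ => integrable_norm_sq_L2C (F i)
    simp_rw [norm_sq_L2C]
    rw [← integral_finsetSum _ hi]
    calc ∫ x, ∑ i, ‖F i x‖ ^ 2 ∂(gm n) ≤ ∫ _x, (1 : ℝ) ∂(gm n) :=
          integral_mono_ae (integrable_finsetSum _ hi) (integrable_const 1) hF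
      _ = 1 := by simp
  have hii : ∀ i ∈ Finset.univ, Integrable (fun x => (conj (F i x) * cvec n x i).re) (gm n) :=
    fun i _ => (integrable_conj_mul_cvec (F i) i).re
  have hbi : ∀ i, (bar (F i) i).re = ∫ x, (conj (F i x) * cvec n x i).re ∂(gm n) := by
    intro i
    rw [bar_apply]
    exact (integral_re (integrable_conj_mul_cvec (F i) i)).symm
  have h4 : τ ≤ ∑ i, (bar (F i) i).re := by
    simp_rw [hbi]
    rw [← integral_finsetSum _ hii]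
    exact hτ
  have h5 : τ ^ 2 / n ≤ ∑ i, ‖bar (F i)‖ ^ 2 := by
    rw [div_le_iff₀ hn0]
    have h6 : (∑ i, (bar (F i) i).re) ^ 2 ≤ (Finset.univ : Finset (Fin n)).card *
        ∑ i, ((bar (F i) i).re) ^ 2 := sq_sum_le_card_mul_sum_sq
    rw [Finset.card_univ, Fintype.card_fin] at h6
    have h7 : ∑ i, ((bar (F i) i).re) ^ 2 ≤ ∑ i, ‖bar (F i)‖ ^ 2 := by
      refine Finset.sum_le_sum fun i _ => ?_
      have h8 : |(bar (F i) i).re| ≤ ‖bar (F i)‖ :=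
        (Complex.abs_re_le_norm _).trans (PiLp.norm_apply_le (bar (F i)) i)
      rw [← sq_abs]
      exact pow_le_pow_left₀ (abs_nonneg _) h8 2
    have h9 : τ ^ 2 ≤ (∑ i, (bar (F i) i).re) ^ 2 := pow_le_pow_left₀ hτ0 h4 2
    nlinarith
  have h10 := Finset.sum_le_sum fun i (_ : i ∈ Finset.univ) => h1 i
  rw [Finset.sum_sub_distrib, ← Finset.mul_sum, ← Finset.mul_sum] at h10
  have h11 := mul_le_mul_of_nonneg_left h5 (by linarith : (0 : ℝ) ≤ 1 + ε)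
  have h12 := mul_le_mul_of_nonneg_left h2 hε
  linarith

end Pool.Agent.KGC
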