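import Pool.Agent.KGC.Quad
import Pool.Agent.KGC.Defs

/-! The slice inequality in the plane. -/

open MeasureTheory ProbabilityTheory Real Set
open scoped ComplexConjugate

namespace Pool.Agent.KGC

/-- majorant after splitting `q = c + p` -/
noncomputable def TT (z c p : ℂ) : ℝ :=
  (3 / 8 * ‖c‖ ^ 2 + 3 / 4 * (conj c * p).re + 1 / 2 * ‖p‖ ^ 2) / ‖z‖ -
    1 / 8 * (z ^ 2 * conj c ^ 2).re / ‖z‖ ^ 3 - 1 / 4 * (z ^ 2 * (conj c * conj p)).re / ‖z‖ ^ 3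

lemma re_sq_eq (z q : ℂ) : (z * conj q).re ^ 2 =
    1 / 2 * (‖z‖ ^ 2 * ‖q‖ ^ 2) + 1 / 2 * (z ^ 2 * conj q ^ 2).re := by
  rw [Complex.sq_norm, Complex.sq_norm, Complex.normSq_apply, Complex.normSq_apply]
  simp [pow_two]
  ring

lemma maj_le_TT (z c p : ℂ) (hz : z ≠ 0) :
    ‖c + p‖ ^ 2 / (2 * ‖z‖) - (z * conj (c + p)).re ^ 2 / (4 * ‖z‖ ^ 3) ≤ TT z c p := by
  have hr : 0 < ‖z‖ := norm_pos_iff.2 hz
  have h1 : ‖c + p‖ ^ 2 / (2 * ‖z‖) - (z * conj (c + p)).re ^ 2 / (4 * ‖z‖ ^ 3) =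
      3 / 8 * ‖c + p‖ ^ 2 / ‖z‖ - 1 / 8 * (z ^ 2 * conj (c + p) ^ 2).re / ‖z‖ ^ 3 := by
    rw [re_sq_eq]
    field_simp
    ring
  have h2 : ‖c + p‖ ^ 2 = ‖c‖ ^ 2 + 2 * (conj c * p).re + ‖p‖ ^ 2 := by
    rw [Complex.sq_norm, Complex.sq_norm, Complex.sq_norm, Complex.normSq_apply,
      Complex.normSq_apply, Complex.normSq_apply]
    simp
    ring
  have h3 : (z ^ 2 * conj (c + p) ^ 2).re = (z ^ 2 * conj c ^ 2).re +
      2 * (z ^ 2 * (conj c * conj p)).re + (z ^ 2 * conj p ^ 2).re := by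
    have : z ^ 2 * conj (c + p) ^ 2 = z ^ 2 * conj c ^ 2 +
      2 * (z ^ 2 * (conj c * conj p)) + z ^ 2 * conj p ^ 2 := by
      rw [map_add]
      ring
    rw [this]
    simp
  have h4 : -(‖z‖ ^ 2 * ‖p‖ ^ 2) ≤ (z ^ 2 * conj p ^ 2).re := by
    have h := Complex.abs_re_le_norm (z ^ 2 * conj p ^ 2)
    rw [norm_mul, norm_pow, norm_pow, RCLike.norm_conj] at h
    exact (abs_le.1 h).1
  have h5 : -(1 / 8 * (z ^ 2 * conj p ^ 2).re / ‖z‖ ^ 3) ≤ 1 / 8 * ‖p‖ ^ 2 / ‖z‖ := by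
    rw [← neg_div, div_le_div_iff₀ (by positivity) hr]
    have h6 : -(1 / 8 * (z ^ 2 * conj p ^ 2).re) ≤ 1 / 8 * (‖z‖ ^ 2 * ‖p‖ ^ 2) := by linarith
    calc -(1 / 8 * (z ^ 2 * conj p ^ 2).re) * ‖z‖ ≤ 1 / 8 * (‖z‖ ^ 2 * ‖p‖ ^ 2) * ‖z‖ :=
          mul_le_mul_of_nonneg_right h6 hr.le
      _ = _ := by ring
  rw [h1, h2, h3]
  unfold TT
  have h7 : 3 / 8 * (‖c‖ ^ 2 + 2 * (conj c * p).re + ‖p‖ ^ 2) / ‖z‖ -
      1 / 8 * ((z ^ 2 * conj c ^ 2).re + 2 * (z ^ 2 * (conj c * conj p)).re +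
        (z ^ 2 * conj p ^ 2).re) / ‖z‖ ^ 3 =
      (3 / 8 * ‖c‖ ^ 2 + 3 / 4 * (conj c * p).re + 3 / 8 * ‖p‖ ^ 2) / ‖z‖ -
      1 / 8 * (z ^ 2 * conj c ^ 2).re / ‖z‖ ^ 3 - 1 / 4 * (z ^ 2 * (conj c * conj p)).re / ‖z‖ ^ 3
      + -(1 / 8 * (z ^ 2 * conj p ^ 2).re / ‖z‖ ^ 3) := by ring
  have h8 : (3 / 8 * ‖c‖ ^ 2 + 3 / 4 * (conj c * p).re + 1 / 2 * ‖p‖ ^ 2) / ‖z‖ =
      (3 / 8 * ‖c‖ ^ 2 + 3 / 4 * (conj c * p).re + 3 / 8 * ‖p‖ ^ 2) / ‖z‖ +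
        1 / 8 * ‖p‖ ^ 2 / ‖z‖ := by ring
  rw [h7, h8]
  linarith

/-- average over the four rotations -/
lemma sum_TT (z c X Y Z W : ℂ) :
    TT z c (X + Y + Z + W) + TT (Complex.I * z) c (Complex.I * X - Complex.I * Y - Z + W) +
      TT (-z) c (-X - Y + Z + W) +
      TT (-(Complex.I * z)) c (-(Complex.I * X) + Complex.I * Y - Z + W) =
    4 * ((3 / 8 * ‖c‖ ^ 2 + 3 / 4 * (conj c * W).re +
      1 / 2 * (‖X‖ ^ 2 + ‖Y‖ ^ 2 + ‖Z‖ ^ 2 + ‖W‖ ^ 2)) / ‖z‖ -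
      1 / 4 * (z ^ 2 * (conj c * conj Z)).re / ‖z‖ ^ 3) := by
  unfold TT
  have n1 : ‖Complex.I * z‖ = ‖z‖ := by simp
  have n2 : ‖-z‖ = ‖z‖ := norm_neg z
  have n3 : ‖-(Complex.I * z)‖ = ‖z‖ := by simp
  have s1 : (Complex.I * z) ^ 2 = -z ^ 2 := by
    rw [mul_pow, Complex.I_sq]
    ring
  have s2 : (-z) ^ 2 = z ^ 2 := by ring
  have s3 : (-(Complex.I * z)) ^ 2 = -z ^ 2 := by
    rw [neg_sq, s1]
  rw [n1, n2, n3, s1, s2, s3]
  have hN : ‖X + Y + Z + W‖ ^ 2 + ‖Complex.I * X - Complex.I * Y - Z + W‖ ^ 2 +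
      ‖-X - Y + Z + W‖ ^ 2 + ‖-(Complex.I * X) + Complex.I * Y - Z + W‖ ^ 2 =
      4 * (‖X‖ ^ 2 + ‖Y‖ ^ 2 + ‖Z‖ ^ 2 + ‖W‖ ^ 2) := by
    simp only [Complex.sq_norm, Complex.normSq_apply]
    simp
    ring
  have hL : (conj c * (X + Y + Z + W)).re + (conj c * (Complex.I * X - Complex.I * Y - Z + W)).re +
      (conj c * (-X - Y + Z + W)).re + (conj c * (-(Complex.I * X) + Complex.I * Y - Z + W)).re =
      4 * (conj c * W).re := by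
    simp
    ring
  have hQ : (z ^ 2 * (conj c * conj (X + Y + Z + W))).re +
      (-z ^ 2 * (conj c * conj (Complex.I * X - Complex.I * Y - Z + W))).re +
      (z ^ 2 * (conj c * conj (-X - Y + Z + W))).re +
      (-z ^ 2 * (conj c * conj (-(Complex.I * X) + Complex.I * Y - Z + W))).re =
      4 * (z ^ 2 * (conj c * conj Z)).re := by
    rw [← Complex.add_re, ← Complex.add_re, ← Complex.add_re]
    have : z ^ 2 * (conj c * conj (X + Y + Z + W)) +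
      (-z ^ 2 * (conj c * conj (Complex.I * X - Complex.I * Y - Z + W))) +
      (z ^ 2 * (conj c * conj (-X - Y + Z + W))) +
      (-z ^ 2 * (conj c * conj (-(Complex.I * X) + Complex.I * Y - Z + W))) =
      4 * (z ^ 2 * (conj c * conj Z)) := by
      simp only [map_add, map_sub, map_neg, map_mul]
      ring
    rw [this]
    simp
  have hc : (-z ^ 2 * conj c ^ 2).re = -(z ^ 2 * conj c ^ 2).re := by
    rw [neg_mul, Complex.neg_re]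
  rw [hc]
  linear_combination (3 / 4 / ‖z‖) * hL + (1 / 2 / ‖z‖) * hN - (1 / 4 / ‖z‖ ^ 3) * hQ

/-- the polynomial without constant term -/
noncomputable def pf (c10 c01 c20 c11 c21 z : ℂ) : ℂ :=
  (c10 * z + c21 * h21 z) + c01 * conj z + c20 * (z ^ 2 / (√2 : ℂ)) + c11 * ((‖z‖ : ℂ) ^ 2 - 1)

/-- the polynomial with Hermite coefficients `c_ab` -/
noncomputable def qf (c00 c10 c01 c20 c11 c21 z : ℂ) : ℂ := c00 + pf c10 c01 c20 c11 c21 z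

lemma continuous_h21 : Continuous h21 := by
  unfold h21
  fun_prop

lemma continuous_pf (c10 c01 c20 c11 c21 : ℂ) : Continuous (pf c10 c01 c20 c11 c21) := by
  have := continuous_h21
  unfold pf
  have h2 : Continuous (fun z : ℂ => conj z) := Complex.continuous_conj
  fun_prop

lemma continuous_qf (c00 c10 c01 c20 c11 c21 : ℂ) : Continuous (qf c00 c10 c01 c20 c11 c21) := by
  have := continuous_pf c10 c01 c20 c11 c21
  unfold qf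
  fun_prop

lemma pf_I (c10 c01 c20 c11 c21 z : ℂ) : pf c10 c01 c20 c11 c21 (Complex.I * z) =
    Complex.I * (c10 * z + c21 * h21 z) - Complex.I * (c01 * conj z) -
      c20 * (z ^ 2 / (√2 : ℂ)) + c11 * ((‖z‖ : ℂ) ^ 2 - 1) := by
  unfold pf h21
  have n1 : ‖Complex.I * z‖ = ‖z‖ := by simp
  rw [n1, map_mul, Complex.conj_I, mul_pow, Complex.I_sq]
  ring

lemma pf_neg (c10 c01 c20 c11 c21 z : ℂ) : pf c10 c01 c20 c11 c21 (-z) =
    -(c10 * z + c21 * h21 z) - (c01 * conj z) +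
      c20 * (z ^ 2 / (√2 : ℂ)) + c11 * ((‖z‖ : ℂ) ^ 2 - 1) := by
  unfold pf h21
  rw [norm_neg, map_neg, neg_sq]
  ring

lemma pf_negI (c10 c01 c20 c11 c21 z : ℂ) : pf c10 c01 c20 c11 c21 (-(Complex.I * z)) =
    -(Complex.I * (c10 * z + c21 * h21 z)) + Complex.I * (c01 * conj z) -
      c20 * (z ^ 2 / (√2 : ℂ)) + c11 * ((‖z‖ : ℂ) ^ 2 - 1) := by
  unfold pf h21
  have n1 : ‖-(Complex.I * z)‖ = ‖z‖ := by simp
  rw [n1, map_neg, map_mul, Complex.conj_I, neg_sq, mul_pow, Complex.I_sq]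
  ring

/-- growth of polynomials -/
lemma integrable_of_growthC {E : Type*} [NormedAddCommGroup E] {f : ℂ → E}
    (hf : AEStronglyMeasurable f gC) {C : ℝ} {k : ℕ}
    (h : ∀ x, ‖f x‖ ≤ C * (1 + ‖x‖) ^ k) : Integrable f gC := by
  have hi : Integrable (fun x : ℂ => C * (1 + ‖x‖) ^ k) gC := by
    refine Integrable.const_mul ?_ C
    simp_rw [add_pow, one_pow, one_mul]
    refine integrable_finsetSum _ fun i _ => ?_
    exact (moment_pow _).1.mul_const _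
  exact hi.mono' hf (Filter.Eventually.of_forall fun x => by simpa using h x)

lemma norm_h21_le (z : ℂ) : ‖h21 z‖ ≤ 2 * (1 + ‖z‖) ^ 3 := by
  unfold h21
  rw [norm_div, norm_mul, Complex.norm_real, Real.norm_eq_abs, abs_of_pos (by positivity)]
  have h1 : ‖(‖z‖ : ℂ) ^ 2 - 2‖ ≤ 2 * (1 + ‖z‖) ^ 2 := by
    refine (norm_sub_le _ _).trans ?_
    rw [norm_pow, Complex.norm_real, norm_norm]
    have : ‖(2 : ℂ)‖ = 2 := by simp
    rw [this]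
    nlinarith [norm_nonneg z]
  have h2 : ‖z‖ ≤ 1 + ‖z‖ := by linarith
  have h3 : (1 : ℝ) ≤ √2 := by
    rw [Real.one_le_sqrt]
    norm_num
  calc ‖z‖ * ‖(‖z‖ : ℂ) ^ 2 - 2‖ / √2 ≤ ‖z‖ * ‖(‖z‖ : ℂ) ^ 2 - 2‖ := div_le_self (by positivity) h3
    _ ≤ (1 + ‖z‖) * (2 * (1 + ‖z‖) ^ 2) := mul_le_mul h2 h1 (norm_nonneg _) (by positivity)
    _ = _ := by ring

lemma exists_growth_pf (c10 c01 c20 c11 c21 : ℂ) :
    ∃ C : ℝ, ∀ z, ‖pf c10 c01 c20 c11 c21 z‖ ≤ C * (1 + ‖z‖) ^ 3 := by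
  refine ⟨‖c10‖ + 2 * ‖c21‖ + ‖c01‖ + ‖c20‖ + ‖c11‖, fun z => ?_⟩
  have hz := norm_nonneg z
  have h1 : ‖z‖ ≤ (1 + ‖z‖) ^ 3 := by nlinarith [sq_nonneg ‖z‖, mul_nonneg hz (sq_nonneg ‖z‖)]
  have h2 : ‖z‖ ^ 2 ≤ (1 + ‖z‖) ^ 3 := by nlinarith [sq_nonneg ‖z‖, mul_nonneg hz (sq_nonneg ‖z‖)]
  have h2' : ‖(z ^ 2 / (√2 : ℂ))‖ ≤ (1 + ‖z‖) ^ 3 := by
    rw [norm_div, norm_pow, Complex.norm_real, Real.norm_eq_abs, abs_of_pos (by positivity)]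
    have h3 : (1 : ℝ) ≤ √2 := by
      rw [Real.one_le_sqrt]
      norm_num
    exact (div_le_self (by positivity) h3).trans h2
  have h4 : ‖((‖z‖ : ℂ) ^ 2 - 1)‖ ≤ (1 + ‖z‖) ^ 3 := by
    refine (norm_sub_le _ _).trans ?_
    rw [norm_pow, Complex.norm_real, norm_norm, norm_one]
    nlinarith [sq_nonneg ‖z‖, mul_nonneg hz (sq_nonneg ‖z‖)]
  unfold pf
  calc ‖(c10 * z + c21 * h21 z) + c01 * conj z + c20 * (z ^ 2 / (√2 : ℂ)) +
        c11 * ((‖z‖ : ℂ) ^ 2 - 1)‖ ≤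
      ‖c10‖ * ‖z‖ + ‖c21‖ * ‖h21 z‖ + ‖c01‖ * ‖z‖ + ‖c20‖ * ‖(z ^ 2 / (√2 : ℂ))‖ +
        ‖c11‖ * ‖((‖z‖ : ℂ) ^ 2 - 1)‖ := by
        refine (norm_add_le _ _).trans (add_le_add ?_ (norm_mul_le _ _))
        refine (norm_add_le _ _).trans (add_le_add ?_ (norm_mul_le _ _))
        refine (norm_add_le _ _).trans (add_le_add ?_ ?_)
        · refine (norm_add_le _ _).trans (add_le_add (norm_mul_le _ _) (norm_mul_le _ _))
        · rw [norm_mul, RCLike.norm_conj]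
    _ ≤ ‖c10‖ * (1 + ‖z‖) ^ 3 + ‖c21‖ * (2 * (1 + ‖z‖) ^ 3) + ‖c01‖ * (1 + ‖z‖) ^ 3 +
        ‖c20‖ * (1 + ‖z‖) ^ 3 + ‖c11‖ * (1 + ‖z‖) ^ 3 := by
        have := norm_h21_le z
        gcongr
    _ = _ := by ring

lemma integrable_qf (c00 c10 c01 c20 c11 c21 : ℂ) :
    Integrable (fun z => qf c00 c10 c01 c20 c11 c21 z) gC := by
  obtain ⟨C, hC⟩ := exists_growth_pf c10 c01 c20 c11 c21
  have h1 : Integrable (fun z => pf c10 c01 c20 c11 c21 z) gC :=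
    integrable_of_growthC (continuous_pf _ _ _ _ _).aestronglyMeasurable hC
  exact (integrable_const _).add h1

lemma continuous_MM : Continuous (fun p : ℂ × ℂ => MM p.1 p.2) := by
  unfold MM
  fun_prop

lemma integrable_F (s : ℝ) (c00 c10 c01 c20 c11 c21 : ℂ) :
    Integrable (fun z : ℂ => MM ((s : ℂ) * z) (qf c00 c10 c01 c20 c11 c21 z) - ‖(s : ℂ) * z‖) gC := by
  refine (integrable_qf c00 c10 c01 c20 c11 c21).mono ?_ (Filter.Eventually.of_forall fun z => ?_)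
  · have h1 : Continuous (fun z : ℂ => MM ((s : ℂ) * z) (qf c00 c10 c01 c20 c11 c21 z)) :=
      continuous_MM.comp ((continuous_const.mul continuous_id).prodMk (continuous_qf _ _ _ _ _ _))
    have h2 : Continuous (fun z : ℂ => ‖(s : ℂ) * z‖) := by fun_prop
    exact (h1.sub h2).aestronglyMeasurable
  · have h1 := MM_ge ((s : ℂ) * z) (qf c00 c10 c01 c20 c11 c21 z)
    have h2 := MM_le ((s : ℂ) * z) (qf c00 c10 c01 c20 c11 c21 z)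
    rw [Real.norm_eq_abs, abs_of_nonneg (by linarith)]
    linarith

lemma gC_zero : gC {0} = 0 := by
  unfold gC
  rw [Measure.map_apply continuous_tc.measurable (measurableSet_singleton 0)]
  have h : tc ⁻¹' {0} ⊆ {0} ×ˢ univ := by
    intro p hp
    simp only [mem_preimage, mem_singleton_iff] at hp
    have h1 := norm_tc p
    rw [hp, norm_zero] at h1
    have h2 : √(p.1 ^ 2 + p.2 ^ 2) = 0 := by
      have : (0 : ℝ) < √2 := by positivity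
      field_simp at h1
      linarith
    rw [Real.sqrt_eq_zero (by positivity)] at h2
    have h3 : p.1 = 0 := by nlinarith [sq_nonneg p.1, sq_nonneg p.2]
    simp [h3]
  refine measure_mono_null h ?_
  rw [Measure.prod_prod]
  have : Pool.Agent.KG.g1 {(0 : ℝ)} = 0 := by
    have := nullSingletonClass_gaussianReal (μ := 0) (v := 1) one_ne_zero
    exact measure_singleton 0
  rw [this, zero_mul]

/-- pointwise bound of the integrand -/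
lemma F_le {s : ℝ} (hs : 0 < s) (c00 c10 c01 c20 c11 c21 z : ℂ) (hz : z ≠ 0) :
    MM ((s : ℂ) * z) (qf c00 c10 c01 c20 c11 c21 z) - ‖(s : ℂ) * z‖ ≤
      s⁻¹ * TT z c00 (pf c10 c01 c20 c11 c21 z) := by
  have hsz : (s : ℂ) * z ≠ 0 := mul_ne_zero (by exact_mod_cast hs.ne') hz
  have hr : 0 < ‖z‖ := norm_pos_iff.2 hz
  have h1 := MM_maj ((s : ℂ) * z) (qf c00 c10 c01 c20 c11 c21 z) hsz
  have h2 := maj_le_TT z c00 (pf c10 c01 c20 c11 c21 z) hz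
  have h3 : ‖(s : ℂ) * z‖ = s * ‖z‖ := by
    rw [norm_mul, Complex.norm_real, Real.norm_eq_abs, abs_of_pos hs]
  have h4 : ((s : ℂ) * z * conj (qf c00 c10 c01 c20 c11 c21 z)).re =
      s * (z * conj (qf c00 c10 c01 c20 c11 c21 z)).re := by
    rw [mul_assoc, Complex.re_ofReal_mul]
  rw [h4, h3] at h1
  rw [h3]
  have h5 : ‖qf c00 c10 c01 c20 c11 c21 z‖ ^ 2 / (2 * (s * ‖z‖)) -
      (s * (z * conj (qf c00 c10 c01 c20 c11 c21 z)).re) ^ 2 / (4 * (s * ‖z‖) ^ 3) =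
      s⁻¹ * (‖qf c00 c10 c01 c20 c11 c21 z‖ ^ 2 / (2 * ‖z‖) -
        (z * conj (qf c00 c10 c01 c20 c11 c21 z)).re ^ 2 / (4 * ‖z‖ ^ 3)) := by
    field_simp
  have h6 := mul_le_mul_of_nonneg_left h2 (inv_nonneg.2 hs.le)
  have h7 : qf c00 c10 c01 c20 c11 c21 z = c00 + pf c10 c01 c20 c11 c21 z := rfl
  rw [← h7, ← h5] at h6
  linarith

/-- the radial majorant -/
noncomputable def Rad (c00 c10 c01 c20 c11 c21 : ℂ) (r : ℝ) : ℝ :=
  (3 / 8 * ‖c00‖ ^ 2 - 3 / 4 * (conj c00 * c11).re + 1 / 2 * ‖c11‖ ^ 2) * r⁻¹ +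
  (3 / 4 * (conj c00 * c11).re + 1 / 2 * (‖c10‖ ^ 2 - 4 / √2 * (c10 * conj c21).re +
    2 * ‖c21‖ ^ 2 + ‖c01‖ ^ 2 - 2 * ‖c11‖ ^ 2) - 1 / 4 * (c00 * c20).re / √2) * r +
  (1 / 2 * (2 / √2 * (c10 * conj c21).re - 2 * ‖c21‖ ^ 2 + 1 / 2 * ‖c20‖ ^ 2 + ‖c11‖ ^ 2)) * r ^ 3 +
  (1 / 4 * ‖c21‖ ^ 2) * r ^ 5

lemma sum_TT_eq (c00 c10 c01 c20 c11 c21 z : ℂ) (hz : z ≠ 0) :
    TT z c00 (pf c10 c01 c20 c11 c21 z) +
      TT (Complex.I * z) c00 (pf c10 c01 c20 c11 c21 (Complex.I * z)) +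
      TT (-z) c00 (pf c10 c01 c20 c11 c21 (-z)) +
      TT (-(Complex.I * z)) c00 (pf c10 c01 c20 c11 c21 (-(Complex.I * z))) =
    4 * Rad c00 c10 c01 c20 c11 c21 ‖z‖ := by
  have hr : 0 < ‖z‖ := norm_pos_iff.2 hz
  have h2 : (0 : ℝ) < √2 := by positivity
  have h22 : √2 ^ 2 = 2 := Real.sq_sqrt (by norm_num)
  have key := sum_TT z c00 (c10 * z + c21 * h21 z) (c01 * conj z) (c20 * (z ^ 2 / (√2 : ℂ)))
    (c11 * ((‖z‖ : ℂ) ^ 2 - 1))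
  rw [pf_I, pf_neg, pf_negI]
  have h0 : pf c10 c01 c20 c11 c21 z = (c10 * z + c21 * h21 z) + c01 * conj z +
      c20 * (z ^ 2 / (√2 : ℂ)) + c11 * ((‖z‖ : ℂ) ^ 2 - 1) := rfl
  rw [h0, key]
  set r := ‖z‖ with hrdef
  have eX : ‖c10 * z + c21 * h21 z‖ ^ 2 = r ^ 2 * (‖c10‖ ^ 2 +
      2 * (r ^ 2 - 2) / √2 * (c10 * conj c21).re + (r ^ 2 - 2) ^ 2 / 2 * ‖c21‖ ^ 2) := by
    have e1 : c10 * z + c21 * h21 z = z * (c10 + c21 * (((r ^ 2 - 2) / √2 : ℝ) : ℂ)) := by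
      unfold h21
      push_cast
      ring
    rw [e1, norm_mul, mul_pow, ← hrdef]
    congr 1
    have e2 : ‖c10 + c21 * (((r ^ 2 - 2) / √2 : ℝ) : ℂ)‖ ^ 2 = ‖c10‖ ^ 2 +
        2 * ((r ^ 2 - 2) / √2) * (c10 * conj c21).re + ((r ^ 2 - 2) / √2) ^ 2 * ‖c21‖ ^ 2 := by
      generalize (r ^ 2 - 2) / √2 = a
      simp only [Complex.sq_norm, Complex.normSq_apply]
      simp
      ring
    rw [e2, div_pow, h22]
    ring
  have eY : ‖c01 * conj z‖ ^ 2 = r ^ 2 * ‖c01‖ ^ 2 := by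
    rw [norm_mul, RCLike.norm_conj]
    ring
  have eZ : ‖c20 * (z ^ 2 / (√2 : ℂ))‖ ^ 2 = r ^ 4 / 2 * ‖c20‖ ^ 2 := by
    rw [norm_mul, norm_div, norm_pow, Complex.norm_real, Real.norm_eq_abs,
      abs_of_pos (by positivity), mul_pow, div_pow, h22]
    ring
  have eW : ‖c11 * ((r : ℂ) ^ 2 - 1)‖ ^ 2 = (r ^ 2 - 1) ^ 2 * ‖c11‖ ^ 2 := by
    have : ((r : ℂ) ^ 2 - 1) = ((r ^ 2 - 1 : ℝ) : ℂ) := by push_cast; ring
    rw [this, norm_mul, Complex.norm_real, Real.norm_eq_abs, mul_pow, sq_abs]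
    ring
  have eL : (conj c00 * (c11 * ((r : ℂ) ^ 2 - 1))).re = (r ^ 2 - 1) * (conj c00 * c11).re := by
    have : conj c00 * (c11 * ((r : ℂ) ^ 2 - 1)) = ((r ^ 2 - 1 : ℝ) : ℂ) * (conj c00 * c11) := by
      push_cast
      ring
    rw [this, Complex.re_ofReal_mul]
  have eQ : (z ^ 2 * (conj c00 * conj (c20 * (z ^ 2 / (√2 : ℂ))))).re =
      r ^ 4 / √2 * (c00 * c20).re := by
    have hz2 : z * conj z = ((r ^ 2 : ℝ) : ℂ) := by
      rw [Complex.mul_conj']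
      push_cast
      rfl
    have : z ^ 2 * (conj c00 * conj (c20 * (z ^ 2 / (√2 : ℂ)))) =
        ((r ^ 4 / √2 : ℝ) : ℂ) * conj (c00 * c20) := by
      rw [map_mul, map_div₀, map_pow, Complex.conj_ofReal, map_mul]
      have e3 : z ^ 2 * conj z ^ 2 = ((r ^ 4 : ℝ) : ℂ) := by
        rw [← mul_pow, hz2]
        push_cast
        ring
      have e4 : ((r ^ 4 / √2 : ℝ) : ℂ) = (z ^ 2 * conj z ^ 2) / (√2 : ℂ) := by
        rw [e3]
        push_cast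
        rfl
      rw [e4]
      ring
    rw [this, Complex.re_ofReal_mul, Complex.conj_re]
  rw [eX, eY, eZ, eW, eL, eQ]
  unfold Rad
  field_simp
  ring

lemma integral_Rad (c00 c10 c01 c20 c11 c21 : ℂ) :
    Integrable (fun z : ℂ => Rad c00 c10 c01 c20 c11 c21 ‖z‖) gC ∧
    ∫ z, Rad c00 c10 c01 c20 c11 c21 ‖z‖ ∂gC = c0 * (3 / 4 * ‖c00‖ ^ 2 + 1 / 2 * ‖c10‖ ^ 2 +
      1 / 2 * ‖c01‖ ^ 2 + 3 / 8 * ‖c20‖ ^ 2 + 3 / 4 * ‖c11‖ ^ 2 + 7 / 16 * ‖c21‖ ^ 2 -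
      3 / 4 * (conj c00 * c11).re - 1 / (4 * √2) * (c00 * c20).re -
      1 / (2 * √2) * (c10 * conj c21).re) := by
  unfold Rad
  have i1 := moment_inv.1
  have i2 : Integrable (fun z : ℂ => ‖z‖) gC := by simpa using (moment_pow 1).1
  have i3 := (moment_pow 3).1
  have i5 := (moment_pow 5).1
  refine ⟨(((i1.const_mul _).add (i2.const_mul _)).add (i3.const_mul _)).add (i5.const_mul _), ?_⟩
  rw [integral_add (by exact ((i1.const_mul _).add (i2.const_mul _)).add (i3.const_mul _))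
    (i5.const_mul _), integral_add (by exact (i1.const_mul _).add (i2.const_mul _))
    (i3.const_mul _), integral_add (i1.const_mul _) (i2.const_mul _), integral_const_mul,
    integral_const_mul, integral_const_mul, integral_const_mul, m_inv, m_one, m_three, m_five]
  have h2 : (0 : ℝ) < √2 := by positivity
  field_simp
  ring

/-- **the slice inequality** -/
theorem slice (c00 c10 c01 c20 c11 c21 : ℂ) :
    ∫ z : ℂ, (MM (((3 / 2 * c0 : ℝ) : ℂ) * z) (qf c00 c10 c01 c20 c11 c21 z) -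
      ‖((3 / 2 * c0 : ℝ) : ℂ) * z‖) ∂gC ≤
    1 / 2 * (‖c00‖ ^ 2 + ‖c10‖ ^ 2 + ‖c01‖ ^ 2 + ‖c20‖ ^ 2 + ‖c11‖ ^ 2 + ‖c21‖ ^ 2) +
      (-(1 / 2) * (conj c00 * c11).re + (-(1 / (6 * √2))) * (c00 * c20).re +
      (-(1 / (3 * √2))) * (c10 * conj c21).re) := by
  have hc := c0_pos
  have hs : 0 < 3 / 2 * c0 := by positivity
  set s : ℝ := 3 / 2 * c0 with hsdef
  set F : ℂ → ℝ := fun z => MM ((s : ℂ) * z) (qf c00 c10 c01 c20 c11 c21 z) - ‖(s : ℂ) * z‖ with hF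
  have hFi : Integrable F gC := integrable_F s c00 c10 c01 c20 c11 c21
  have hmp := measurePreserving_rot
  have hFi1 : Integrable (fun z => F (Complex.I * z)) gC :=
    (hmp.integrable_comp hFi.aestronglyMeasurable).2 hFi
  have hFi2 : Integrable (fun z => F (Complex.I * (Complex.I * z))) gC :=
    (hmp.integrable_comp hFi1.aestronglyMeasurable).2 hFi1
  have hFi3 : Integrable (fun z => F (Complex.I * (Complex.I * (Complex.I * z)))) gC :=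
    (hmp.integrable_comp hFi2.aestronglyMeasurable).2 hFi2
  have e1 : ∫ z, F (Complex.I * z) ∂gC = ∫ z, F z ∂gC := integral_rot F
  have e2 : ∫ z, F (Complex.I * (Complex.I * z)) ∂gC = ∫ z, F z ∂gC := by
    rw [integral_rot (fun z => F (Complex.I * z)), e1]
  have e3 : ∫ z, F (Complex.I * (Complex.I * (Complex.I * z))) ∂gC = ∫ z, F z ∂gC := by
    rw [integral_rot (fun z => F (Complex.I * (Complex.I * z))), e2]
  have r2 : ∀ z : ℂ, Complex.I * (Complex.I * z) = -z := fun z => by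
    rw [← mul_assoc, Complex.I_mul_I]
    ring
  have r3 : ∀ z : ℂ, Complex.I * (Complex.I * (Complex.I * z)) = -(Complex.I * z) := fun z => r2 _
  simp_rw [r3] at hFi3 e3
  simp_rw [r2] at hFi2 e2
  have hne : ∀ᵐ z : ℂ ∂gC, z ≠ 0 := by
    rw [ae_iff]
    simpa using gC_zero
  obtain ⟨hRi, hR⟩ := integral_Rad c00 c10 c01 c20 c11 c21
  have hsum : ∫ z, (F z + F (Complex.I * z) + F (-z) + F (-(Complex.I * z))) ∂gC ≤
      ∫ z, 4 * s⁻¹ * Rad c00 c10 c01 c20 c11 c21 ‖z‖ ∂gC := by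
    refine integral_mono_ae (((hFi.add hFi1).add hFi2).add hFi3) (hRi.const_mul _) ?_
    filter_upwards [hne] with z hz
    have hz1 : Complex.I * z ≠ 0 := mul_ne_zero Complex.I_ne_zero hz
    have hz2 : -z ≠ 0 := neg_ne_zero.2 hz
    have hz3 : -(Complex.I * z) ≠ 0 := neg_ne_zero.2 hz1
    have b0 := F_le hs c00 c10 c01 c20 c11 c21 z hz
    have b1 := F_le hs c00 c10 c01 c20 c11 c21 _ hz1
    have b2 := F_le hs c00 c10 c01 c20 c11 c21 _ hz2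
    have b3 := F_le hs c00 c10 c01 c20 c11 c21 _ hz3
    have b4 := sum_TT_eq c00 c10 c01 c20 c11 c21 z hz
    have b5 : s⁻¹ * (TT z c00 (pf c10 c01 c20 c11 c21 z) +
      TT (Complex.I * z) c00 (pf c10 c01 c20 c11 c21 (Complex.I * z)) +
      TT (-z) c00 (pf c10 c01 c20 c11 c21 (-z)) +
      TT (-(Complex.I * z)) c00 (pf c10 c01 c20 c11 c21 (-(Complex.I * z)))) =
      4 * s⁻¹ * Rad c00 c10 c01 c20 c11 c21 ‖z‖ := by
      rw [b4]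
      ring
    change F z + F (Complex.I * z) + F (-z) + F (-(Complex.I * z)) ≤ _
    rw [← b5]
    simp only [hF]
    linarith
  have hsplit : ∫ z, (F z + F (Complex.I * z) + F (-z) + F (-(Complex.I * z))) ∂gC =
      4 * ∫ z, F z ∂gC := by
    rw [integral_add (by exact (hFi.add hFi1).add hFi2) hFi3, integral_add (by exact hFi.add hFi1)
      hFi2, integral_add hFi hFi1, e1, e2, e3]
    ring
  rw [hsplit, integral_const_mul, hR] at hsum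
  have h2 : (0 : ℝ) < √2 := by positivity
  have hs' : s⁻¹ * c0 = 2 / 3 := by
    rw [hsdef]
    field_simp
  have hfin : 4 * s⁻¹ * (c0 * (3 / 4 * ‖c00‖ ^ 2 + 1 / 2 * ‖c10‖ ^ 2 +
      1 / 2 * ‖c01‖ ^ 2 + 3 / 8 * ‖c20‖ ^ 2 + 3 / 4 * ‖c11‖ ^ 2 + 7 / 16 * ‖c21‖ ^ 2 -
      3 / 4 * (conj c00 * c11).re - 1 / (4 * √2) * (c00 * c20).re -
      1 / (2 * √2) * (c10 * conj c21).re)) = 8 / 3 * (3 / 4 * ‖c00‖ ^ 2 + 1 / 2 * ‖c10‖ ^ 2 +
      1 / 2 * ‖c01‖ ^ 2 + 3 / 8 * ‖c20‖ ^ 2 + 3 / 4 * ‖c11‖ ^ 2 + 7 / 16 * ‖c21‖ ^ 2 -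
      3 / 4 * (conj c00 * c11).re - 1 / (4 * √2) * (c00 * c20).re -
      1 / (2 * √2) * (c10 * conj c21).re) := by
    linear_combination 4 * (3 / 4 * ‖c00‖ ^ 2 + 1 / 2 * ‖c10‖ ^ 2 +
      1 / 2 * ‖c01‖ ^ 2 + 3 / 8 * ‖c20‖ ^ 2 + 3 / 4 * ‖c11‖ ^ 2 + 7 / 16 * ‖c21‖ ^ 2 -
      3 / 4 * (conj c00 * c11).re - 1 / (4 * √2) * (c00 * c20).re -
      1 / (2 * √2) * (c10 * conj c21).re) * hs'
  rw [hfin] at hsum
  have t1 : 1 / (6 * √2) = 2 / 3 * (1 / (4 * √2)) := by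
    field_simp
    norm_num
  have t2 : 1 / (3 * √2) = 2 / 3 * (1 / (2 * √2)) := by
    field_simp
  rw [t1, t2]
  nlinarith [sq_nonneg ‖c10‖, sq_nonneg ‖c01‖, sq_nonneg ‖c20‖, sq_nonneg ‖c21‖]

end Pool.Agent.KGC
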