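import Pool.Agent.KGC.Plane

/-! The quadratic majorant of `(|w+q| + |w-q|)/2` and the slice inequality. -/

open MeasureTheory ProbabilityTheory Real Set
open scoped ComplexConjugate

namespace Pool.Agent.KGC

/-- `(|w+q| + |w-q|)/2` -/
noncomputable def MM (w q : ℂ) : ℝ := (‖w + q‖ + ‖w - q‖) / 2

lemma MM_ge (w q : ℂ) : ‖w‖ ≤ MM w q := by
  unfold MM
  have h : ‖(w + q) + (w - q)‖ ≤ ‖w + q‖ + ‖w - q‖ := norm_add_le _ _
  have h2 : (w + q) + (w - q) = 2 * w := by ring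
  rw [h2, norm_mul] at h
  simp at h
  linarith

lemma MM_le (w q : ℂ) : MM w q ≤ ‖w‖ + ‖q‖ := by
  unfold MM
  have h1 := norm_add_le w q
  have h2 := norm_sub_le w q
  linarith

/-- comparison in the first argument -/
lemma MM_sub_le (w w1 q : ℂ) (h : ‖w + w1‖ = ‖w‖ + ‖w1‖) :
    MM (w + w1) q - ‖w + w1‖ ≤ MM w q - ‖w‖ := by
  unfold MM
  have h1 : ‖w + w1 + q‖ ≤ ‖w + q‖ + ‖w1‖ := by
    have : w + w1 + q = (w + q) + w1 := by ring
    rw [this]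
    exact norm_add_le _ _
  have h2 : ‖w + w1 - q‖ ≤ ‖w - q‖ + ‖w1‖ := by
    have : w + w1 - q = (w - q) + w1 := by ring
    rw [this]
    exact norm_add_le _ _
  rw [h]
  linarith

/-- the algebraic core of the majorant -/
lemma maj_core {om x D : ℝ} (hom : 0 < om) (hD : D ^ 2 ≤ om ^ 2 * x) :
    ∀ t, t = om + x / (2 * om) - D ^ 2 / (4 * om ^ 3) →
      0 < t ∧ om ^ 2 + x ≤ 2 * t ^ 2 ∧ 0 ≤ t ^ 4 - t ^ 2 * (om ^ 2 + x) + D ^ 2 := by
  intro t ht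
  set A : ℝ := D ^ 2 / om ^ 2 with hA
  have hA0 : 0 ≤ A := by positivity
  have hDA : D ^ 2 = om ^ 2 * A := by
    rw [hA]
    field_simp
  have hAx : A ≤ x := by
    rw [hA, div_le_iff₀ (by positivity)]
    linarith
  set m : ℝ := x / (2 * om) - A / (4 * om) with hm
  have htm : t = om + m := by
    rw [ht, hm, hDA]
    field_simp
    ring
  have hx : x = 2 * om * m + A / 2 := by
    rw [hm]
    field_simp
    ring
  have hm0 : 0 ≤ m := by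
    have h1 : 0 ≤ 2 * om * m := by linarith
    exact nonneg_of_mul_nonneg_right h1 (by positivity)
  have hA4 : A ≤ 4 * om * m := by linarith
  refine ⟨by rw [htm]; linarith, ?_, ?_⟩
  · rw [htm, hx]
    nlinarith
  · rw [htm, hx, hDA]
    have h1 : (om + m) ^ 4 - (om + m) ^ 2 * (om ^ 2 + (2 * om * m + A / 2)) + om ^ 2 * A =
        (om + m) ^ 2 * m ^ 2 - A * ((om + m) ^ 2 / 2 - om ^ 2) := by ring
    rw [h1]
    by_cases hc : (om + m) ^ 2 / 2 - om ^ 2 ≤ 0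
    · have h2 : 0 ≤ (om + m) ^ 2 * m ^ 2 := by positivity
      nlinarith
    · have hc' : 0 ≤ (om + m) ^ 2 / 2 - om ^ 2 := by linarith
      have h2 : A * ((om + m) ^ 2 / 2 - om ^ 2) ≤ 4 * om * m * ((om + m) ^ 2 / 2 - om ^ 2) :=
        mul_le_mul_of_nonneg_right hA4 hc'
      have h3 : (om + m) ^ 2 * m ^ 2 - 4 * om * m * ((om + m) ^ 2 / 2 - om ^ 2) =
          m * ((m - om) ^ 2 * (m + 2 * om)) := by ring
      have h4 : 0 ≤ m * ((m - om) ^ 2 * (m + 2 * om)) := by positivity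
      linarith

/-- **Lemma Q**: the quadratic majorant -/
lemma MM_maj (w q : ℂ) (hw : w ≠ 0) :
    MM w q ≤ ‖w‖ + ‖q‖ ^ 2 / (2 * ‖w‖) - (w * conj q).re ^ 2 / (4 * ‖w‖ ^ 3) := by
  have hom : 0 < ‖w‖ := norm_pos_iff.2 hw
  have hD : (w * conj q).re ^ 2 ≤ ‖w‖ ^ 2 * ‖q‖ ^ 2 := by
    have h := Complex.abs_re_le_norm (w * conj q)
    rw [norm_mul, RCLike.norm_conj] at h
    rw [← mul_pow, ← sq_abs]
    exact pow_le_pow_left₀ (abs_nonneg _) h 2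
  obtain ⟨h1, h2, h3⟩ := maj_core hom hD _ rfl
  set t := ‖w‖ + ‖q‖ ^ 2 / (2 * ‖w‖) - (w * conj q).re ^ 2 / (4 * ‖w‖ ^ 3)
  set D := (w * conj q).re
  have e1 : ‖w + q‖ ^ 2 = ‖w‖ ^ 2 + ‖q‖ ^ 2 + 2 * D := by
    rw [Complex.sq_norm, Complex.sq_norm, Complex.sq_norm, Complex.normSq_add]
  have e2 : ‖w - q‖ ^ 2 = ‖w‖ ^ 2 + ‖q‖ ^ 2 - 2 * D := by
    rw [Complex.sq_norm, Complex.sq_norm, Complex.sq_norm, Complex.normSq_sub]
  have hP := norm_nonneg (w + q)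
  have hN := norm_nonneg (w - q)
  have h4 : ‖w + q‖ * ‖w - q‖ ≤ 2 * t ^ 2 - (‖w‖ ^ 2 + ‖q‖ ^ 2) := by
    refine le_of_sq_le_sq ?_ (by linarith)
    rw [mul_pow, e1, e2]
    nlinarith
  unfold MM
  have h5 : (‖w + q‖ + ‖w - q‖) ^ 2 ≤ (2 * t) ^ 2 := by nlinarith
  have h6 := le_of_sq_le_sq h5 (by linarith : (0 : ℝ) ≤ 2 * t)
  linarith

end Pool.Agent.KGC
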