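import Pool.Agent.KGC.Chaos

/-! Reduction of the bound for the form `B ε` to one-parameter inequalities. -/

open MeasureTheory ProbabilityTheory Real Set
open scoped ComplexConjugate

namespace Pool.Agent.KGC

variable {n : ℕ}

lemma inner_P21_self (f : L2C n) : (inner ℂ f (P21 n f) : ℂ) = ((‖P21 n f‖ ^ 2 : ℝ) : ℂ) := by
  have h := inner_P21_of_mem (P21_mem f) f
  rw [inner_self_eq_norm_sq_to_K] at h
  have h2 := congrArg conj h
  rw [inner_conj_symm] at h2
  rw [← h2]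
  push_cast
  simp

lemma sq_inner_herm_le (f : L2C n) (e : Cn n) (he : ‖e‖ = 1) :
    (inner ℂ f (herm e) : ℂ).re ^ 2 ≤ ‖P21 n f‖ ^ 2 := by
  have h1 : (inner ℂ (herm e) (P21 n f) : ℂ) = inner ℂ (herm e) f :=
    inner_P21_of_mem (herm_mem e he) f
  have h2 : |(inner ℂ f (herm e) : ℂ).re| ≤ ‖P21 n f‖ := by
    calc |(inner ℂ f (herm e) : ℂ).re| ≤ ‖(inner ℂ f (herm e) : ℂ)‖ := Complex.abs_re_le_norm _
      _ = ‖(inner ℂ (herm e) f : ℂ)‖ := norm_inner_symm _ _
      _ = ‖(inner ℂ (herm e) (P21 n f) : ℂ)‖ := by rw [h1]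
      _ ≤ ‖herm e‖ * ‖P21 n f‖ := norm_inner_le_norm _ _
      _ = _ := by rw [norm_herm e he, one_mul]
  rw [← sq_abs]
  exact pow_le_pow_left₀ (abs_nonneg _) h2 2

lemma re_inner_sub_add {E : Type*} [NormedAddCommGroup E] [InnerProductSpace ℂ E] (a b : E) :
    (inner ℂ (a - b) (a + b) : ℂ).re = ‖a‖ ^ 2 - ‖b‖ ^ 2 := by
  have h : (inner ℂ b a : ℂ).re = (inner ℂ a b : ℂ).re := by
    rw [← inner_conj_symm, Complex.conj_re]
  have ha : ∀ c : E, (inner ℂ c c : ℂ).re = ‖c‖ ^ 2 := by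
    intro c
    have := inner_self_eq_norm_sq (𝕜 := ℂ) c
    exact this
  rw [inner_sub_left, inner_add_right, inner_add_right]
  simp only [Complex.sub_re, Complex.add_re]
  rw [h, ha, ha]
  ring

lemma re_inner_add_sub {E : Type*} [NormedAddCommGroup E] [InnerProductSpace ℂ E] (a b : E) :
    (inner ℂ (a + b) (a - b) : ℂ).re = ‖a‖ ^ 2 - ‖b‖ ^ 2 := by
  rw [← inner_conj_symm, Complex.conj_re, re_inner_sub_add]

/-- polarisation -/
theorem B_le_uv (ε : ℝ) (f g : L2C n) (hf : ∀ᵐ x ∂(gm n), ‖f x‖ ≤ 1)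
    (hg : ∀ᵐ x ∂(gm n), ‖g x‖ ≤ 1) :
    ∃ u v : L2C n, (∀ᵐ x ∂(gm n), ‖u x + v x‖ ≤ 1 ∧ ‖u x - v x‖ ≤ 1) ∧
      (B ε f g).re = ‖bar u‖ ^ 2 - ‖bar v‖ ^ 2 - ε * ‖P21 n u‖ ^ 2 + ε * ‖P21 n v‖ ^ 2 := by
  refine ⟨(1 / 2 : ℂ) • (f + g), (1 / 2 : ℂ) • (f - g), ?_, ?_⟩
  · filter_upwards [hf, hg, Lp.coeFn_add f g, Lp.coeFn_sub f g,
      Lp.coeFn_smul (1 / 2 : ℂ) (f + g), Lp.coeFn_smul (1 / 2 : ℂ) (f - g)] with x h1 h2 h3 h4 h5 h6
    rw [h5, h6, Pi.smul_apply, Pi.smul_apply, h3, h4, Pi.add_apply, Pi.sub_apply, smul_eq_mul,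
      smul_eq_mul]
    have e1 : (1 / 2 : ℂ) * (f x + g x) + 1 / 2 * (f x - g x) = f x := by ring
    have e2 : (1 / 2 : ℂ) * (f x + g x) - 1 / 2 * (f x - g x) = g x := by ring
    rw [e1, e2]
    exact ⟨h1, h2⟩
  · have e1 : bar f = bar ((1 / 2 : ℂ) • (f + g)) + bar ((1 / 2 : ℂ) • (f - g)) := by
      rw [← bar_add]
      congr 1
      module
    have e2 : bar g = bar ((1 / 2 : ℂ) • (f + g)) - bar ((1 / 2 : ℂ) • (f - g)) := by
      rw [← bar_sub]
      congr 1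
      module
    have e3 : P21 n f = P21 n ((1 / 2 : ℂ) • (f + g)) + P21 n ((1 / 2 : ℂ) • (f - g)) := by
      rw [← map_add]
      congr 1
      module
    have e4 : P21 n g = P21 n ((1 / 2 : ℂ) • (f + g)) - P21 n ((1 / 2 : ℂ) • (f - g)) := by
      rw [← map_sub]
      congr 1
      module
    unfold B
    rw [e1, e2, e3, e4]
    generalize bar ((1 / 2 : ℂ) • (f + g)) = a
    generalize bar ((1 / 2 : ℂ) • (f - g)) = b
    generalize P21 n ((1 / 2 : ℂ) • (f + g)) = c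
    generalize P21 n ((1 / 2 : ℂ) • (f - g)) = d
    rw [Complex.sub_re, Complex.re_ofReal_mul, re_inner_sub_add, re_inner_add_sub]
    ring

/-- direction of the barycentre -/
lemma exists_dir (hn : 0 < n) (u : L2C n) :
    ∃ e : Cn n, ‖e‖ = 1 ∧ (inner ℂ u (lin e) : ℂ) = (‖bar u‖ : ℂ) := by
  have key : ∃ e : Cn n, ‖e‖ = 1 ∧ (inner ℂ e (bar u) : ℂ) = (‖bar u‖ : ℂ) := by
    by_cases h : bar u = 0
    · refine ⟨EuclideanSpace.single ⟨0, hn⟩ 1, by simp, ?_⟩
      rw [h]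
      simp
    · have h0 := norm_ne_zero_iff.2 h
      refine ⟨((‖bar u‖ : ℂ)⁻¹) • bar u, ?_, ?_⟩
      · rw [norm_smul, norm_inv, Complex.norm_real, norm_norm]
        exact inv_mul_cancel₀ h0
      · have h1 : (‖bar u‖ : ℂ) ≠ 0 := by exact_mod_cast h0
        rw [inner_smul_left, inner_self_eq_norm_sq_to_K, map_inv₀, Complex.conj_ofReal]
        simp only [Complex.coe_algebraMap]
        field_simp
  obtain ⟨e, he, h⟩ := key
  exact ⟨e, he, (inner_bar e u).symm.trans h⟩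

lemma measurePreserving_inner {e : Cn n} (he : ‖e‖ = 1) :
    MeasurePreserving (fun x : Om n => (inner ℂ e (cvec n x) : ℂ)) (gm n) gC := by
  have hm : Measurable (fun x : Om n => (inner ℂ e (cvec n x) : ℂ)) :=
    (PGC.cinner e).continuous.measurable
  refine ⟨hm, ?_⟩
  have hmp := measurePreserving_slp e he
  rw [← hmp.map_eq, Measure.map_map hm hmp.measurable]
  have h : (fun x : Om n => (inner ℂ e (cvec n x) : ℂ)) ∘ slp e = Prod.fst := by
    funext p
    exact inner_cvec_slp he p.1 p.2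
  rw [h]
  exact measurePreserving_fst.map_eq

lemma integrable_comp_inner {e : Cn n} (he : ‖e‖ = 1) {φ : ℂ → ℝ} (hφ : Integrable φ gC) :
    Integrable (fun x : Om n => φ (inner ℂ e (cvec n x))) (gm n) :=
  ((measurePreserving_inner he).integrable_comp hφ.aestronglyMeasurable).2 hφ

lemma integral_comp_inner {e : Cn n} (he : ‖e‖ = 1) {φ : ℂ → ℝ} (hφ : Integrable φ gC) :
    ∫ x : Om n, φ (inner ℂ e (cvec n x)) ∂(gm n) = ∫ z, φ z ∂gC := by
  have hmp := measurePreserving_inner he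
  conv_rhs => rw [← hmp.map_eq]
  rw [integral_map hmp.measurable.aemeasurable]
  rw [hmp.map_eq]
  exact hφ.aestronglyMeasurable

lemma pointwise_MM (u v w q : ℂ) (h1 : ‖u + v‖ ≤ 1) (h2 : ‖u - v‖ ≤ 1) :
    (conj u * w).re + (conj v * q).re ≤ MM w q := by
  have h3 : (conj u * w).re + (conj v * q).re =
      ((conj (u + v) * (w + q)).re + (conj (u - v) * (w - q)).re) / 2 := by
    simp only [map_add, map_sub, Complex.mul_re, Complex.add_re, Complex.sub_re, Complex.add_im,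
      Complex.sub_im, Complex.conj_re, Complex.conj_im]
    ring
  have h4 : ∀ a b : ℂ, ‖a‖ ≤ 1 → (conj a * b).re ≤ ‖b‖ := by
    intro a b ha
    refine (Complex.re_le_norm _).trans ?_
    rw [norm_mul, RCLike.norm_conj]
    exact mul_le_of_le_one_left (norm_nonneg _) ha
  rw [h3]
  unfold MM
  have := h4 (u + v) (w + q) h1
  have := h4 (u - v) (w - q) h2
  linarith

/-- the test function -/
noncomputable def wt (ε lam b0 : ℝ) (z : ℂ) : ℂ :=
  (lam : ℂ) * z - ((2 * ε * b0 : ℝ) : ℂ) * h21 z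

lemma continuous_wt (ε lam b0 : ℝ) : Continuous (wt ε lam b0) := by
  have := continuous_h21
  unfold wt
  fun_prop

lemma integrable_L2C (f : L2C n) : Integrable (fun x => f x) (gm n) :=
  (Lp.memLp f).integrable one_le_two

/-- **main reduction** -/
theorem reduce (hn : 0 < n) (ε : ℝ) (hε : 0 < ε) (f g : L2C n) (hf : ∀ᵐ x ∂(gm n), ‖f x‖ ≤ 1)
    (hg : ∀ᵐ x ∂(gm n), ‖g x‖ ≤ 1) :
    ∃ (α : ℝ) (e : Cn n) (Q : L2C n), 0 ≤ α ∧ α ≤ c0 ∧ ‖e‖ = 1 ∧ Q ∈ H21 n ∧
      (∀ lam b0 : ℝ, (B ε f g).re ≤ α ^ 2 - lam * α + ε * b0 ^ 2 +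
        ∫ x, MM (wt ε lam b0 (inner ℂ e (cvec n x))) (Q x) ∂(gm n) - ‖Q‖ ^ 2 / (4 * ε)) ∧
      (B ε f g).re ≤ α ^ 2 + ε * (1 - α ^ 2) := by
  obtain ⟨u, v, huv, hB⟩ := B_le_uv ε f g hf hg
  obtain ⟨e, he, hα⟩ := exists_dir hn u
  have hu : ∀ᵐ x ∂(gm n), ‖u x‖ ≤ 1 := by
    filter_upwards [huv] with x hx
    have h1 : ‖(u x + v x) + (u x - v x)‖ ≤ ‖u x + v x‖ + ‖u x - v x‖ := norm_add_le _ _
    have h2 : (u x + v x) + (u x - v x) = 2 * u x := by ring
    rw [h2, norm_mul] at h1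
    simp at h1
    linarith [hx.1, hx.2]
  have hre : (inner ℂ u (lin e) : ℂ).re = ‖bar u‖ := by
    rw [hα]
    simp
  have hm1 : Integrable (fun z : ℂ => ‖z‖) gC := by simpa using (moment_pow 1).1
  refine ⟨‖bar u‖, e, ((2 * ε : ℝ) : ℂ) • P21 n v, norm_nonneg _, ?_, he,
    Submodule.smul_mem _ _ (P21_mem v), ?_, ?_⟩
  · -- `α ≤ c0`
    have h1 : ‖(inner ℂ u (lin e) : ℂ)‖ ≤ ∫ x, ‖(inner ℂ e (cvec n x) : ℂ)‖ ∂(gm n) := by
      rw [inner_L2C]
      refine (norm_integral_le_integral_norm _).trans ?_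
      refine integral_mono_ae (integrable_mul_L2C u (lin e)).norm
        (integrable_comp_inner he hm1) ?_
      filter_upwards [hu, coe_lin e] with x hx h2
      rw [norm_mul, RCLike.norm_conj, h2]
      exact mul_le_of_le_one_left (norm_nonneg _) hx
    rw [integral_comp_inner he hm1, m_one, hα] at h1
    simpa using h1
  · intro lam b0
    set Q : L2C n := ((2 * ε : ℝ) : ℂ) • P21 n v with hQ
    set W : L2C n := (lam : ℂ) • lin e - ((2 * ε * b0 : ℝ) : ℂ) • herm e with hW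
    have hWx : ∀ᵐ x ∂(gm n), W x = wt ε lam b0 (inner ℂ e (cvec n x)) := by
      filter_upwards [coe_lin e, (PGC.herm e).memLp.coeFn_toLp,
        Lp.coeFn_sub ((lam : ℂ) • lin e) (((2 * ε * b0 : ℝ) : ℂ) • herm e),
        Lp.coeFn_smul (lam : ℂ) (lin e), Lp.coeFn_smul ((2 * ε * b0 : ℝ) : ℂ) (herm e)]
        with x h1 h2 h3 h4 h5
      rw [hW, h3, Pi.sub_apply, h4, h5, Pi.smul_apply, Pi.smul_apply, h1]
      have h6 : (herm e : L2C n) x = h21 (inner ℂ e (cvec n x)) := h2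
      rw [h6]
      rfl
    have hv : ε * ‖P21 n v‖ ^ 2 = (inner ℂ v Q : ℂ).re - ‖Q‖ ^ 2 / (4 * ε) := by
      rw [hQ, inner_smul_right, inner_P21_self, norm_smul, Complex.norm_real, Real.norm_eq_abs,
        abs_of_pos (by positivity), ← Complex.ofReal_mul, Complex.ofReal_re]
      field_simp
      ring
    have hb := sq_inner_herm_le u e he
    set b : ℝ := (inner ℂ u (herm e) : ℂ).re with hbdef
    have hWre : (inner ℂ u W : ℂ).re = lam * ‖bar u‖ - 2 * ε * b0 * b := by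
      rw [hW, inner_sub_right, inner_smul_right, inner_smul_right, Complex.sub_re,
        Complex.re_ofReal_mul, Complex.re_ofReal_mul, hre]
    have hw : ‖bar u‖ ^ 2 - ε * ‖P21 n u‖ ^ 2 ≤ ‖bar u‖ ^ 2 - lam * ‖bar u‖ + ε * b0 ^ 2 +
        (inner ℂ u W : ℂ).re := by
      rw [hWre]
      nlinarith [mul_le_mul_of_nonneg_left hb hε.le, mul_nonneg hε.le (sq_nonneg (b - b0))]
    have i1 : Integrable (fun x => (conj (u x) * W x).re) (gm n) := (integrable_mul_L2C u W).re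
    have i2 : Integrable (fun x => (conj (v x) * Q x).re) (gm n) := (integrable_mul_L2C v Q).re
    have hMi : Integrable (fun x => MM (W x) (Q x)) (gm n) := by
      refine ((integrable_L2C W).norm.add (integrable_L2C Q).norm).mono ?_
        (Filter.Eventually.of_forall fun x => ?_)
      · exact continuous_MM.comp_aestronglyMeasurable
          ((Lp.aestronglyMeasurable W).prodMk (Lp.aestronglyMeasurable Q))
      · have h1 := MM_ge (W x) (Q x)
        have h2 := MM_le (W x) (Q x)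
        have h3 := norm_nonneg (W x)
        have h4 := norm_nonneg (Q x)
        rw [Real.norm_eq_abs, abs_of_nonneg (by linarith), Pi.add_apply, Real.norm_eq_abs,
          abs_of_nonneg (by linarith)]
        exact h2
    have hint : (inner ℂ u W : ℂ).re + (inner ℂ v Q : ℂ).re ≤
        ∫ x, MM (wt ε lam b0 (inner ℂ e (cvec n x))) (Q x) ∂(gm n) := by
      have e1 : (inner ℂ u W : ℂ).re = ∫ x, (conj (u x) * W x).re ∂(gm n) := by
        rw [inner_L2C]
        exact (integral_re (integrable_mul_L2C u W) (μ := gm n)).symm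
      have e2 : (inner ℂ v Q : ℂ).re = ∫ x, (conj (v x) * Q x).re ∂(gm n) := by
        rw [inner_L2C]
        exact (integral_re (integrable_mul_L2C v Q) (μ := gm n)).symm
      have e3 : ∫ x, MM (wt ε lam b0 (inner ℂ e (cvec n x))) (Q x) ∂(gm n) =
          ∫ x, MM (W x) (Q x) ∂(gm n) := by
        refine integral_congr_ae ?_
        filter_upwards [hWx] with x hx
        rw [hx]
      rw [e1, e2, e3, ← integral_add i1 i2]
      refine integral_mono_ae (i1.add i2) hMi ?_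
      filter_upwards [huv] with x hx
      exact pointwise_MM _ _ _ _ hx.1 hx.2
    rw [hB, hv]
    nlinarith [sq_nonneg ‖bar v‖]
  · -- the trivial bound
    have hα2 : ‖bar u‖ ^ 2 ≤ ‖u‖ ^ 2 := by
      have h1 : ‖bar u‖ ≤ ‖u‖ := by
        have h2 := norm_inner_le_norm (𝕜 := ℂ) u (lin e)
        have h3 : ‖lin e‖ = 1 := by
          have := norm_lin e
          rw [he, one_pow] at this
          exact (pow_eq_one_iff_of_nonneg (norm_nonneg _) two_ne_zero).1 this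
        rw [hα, h3, mul_one] at h2
        simpa using h2
      exact pow_le_pow_left₀ (norm_nonneg _) h1 2
    have huv2 : ‖u‖ ^ 2 + ‖v‖ ^ 2 ≤ 1 := by
      rw [norm_sq_L2C, norm_sq_L2C, ← integral_add (integrable_norm_sq_L2C u)
        (integrable_norm_sq_L2C v)]
      have h1 : ∫ x, (‖u x‖ ^ 2 + ‖v x‖ ^ 2) ∂(gm n) ≤ ∫ _x, (1 : ℝ) ∂(gm n) := by
        refine integral_mono_ae ((integrable_norm_sq_L2C u).add (integrable_norm_sq_L2C v))
          (integrable_const _) ?_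
        filter_upwards [huv] with x hx
        have h2 : ‖u x + v x‖ ^ 2 ≤ 1 := pow_le_one₀ (norm_nonneg _) hx.1
        have h3 : ‖u x - v x‖ ^ 2 ≤ 1 := pow_le_one₀ (norm_nonneg _) hx.2
        have h4 : ‖u x + v x‖ ^ 2 + ‖u x - v x‖ ^ 2 = 2 * (‖u x‖ ^ 2 + ‖v x‖ ^ 2) := by
          rw [Complex.sq_norm, Complex.sq_norm, Complex.sq_norm, Complex.sq_norm,
            Complex.normSq_add, Complex.normSq_sub]
          ring
        change ‖u x‖ ^ 2 + ‖v x‖ ^ 2 ≤ 1
        linarith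
      simpa using h1
    have hP : ‖P21 n v‖ ^ 2 ≤ ‖v‖ ^ 2 := pow_le_pow_left₀ (norm_nonneg _) (norm_P21_le v) 2
    rw [hB]
    nlinarith [sq_nonneg ‖bar v‖, mul_nonneg hε.le (sq_nonneg ‖P21 n u‖),
      mul_le_mul_of_nonneg_left hP hε.le, mul_le_mul_of_nonneg_left huv2 hε.le,
      mul_le_mul_of_nonneg_left hα2 hε.le]

end Pool.Agent.KGC
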