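import Pool.Agent.KGC.Defs

/-! Exact statements for `K_G^ℂ ≥ 64/(15π)` (problem MP_163d4c_an, complex case). Each module
proves the statement of the same name in the namespace `Pool.Agent.KGC`. -/

open MeasureTheory ProbabilityTheory Real
open scoped ComplexConjugate

namespace Pool.Agent.KGC.Skel

open Pool.Agent.KGC

variable {n : ℕ}

/-- (Chaos.lean) -/
theorem lin_mem (a : Cn n) : lin a ∈ CV n 1 1 := by
  sorry

/-- (Chaos.lean) -/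
theorem herm_mem (e : Cn n) (he : ‖e‖ = 1) : herm e ∈ H21 n := by
  sorry

/-- (Chaos.lean) -/
theorem norm_herm (e : Cn n) (he : ‖e‖ = 1) : ‖herm e‖ = 1 := by
  sorry

/-- (Bound.lean) the form is bounded by `15π/64` for `ε = 1/2` -/
theorem B_le (hn : 0 < n) (f g : L2C n) (hf : ∀ᵐ x ∂(gm n), ‖f x‖ ≤ 1)
    (hg : ∀ᵐ x ∂(gm n), ‖g x‖ ≤ 1) : (B (1 / 2) f g).re ≤ 15 * π / 64 := by
  sorry

/-- (Numer.lean) -/
theorem numer (ε : ℝ) (hε : 0 ≤ ε) (n : ℕ) (F : Fin n → L2C n)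
    (hF : ∀ᵐ x ∂(gm n), ∑ i, ‖F i x‖ ^ 2 ≤ 1) (hn : 0 < n) (τ : ℝ) (hτ0 : 0 ≤ τ)
    (hτ : τ ≤ ∫ x, ∑ i, (conj (F i x) * cvec n x i).re ∂(gm n)) :
    (1 + ε) * (τ ^ 2 / n) - ε ≤ ∑ i, (B ε (F i) (F i)).re := by
  sorry

/-- (Final.lean) from the bound of the form to a lower bound for the Grothendieck constant
(`exists_simple (𝕜 := ℂ)` with `X = cvec n`, `E‖cvec‖ ≥ √n (1 - 1/n)` from `norm_cvec` and
`KG.integral_norm_ge`; the norm bound of `B` from the bound of the real part by a phase). -/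
theorem lower_of (ε β0 : ℝ) (hβ0 : 0 < β0)
    (hB : ∀ (n : ℕ), 0 < n → ∀ f g : L2C n, (∀ᵐ x ∂(gm n), ‖f x‖ ≤ 1) →
      (∀ᵐ x ∂(gm n), ‖g x‖ ≤ 1) → (B ε f g).re ≤ β0)
    (hnum : ∀ (n : ℕ) (F : Fin n → L2C n), (∀ᵐ x ∂(gm n), ∑ i, ‖F i x‖ ^ 2 ≤ 1) → 0 < n →
      ∀ τ : ℝ, 0 ≤ τ → τ ≤ ∫ x, ∑ i, (conj (F i x) * cvec n x i).re ∂(gm n) →
      (1 + ε) * (τ ^ 2 / n) - ε ≤ ∑ i, (B ε (F i) (F i)).re)
    (K : ℝ) (hK : 0 < K) (h : IsGrothendieckBound K) : 1 / β0 ≤ K := by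
  sorry

/-- (Exists.lean) from the real Krivine bound `KG.exists_bound` (take real and imaginary parts:
`K_ℂ ≤ 4 K_ℝ` suffices) -/
theorem exists_bound : ∃ K : ℝ, 0 < K ∧ IsGrothendieckBound K := by
  sorry

theorem result : 64 / (15 * π) ≤ KGcomplex := by
  obtain ⟨K, hK⟩ := exists_bound
  refine le_csInf ⟨K, hK⟩ fun K hK => ?_
  have h := lower_of (1 / 2) (15 * π / 64) (by positivity) (fun n hn f g hf hg => B_le hn f g hf hg)
    (fun n F hF hn τ h0 h1 => numer (1 / 2) (by norm_num) n F hF hn τ h0 h1) K hK.1 hK.2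
  rwa [one_div_div] at h

end Pool.Agent.KGC.Skel
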