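import Pool.Agent.KGC.PlaneIneq

/-! Slicing of the complex Gaussian space in the direction of a unit vector. -/

open MeasureTheory ProbabilityTheory Real Set
open scoped ComplexConjugate

namespace Pool.Agent.KGC

variable {n : ℕ}

/-- the complex line spanned by `e` -/
noncomputable def emb (e : Cn n) (z : ℂ) : Om n := (√2 * z.re) • dirRe e + (√2 * z.im) • dirIm e

/-- projection on the orthogonal complement of the complex line -/
noncomputable def prj (e : Cn n) (x : Om n) : Om n :=
  x - (inner ℝ (dirRe e) x : ℝ) • dirRe e - (inner ℝ (dirIm e) x : ℝ) • dirIm e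

/-- slicing map -/
noncomputable def slp (e : Cn n) (p : ℂ × Om n) : Om n := emb e p.1 + prj e p.2

lemma continuous_emb (e : Cn n) : Continuous (emb e) := by
  unfold emb
  fun_prop

lemma continuous_prj (e : Cn n) : Continuous (prj e) := by
  unfold prj
  fun_prop

lemma continuous_slp (e : Cn n) : Continuous (slp e) := by
  have := continuous_emb e
  have := continuous_prj e
  unfold slp
  fun_prop

lemma measurable_slp (e : Cn n) : Measurable (slp e) := (continuous_slp e).measurable

lemma sqrt_two_mul_re (p : ℝ × ℝ) : √2 * (tc p).re = p.1 := by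
  have h2 : (0 : ℝ) < √2 := by positivity
  have : (tc p).re = p.1 / √2 := by
    unfold tc
    rw [Complex.div_ofReal_re]
    simp
  rw [this]
  field_simp

lemma sqrt_two_mul_im (p : ℝ × ℝ) : √2 * (tc p).im = p.2 := by
  have h2 : (0 : ℝ) < √2 := by positivity
  have : (tc p).im = p.2 / √2 := by
    unfold tc
    rw [Complex.div_ofReal_im]
    simp
  rw [this]
  field_simp

lemma norm_prj_sq {e : Cn n} (he : ‖e‖ = 1) (s : Om n) : ‖prj e s‖ ^ 2 =
    ‖s‖ ^ 2 - (inner ℝ (dirRe e) s : ℝ) ^ 2 - (inner ℝ (dirIm e) s : ℝ) ^ 2 := by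
  have h1 : inner ℝ (dirRe e) (dirRe e) = (1 : ℝ) := by
    rw [real_inner_self_eq_norm_sq, norm_dirRe, he, one_pow]
  have h2 : inner ℝ (dirIm e) (dirIm e) = (1 : ℝ) := by
    rw [real_inner_self_eq_norm_sq, norm_dirIm, he, one_pow]
  have h12 : inner ℝ (dirRe e) (dirIm e) = (0 : ℝ) := inner_dir e
  have h21 : inner ℝ (dirIm e) (dirRe e) = (0 : ℝ) := by
    rw [real_inner_comm]
    exact h12
  have hc1 := real_inner_comm s (dirRe e)
  have hc2 := real_inner_comm s (dirIm e)
  rw [← real_inner_self_eq_norm_sq, ← real_inner_self_eq_norm_sq, prj]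
  simp only [inner_sub_left, inner_sub_right, inner_smul_left, inner_smul_right, h1, h2, h12, h21,
    conj_trivial, hc1, hc2]
  ring

lemma inner_emb (e : Cn n) (z : ℂ) (s : Om n) : (inner ℝ (emb e z) s : ℝ) =
    √2 * z.re * inner ℝ (dirRe e) s + √2 * z.im * inner ℝ (dirIm e) s := by
  unfold emb
  rw [inner_add_left, inner_smul_left, inner_smul_left]
  simp

lemma inner_prj_comm (e : Cn n) (x s : Om n) :
    (inner ℝ (prj e x) s : ℝ) = inner ℝ x (prj e s) := by
  unfold prj
  simp only [inner_sub_left, inner_sub_right, inner_smul_left, inner_smul_right, conj_trivial]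
  rw [real_inner_comm (dirRe e) x, real_inner_comm (dirIm e) x]
  ring

/-- charFun of the plane variable -/
lemma charFun_plane (a b : ℝ) : ∫ z : ℂ, Complex.exp (((√2 * z.re * a + √2 * z.im * b : ℝ) : ℂ) *
    Complex.I) ∂gC = Complex.exp (-((a : ℂ) ^ 2 + (b : ℂ) ^ 2) / 2) := by
  unfold gC
  rw [integral_map continuous_tc.measurable.aemeasurable (by fun_prop)]
  have h1 : ∀ p : ℝ × ℝ, Complex.exp (((√2 * (tc p).re * a + √2 * (tc p).im * b : ℝ) : ℂ) *
      Complex.I) = Complex.exp (((inner ℝ p.1 a : ℝ) : ℂ) * Complex.I) *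
      Complex.exp (((inner ℝ p.2 b : ℝ) : ℂ) * Complex.I) := by
    intro p
    rw [← Complex.exp_add, sqrt_two_mul_re, sqrt_two_mul_im]
    congr 1
    simp
    ring
  simp_rw [h1]
  rw [integral_prod_mul (μ := Pool.Agent.KG.g1) (ν := Pool.Agent.KG.g1)
    (fun t : ℝ => Complex.exp (((inner ℝ t a : ℝ) : ℂ) * Complex.I))
    (fun t : ℝ => Complex.exp (((inner ℝ t b : ℝ) : ℂ) * Complex.I)),
    ← charFun_apply, ← charFun_apply, charFun_gaussianReal, charFun_gaussianReal,
    ← Complex.exp_add]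
  congr 1
  simp
  ring

theorem map_slp (e : Cn n) (he : ‖e‖ = 1) : (gC.prod (gm n)).map (slp e) = gm n := by
  have hm := measurable_slp e
  have : IsProbabilityMeasure ((gC.prod (gm n)).map (slp e)) :=
    Measure.isProbabilityMeasure_map hm.aemeasurable
  apply Measure.ext_of_charFun
  ext s
  rw [charFun_stdGaussian, charFun_apply, integral_map hm.aemeasurable (by fun_prop)]
  have h1 : ∀ p : ℂ × Om n, Complex.exp (((inner ℝ (slp e p) s : ℝ) : ℂ) * Complex.I) =
      Complex.exp (((√2 * p.1.re * (inner ℝ (dirRe e) s : ℝ) +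
        √2 * p.1.im * (inner ℝ (dirIm e) s : ℝ) : ℝ) : ℂ) * Complex.I) *
      Complex.exp (((inner ℝ p.2 (prj e s) : ℝ) : ℂ) * Complex.I) := by
    intro p
    rw [← Complex.exp_add, ← add_mul, ← Complex.ofReal_add]
    congr 3
    unfold slp
    rw [inner_add_left, inner_emb, inner_prj_comm]
  simp_rw [h1]
  rw [integral_prod_mul (μ := gC) (ν := gm n)
    (fun z : ℂ => Complex.exp (((√2 * z.re * (inner ℝ (dirRe e) s : ℝ) +
        √2 * z.im * (inner ℝ (dirIm e) s : ℝ) : ℝ) : ℂ) * Complex.I))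
    (fun y : Om n => Complex.exp (((inner ℝ y (prj e s) : ℝ) : ℂ) * Complex.I)),
    ← charFun_apply, charFun_stdGaussian, charFun_plane, ← Complex.exp_add]
  congr 1
  have h3 : ((‖prj e s‖ : ℂ)) ^ 2 = (‖s‖ : ℂ) ^ 2 - ((inner ℝ (dirRe e) s : ℝ) : ℂ) ^ 2 -
      ((inner ℝ (dirIm e) s : ℝ) : ℂ) ^ 2 := by
    exact_mod_cast congrArg (fun r : ℝ => (r : ℂ)) (norm_prj_sq he s)
  rw [h3]
  ring

lemma measurePreserving_slp (e : Cn n) (he : ‖e‖ = 1) :
    MeasurePreserving (slp e) (gC.prod (gm n)) (gm n) := ⟨measurable_slp e, map_slp e he⟩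

/-! ### the complex coordinates along a slice -/

lemma cvec_apply (x : Om n) (j : Fin n) :
    cvec n x j = ((x (j, 0) : ℂ) + Complex.I * (x (j, 1) : ℂ)) / (√2 : ℂ) := rfl

lemma cvec_emb (e : Cn n) (z : ℂ) (j : Fin n) : cvec n (emb e z) j = e j * z := by
  have h2 : (√2 : ℂ) ≠ 0 := by
    have : (0 : ℝ) < √2 := by positivity
    exact_mod_cast this.ne'
  rw [cvec_apply]
  unfold emb dirRe dirIm
  simp only [PiLp.add_apply, PiLp.smul_apply, smul_eq_mul]
  rw [div_eq_iff h2]
  apply Complex.ext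
  · simp
    ring
  · simp
    ring

lemma cvec_sub (x y : Om n) (j : Fin n) : cvec n (x - y) j = cvec n x j - cvec n y j := by
  rw [cvec_apply, cvec_apply, cvec_apply]
  simp only [PiLp.sub_apply]
  push_cast
  ring

lemma cvec_add (x y : Om n) (j : Fin n) : cvec n (x + y) j = cvec n x j + cvec n y j := by
  rw [cvec_apply, cvec_apply, cvec_apply]
  simp only [PiLp.add_apply]
  push_cast
  ring

lemma inner_cvec_slp {e : Cn n} (he : ‖e‖ = 1) (z : ℂ) (x : Om n) :
    inner ℂ e (cvec n (slp e (z, x))) = z := by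
  have h1 : inner ℝ (dirRe e) (dirRe e) = (1 : ℝ) := by
    rw [real_inner_self_eq_norm_sq, norm_dirRe, he, one_pow]
  have h2 : inner ℝ (dirIm e) (dirIm e) = (1 : ℝ) := by
    rw [real_inner_self_eq_norm_sq, norm_dirIm, he, one_pow]
  have h12 : inner ℝ (dirRe e) (dirIm e) = (0 : ℝ) := inner_dir e
  have h21 : inner ℝ (dirIm e) (dirRe e) = (0 : ℝ) := by
    rw [real_inner_comm]
    exact h12
  have h2' : (√2 : ℂ) ≠ 0 := by
    have : (0 : ℝ) < √2 := by positivity
    exact_mod_cast this.ne'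
  rw [inner_cvec]
  have e1 : (inner ℝ (dirRe e) (slp e (z, x)) : ℝ) = √2 * z.re := by
    simp only [slp, emb, prj, inner_add_right, inner_sub_right, inner_smul_right, h1, h12]
    ring
  have e2 : (inner ℝ (dirIm e) (slp e (z, x)) : ℝ) = √2 * z.im := by
    simp only [slp, emb, prj, inner_add_right, inner_sub_right, inner_smul_right, h2, h21]
    ring
  rw [e1, e2, div_eq_iff h2']
  apply Complex.ext
  · simp
    ring
  · simp
    ring

lemma prj_slp {e : Cn n} (he : ‖e‖ = 1) (z : ℂ) (x : Om n) : prj e (slp e (z, x)) = prj e x := by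
  have h1 : inner ℝ (dirRe e) (dirRe e) = (1 : ℝ) := by
    rw [real_inner_self_eq_norm_sq, norm_dirRe, he, one_pow]
  have h2 : inner ℝ (dirIm e) (dirIm e) = (1 : ℝ) := by
    rw [real_inner_self_eq_norm_sq, norm_dirIm, he, one_pow]
  have h12 : inner ℝ (dirRe e) (dirIm e) = (0 : ℝ) := inner_dir e
  have h21 : inner ℝ (dirIm e) (dirRe e) = (0 : ℝ) := by
    rw [real_inner_comm]
    exact h12
  have e1 : (inner ℝ (dirRe e) (slp e (z, x)) : ℝ) = √2 * z.re := by
    simp only [slp, emb, prj, inner_add_right, inner_sub_right, inner_smul_right, h1, h12]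
    ring
  have e2 : (inner ℝ (dirIm e) (slp e (z, x)) : ℝ) = √2 * z.im := by
    simp only [slp, emb, prj, inner_add_right, inner_sub_right, inner_smul_right, h2, h21]
    ring
  conv_lhs => rw [prj, e1, e2]
  simp only [slp, emb]
  abel

lemma norm_prj_le {e : Cn n} (he : ‖e‖ = 1) (x : Om n) : ‖prj e x‖ ≤ ‖x‖ := by
  refine le_of_sq_le_sq ?_ (norm_nonneg _)
  rw [norm_prj_sq he]
  nlinarith [sq_nonneg (inner ℝ (dirRe e) x : ℝ), sq_nonneg (inner ℝ (dirIm e) x : ℝ)]

lemma PGC.comp_prj {e : Cn n} (he : ‖e‖ = 1) {f : Om n → ℂ} (hf : PGC f) :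
    PGC (fun x => f (prj e x)) := by
  obtain ⟨hc, C, k, hk⟩ := hf
  have hC : 0 ≤ C := by
    have := (norm_nonneg _).trans (hk 0)
    simpa using this
  refine ⟨hc.comp (continuous_prj e), C, k, fun x => (hk _).trans ?_⟩
  refine mul_le_mul_of_nonneg_left ?_ hC
  exact pow_le_pow_left₀ (by positivity) (by linarith [norm_prj_le he x]) k

/-- coefficient of the coordinate functions in the direction `e` -/
noncomputable def dirc (e : Cn n) (m : Option (Fin n)) : ℂ :=
  match m with
  | none => 0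
  | some i => e i

lemma cco_slp (e : Cn n) (m : Option (Fin n)) (z : ℂ) (x : Om n) :
    cco m (slp e (z, x)) = dirc e m * z + cco m (prj e x) := by
  cases m with
  | none => simp [cco, dirc]
  | some i =>
    simp only [cco, dirc, slp]
    rw [cvec_add, cvec_emb]

/-- Fubini along slices -/
lemma fubini {E : Type*} [NormedAddCommGroup E] [NormedSpace ℝ E] [CompleteSpace E] {e : Cn n}
    (he : ‖e‖ = 1) {F : Om n → E} (hF : Integrable F (gm n)) :
    ∫ x, F x ∂(gm n) = ∫ y, ∫ z, F (slp e (z, y)) ∂gC ∂(gm n) := by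
  have hmp := measurePreserving_slp e he
  have h1 : Integrable (fun p => F (slp e p)) (gC.prod (gm n)) :=
    (hmp.integrable_comp hF.aestronglyMeasurable).2 hF
  rw [← integral_prod_symm _ h1]
  conv_lhs => rw [← hmp.map_eq]
  rw [integral_map hmp.measurable.aemeasurable]
  rw [hmp.map_eq]
  exact hF.aestronglyMeasurable

lemma integrable_inner_slice {E : Type*} [NormedAddCommGroup E] [NormedSpace ℝ E] {e : Cn n}
    (he : ‖e‖ = 1) {F : Om n → E} (hF : Integrable F (gm n)) :
    Integrable (fun y => ∫ z, F (slp e (z, y)) ∂gC) (gm n) := by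
  have hmp := measurePreserving_slp e he
  have h1 : Integrable (fun p => F (slp e p)) (gC.prod (gm n)) :=
    (hmp.integrable_comp hF.aestronglyMeasurable).2 hF
  exact h1.integral_prod_right

end Pool.Agent.KGC
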