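import Pool.Agent.KGC.Slc
import Pool.Agent.KGC.Mom
import Pool.Agent.KGC.Basic

/-! From the slice inequality to the chaos of bidegree `(2,1)`. -/

open MeasureTheory ProbabilityTheory Real Set
open scoped ComplexConjugate

namespace Pool.Agent.KGC

variable {n : ℕ}

/-- polynomials of bidegree at most `(a,b)` as functions -/
noncomputable def VF (n a b : ℕ) : Submodule ℂ (Om n → ℂ) :=
  Submodule.span ℂ (Set.range (cmono : ((Fin a → Option (Fin n)) × (Fin b → Option (Fin n))) →
    Om n → ℂ))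

lemma pgc_of_mem {a b : ℕ} {f : Om n → ℂ} (hf : f ∈ VF n a b) : PGC f := by
  unfold VF at hf
  induction hf using Submodule.span_induction with
  | mem x h =>
    obtain ⟨m, rfl⟩ := h
    exact PGC.cmono m
  | zero => exact PGC.const 0
  | add f g _ _ hf hg => exact hf.add hg
  | smul c f _ hf => exact (PGC.const c).mul hf

lemma exists_rep {a b : ℕ} {Q : L2C n} (hQ : Q ∈ CV n a b) :
    ∃ f ∈ VF n a b, Q =ᵐ[gm n] f := by
  unfold CV at hQ
  induction hQ using Submodule.span_induction with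
  | mem x h =>
    obtain ⟨m, rfl⟩ := h
    exact ⟨cmono m, Submodule.subset_span ⟨m, rfl⟩, MemLp.coeFn_toLp _⟩
  | zero => exact ⟨0, Submodule.zero_mem _, Lp.coeFn_zero _ _ _⟩
  | add f g _ _ hf hg =>
    obtain ⟨f', hf', h⟩ := hf
    obtain ⟨g', hg', h'⟩ := hg
    exact ⟨f' + g', Submodule.add_mem _ hf' hg', (Lp.coeFn_add f g).trans (h.add h')⟩
  | smul c f _ hf =>
    obtain ⟨f', hf', h⟩ := hf
    refine ⟨c • f', Submodule.smul_mem _ c hf', (Lp.coeFn_smul c f).trans ?_⟩
    exact h.const_smul c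

lemma toLp_mem {a b : ℕ} {f : Om n → ℂ} (hf : f ∈ VF n a b) (h : MemLp f 2 (gm n)) :
    h.toLp f ∈ CV n a b := by
  suffices H : ∃ h : MemLp f 2 (gm n), h.toLp f ∈ CV n a b by
    obtain ⟨h', H⟩ := H
    exact H
  clear h
  unfold VF at hf
  induction hf using Submodule.span_induction with
  | mem x h =>
    obtain ⟨m, rfl⟩ := h
    exact ⟨(PGC.cmono m).memLp, Submodule.subset_span ⟨m, rfl⟩⟩
  | zero => exact ⟨MemLp.zero', by simp⟩
  | add f g _ _ hf hg =>
    obtain ⟨hf, Hf⟩ := hf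
    obtain ⟨hg, Hg⟩ := hg
    exact ⟨hf.add hg, by rw [MemLp.toLp_add hf hg]; exact Submodule.add_mem _ Hf Hg⟩
  | smul c f _ hf =>
    obtain ⟨hf, Hf⟩ := hf
    exact ⟨hf.const_smul c, by rw [MemLp.toLp_const_smul c hf]; exact Submodule.smul_mem _ c Hf⟩

lemma inner_cvec_sum (d : Cn n) (x : Om n) :
    inner ℂ d (cvec n x) = ∑ i, conj (d i) * cvec n x i := by
  rw [PiLp.inner_apply]
  refine Finset.sum_congr rfl fun i _ => ?_
  rw [RCLike.inner_apply']

/-- holomorphic affine functions have bidegree at most `(1,1)` -/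
lemma affine_mem (β : ℂ) (d : Cn n) : (fun x => β + inner ℂ d (cvec n x)) ∈ VF n 1 1 := by
  classical
  have h1 : (fun _ : Om n => (1 : ℂ)) ∈ VF n 1 1 := by
    refine Submodule.subset_span ⟨(fun _ => none, fun _ => none), ?_⟩
    ext x
    simp [cmono, cco]
  have h2 : ∀ i : Fin n, (fun x : Om n => cvec n x i) ∈ VF n 1 1 := by
    intro i
    refine Submodule.subset_span ⟨(fun _ => some i, fun _ => none), ?_⟩
    ext x
    simp [cmono, cco]
  have h3 : (fun x => β + inner ℂ d (cvec n x)) =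
      β • (fun _ : Om n => (1 : ℂ)) + ∑ i, conj (d i) • (fun x : Om n => cvec n x i) := by
    ext x
    rw [inner_cvec_sum]
    simp [Finset.sum_apply]
  rw [h3]
  exact Submodule.add_mem _ (Submodule.smul_mem _ _ h1)
    (Submodule.sum_mem _ fun i _ => Submodule.smul_mem _ _ (h2 i))

/-- coordinates are affine -/
lemma cco_affine (m : Option (Fin n)) :
    ∃ (α : ℂ) (β : Cn n), ∀ x : Om n, cco m x = α + inner ℂ β (cvec n x) := by
  classical
  cases m with
  | none => exact ⟨1, 0, fun y => by simp [cco]⟩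
  | some i =>
    refine ⟨0, EuclideanSpace.single i (1 : ℂ), fun y => ?_⟩
    simp [cco, EuclideanSpace.inner_single_left]

/-- expansion along slices -/
def Exp (e : Cn n) (f : Om n → ℂ) : Prop :=
  ∃ (q0 q10 q01 : Om n → ℂ) (α β : ℂ) (b d : Cn n) (q21 : ℂ), PGC q0 ∧ PGC q10 ∧ PGC q01 ∧
    ∀ (z : ℂ) (x : Om n), f (slp e (z, x)) =
      q0 (prj e x) + q10 (prj e x) * z + q01 (prj e x) * conj z +
      (α + conj (inner ℂ b (cvec n (prj e x)))) * z ^ 2 +
      (β + inner ℂ d (cvec n (prj e x))) * (z * conj z) + q21 * (z ^ 2 * conj z)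

lemma exp_of_mem (e : Cn n) {f : Om n → ℂ} (hf : f ∈ VF n 2 1) : Exp e f := by
  unfold VF at hf
  induction hf using Submodule.span_induction with
  | mem x h =>
    obtain ⟨m, rfl⟩ := h
    obtain ⟨α0, β0, h0⟩ := cco_affine (m.1 0)
    obtain ⟨α1, β1, h1⟩ := cco_affine (m.1 1)
    obtain ⟨α2, β2, h2⟩ := cco_affine (m.2 0)
    set a0 := dirc e (m.1 0)
    set a1 := dirc e (m.1 1)
    set a2 := dirc e (m.2 0)
    refine ⟨fun y => cco (m.1 0) y * (cco (m.1 1) y * conj (cco (m.2 0) y)),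
      fun y => a0 * (cco (m.1 1) y * conj (cco (m.2 0) y)) +
        a1 * (cco (m.1 0) y * conj (cco (m.2 0) y)),
      fun y => conj a2 * (cco (m.1 0) y * cco (m.1 1) y),
      a0 * a1 * conj α2, (a0 * α1 + a1 * α0) * conj a2, (a0 * a1) • β2,
      conj (a0 * conj a2) • β1 + conj (a1 * conj a2) • β0, a0 * a1 * conj a2, ?_, ?_, ?_, ?_⟩
    · exact (PGC.cco _).mul ((PGC.cco _).mul (PGC.cco _).conj)
    · exact ((PGC.const _).mul ((PGC.cco _).mul (PGC.cco _).conj)).add
        ((PGC.const _).mul ((PGC.cco _).mul (PGC.cco _).conj))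
    · exact (PGC.const _).mul ((PGC.cco _).mul (PGC.cco _))
    · intro z x
      unfold cmono
      rw [Fin.prod_univ_two, Fin.prod_univ_one, cco_slp, cco_slp, cco_slp, inner_add_left,
        inner_smul_left, inner_smul_left, inner_smul_left]
      have e0 : inner ℂ β0 (cvec n (prj e x)) = cco (m.1 0) (prj e x) - α0 := by rw [h0]; ring
      have e1 : inner ℂ β1 (cvec n (prj e x)) = cco (m.1 1) (prj e x) - α1 := by rw [h1]; ring
      have e2 : inner ℂ β2 (cvec n (prj e x)) = cco (m.2 0) (prj e x) - α2 := by rw [h2]; ring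
      rw [e0, e1, e2]
      simp only [map_add, map_mul, map_sub, Complex.conj_conj]
      ring
  | zero =>
    exact ⟨fun _ => 0, fun _ => 0, fun _ => 0, 0, 0, 0, 0, 0, PGC.const 0, PGC.const 0,
      PGC.const 0, fun t y => by simp⟩
  | add f g _ _ hf hg =>
    obtain ⟨q0, q10, q01, α, β, b, d, q21, h0, h1, h2, h⟩ := hf
    obtain ⟨q0', q10', q01', α', β', b', d', q21', h0', h1', h2', h'⟩ := hg
    refine ⟨fun y => q0 y + q0' y, fun y => q10 y + q10' y, fun y => q01 y + q01' y,
      α + α', β + β', b + b', d + d', q21 + q21', h0.add h0', h1.add h1', h2.add h2',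
      fun z x => ?_⟩
    rw [Pi.add_apply, h, h', inner_add_left, inner_add_left, map_add]
    ring
  | smul c f _ hf =>
    obtain ⟨q0, q10, q01, α, β, b, d, q21, h0, h1, h2, h⟩ := hf
    refine ⟨fun y => c * q0 y, fun y => c * q10 y, fun y => c * q01 y,
      c * α, c * β, c • b, conj c • d, c * q21, (PGC.const c).mul h0, (PGC.const c).mul h1,
      (PGC.const c).mul h2, fun z x => ?_⟩
    rw [Pi.smul_apply, h, inner_smul_left, inner_smul_left, smul_eq_mul, map_mul,
      Complex.conj_conj]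
    ring

/-- from the slice inequality to the chaos of bidegree `(2,1)` -/
theorem star (G : ℂ → ℂ → ℝ) (hGc : Continuous (fun p : ℂ × ℂ => G p.1 p.2))
    (hGb : ∀ z q, |G z q| ≤ ‖q‖) (K n1 n2 n3 : ℝ)
    (h : ∀ c00 c10 c01 c20 c11 c21 : ℂ, ∫ z, G z (qf c00 c10 c01 c20 c11 c21 z) ∂gC ≤
      K * (‖c00‖ ^ 2 + ‖c10‖ ^ 2 + ‖c01‖ ^ 2 + ‖c20‖ ^ 2 + ‖c11‖ ^ 2 + ‖c21‖ ^ 2) +
      (n1 * (conj c00 * c11).re + n2 * (c00 * c20).re + n3 * (c10 * conj c21).re))
    (e : Cn n) (he : ‖e‖ = 1) (Q : L2C n) (hQ : Q ∈ H21 n) :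
    ∫ x, G (inner ℂ e (cvec n x)) (Q x) ∂(gm n) ≤ K * ‖Q‖ ^ 2 := by
  obtain ⟨hQ3, hQ2⟩ := hQ
  obtain ⟨q, hq, hQq⟩ := exists_rep hQ3
  obtain ⟨q0, q10, q01, α, β, b, d, q21, hq0, hq10, hq01, hexp⟩ := exp_of_mem e hq
  have hqPG := pgc_of_mem hq
  have h2p : (0 : ℝ) < √2 := by positivity
  have h2c : (√2 : ℂ) ≠ 0 := by exact_mod_cast h2p.ne'
  -- Hermite coefficients
  set f20 : Om n → ℂ := fun y => α + conj (inner ℂ b (cvec n y)) with hf20
  set f11 : Om n → ℂ := fun y => β + inner ℂ d (cvec n y) with hf11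
  have pf20 : PGC f20 := (PGC.const α).add (PGC.cinner b).conj
  have pf11 : PGC f11 := (PGC.const β).add (PGC.cinner d)
  set C00 : Om n → ℂ := fun y => q0 (prj e y) + f11 (prj e y) with hC00
  set C10 : Om n → ℂ := fun y => q10 (prj e y) + 2 * q21 with hC10
  set C01 : Om n → ℂ := fun y => q01 (prj e y) with hC01
  set C20 : Om n → ℂ := fun y => (√2 : ℂ) * f20 (prj e y) with hC20
  set C11 : Om n → ℂ := fun y => f11 (prj e y) with hC11
  set C21 : ℂ := (√2 : ℂ) * q21 with hC21
  have p00 : PGC C00 := (hq0.comp_prj he).add (pf11.comp_prj he)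
  have p10 : PGC C10 := (hq10.comp_prj he).add (PGC.const _)
  have p01 : PGC C01 := hq01.comp_prj he
  have p20 : PGC C20 := (PGC.const _).mul (pf20.comp_prj he)
  have p11 : PGC C11 := pf11.comp_prj he
  have hqf : ∀ z x, q (slp e (z, x)) = qf (C00 x) (C10 x) (C01 x) (C20 x) (C11 x) C21 z := by
    intro z x
    rw [hexp]
    have hz : (‖z‖ : ℂ) ^ 2 = z * conj z := (Complex.mul_conj' z).symm
    unfold qf pf h21
    rw [hz]
    simp only [hC00, hC10, hC01, hC20, hC11, hC21, hf20, hf11]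
    field_simp
    ring
  -- orthogonality
  have hinner : ∀ (g : Om n → ℂ) (hg : g ∈ VF n 1 1), ∫ x, conj (g x) * q x ∂(gm n) = 0 := by
    intro g hg
    have hm := (pgc_of_mem hg).memLp
    have hmem : hm.toLp g ∈ CV n 2 0 ⊔ CV n 1 1 := Submodule.mem_sup_right (toLp_mem hg hm)
    have h0 : inner ℂ (hm.toLp g) Q = (0 : ℂ) := (Submodule.mem_orthogonal _ _).1 hQ2 _ hmem
    rw [inner_L2C] at h0
    rw [← h0]
    refine integral_congr_ae ?_
    filter_upwards [hQq, hm.coeFn_toLp] with x hx hx'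
    rw [hx, hx']
  have hprj : ∀ (d : Cn n), ∃ d' : Cn n, ∀ x, inner ℂ d (cvec n (prj e x)) =
      inner ℂ d' (cvec n x) := by
    intro d
    refine ⟨d - inner ℂ e d • e, fun x => ?_⟩
    have h1 : cvec n (prj e x) = cvec n x - (inner ℂ e (cvec n x) : ℂ) • e := by
      ext j
      have h2 := cvec_emb e (inner ℂ e (cvec n x)) j
      have h3 : prj e x = x - emb e (inner ℂ e (cvec n x)) := by
        have hre : √2 * (inner ℂ e (cvec n x) : ℂ).re = inner ℝ (dirRe e) x := by
          rw [inner_cvec, Complex.div_ofReal_re]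
          simp
          field_simp
        have him : √2 * (inner ℂ e (cvec n x) : ℂ).im = inner ℝ (dirIm e) x := by
          rw [inner_cvec, Complex.div_ofReal_im]
          simp
          field_simp
        unfold prj emb
        rw [hre, him]
        abel
      rw [h3, cvec_sub, h2]
      simp [mul_comm]
    rw [h1, inner_sub_right, inner_smul_right, inner_sub_left, inner_smul_left,
      inner_conj_symm]
    ring
  -- the three vanishing integrals
  have E1 : ∫ y, conj (C11 y) * C00 y ∂(gm n) = 0 := by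
    obtain ⟨d', hd'⟩ := hprj d
    have hmem := affine_mem β d'
    have heq : (fun x => β + inner ℂ d' (cvec n x)) = C11 := by
      ext x
      simp only [hC11, hf11]
      rw [hd']
    rw [heq] at hmem
    have h0 := hinner C11 hmem
    rw [fubini he (p11.conj.mul hqPG).integrable] at h0
    rw [← h0]
    refine integral_congr_ae (Filter.Eventually.of_forall fun y => ?_)
    have hC : ∀ z, C11 (slp e (z, y)) = C11 y := by
      intro z
      simp only [hC11, prj_slp he]
    simp only [hqf, hC]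
    rw [integral_const_mul, integral_qf]
  have E2 : ∫ y, C20 y * C00 y ∂(gm n) = 0 := by
    obtain ⟨b', hb'⟩ := hprj b
    have hmem := Submodule.smul_mem _ (√2 : ℂ) (affine_mem (conj α) b')
    have heq : (√2 : ℂ) • (fun x => conj α + inner ℂ b' (cvec n x)) = fun x => conj (C20 x) := by
      ext x
      simp only [hC20, hf20, Pi.smul_apply, smul_eq_mul, map_mul, map_add, Complex.conj_conj,
        Complex.conj_ofReal]
      rw [hb']
    rw [heq] at hmem
    have h0 := hinner _ hmem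
    simp only [Complex.conj_conj] at h0
    rw [fubini he (p20.mul hqPG).integrable] at h0
    rw [← h0]
    refine integral_congr_ae (Filter.Eventually.of_forall fun y => ?_)
    have hC : ∀ z, C20 (slp e (z, y)) = C20 y := by
      intro z
      simp only [hC20, prj_slp he]
    simp only [hqf, hC]
    rw [integral_const_mul, integral_qf]
  have E3 : ∫ y, C10 y ∂(gm n) = 0 := by
    have hmem : (fun x => (0 : ℂ) + inner ℂ e (cvec n x)) ∈ VF n 1 1 := affine_mem _ _
    have h0 := hinner _ hmem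
    rw [fubini he ((pgc_of_mem hmem).conj.mul hqPG).integrable] at h0
    rw [← h0]
    refine integral_congr_ae (Filter.Eventually.of_forall fun y => ?_)
    simp only [hqf, inner_cvec_slp he, zero_add]
    rw [integral_conj_mul_qf]
  have Esq : ‖Q‖ ^ 2 = ∫ y, (‖C00 y‖ ^ 2 + ‖C10 y‖ ^ 2 + ‖C01 y‖ ^ 2 + ‖C20 y‖ ^ 2 +
      ‖C11 y‖ ^ 2 + ‖C21‖ ^ 2) ∂(gm n) := by
    have hqq : Integrable (fun x => ‖q x‖ ^ 2) (gm n) := by
      have := hqPG.memLp
      exact (memLp_two_iff_integrable_sq_norm hqPG.continuous.aestronglyMeasurable).1 this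
    have h1 : ‖Q‖ ^ 2 = ∫ x, ‖q x‖ ^ 2 ∂(gm n) := by
      rw [norm_sq_L2C]
      refine integral_congr_ae ?_
      filter_upwards [hQq] with x hx
      rw [hx]
    rw [h1, fubini he hqq]
    refine integral_congr_ae (Filter.Eventually.of_forall fun y => ?_)
    simp only [hqf]
    rw [integral_norm_qf]
  -- the main inequality
  have hFc : Continuous (fun x : Om n => G (inner ℂ e (cvec n x)) (q x)) :=
    hGc.comp ((PGC.cinner e).continuous.prodMk hqPG.continuous)
  have hFi : Integrable (fun x : Om n => G (inner ℂ e (cvec n x)) (q x)) (gm n) := by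
    refine hqPG.integrable.mono hFc.aestronglyMeasurable (Filter.Eventually.of_forall fun x => ?_)
    rw [Real.norm_eq_abs]
    exact hGb _ _
  have hL : ∫ x, G (inner ℂ e (cvec n x)) (Q x) ∂(gm n) =
      ∫ x, G (inner ℂ e (cvec n x)) (q x) ∂(gm n) := by
    refine integral_congr_ae ?_
    filter_upwards [hQq] with x hx
    rw [hx]
  rw [hL, fubini he hFi, Esq]
  have sqi : ∀ {f : Om n → ℂ}, PGC f → Integrable (fun y => ‖f y‖ ^ 2) (gm n) := fun {f} hf =>
    (memLp_two_iff_integrable_sq_norm hf.continuous.aestronglyMeasurable).1 hf.memLp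
  have j00 := sqi p00
  have j10 := sqi p10
  have j01 := sqi p01
  have j20 := sqi p20
  have j11 := sqi p11
  have j21 : Integrable (fun _ : Om n => ‖C21‖ ^ 2) (gm n) := integrable_const _
  have jsum : Integrable (fun y => ‖C00 y‖ ^ 2 + ‖C10 y‖ ^ 2 + ‖C01 y‖ ^ 2 + ‖C20 y‖ ^ 2 +
      ‖C11 y‖ ^ 2 + ‖C21‖ ^ 2) (gm n) :=
    ((((j00.add j10).add j01).add j20).add j11).add j21
  have k1 : Integrable (fun y => (conj (C00 y) * C11 y).re) (gm n) :=
    (p00.conj.mul p11).integrable.re
  have k2 : Integrable (fun y => (C00 y * C20 y).re) (gm n) := (p00.mul p20).integrable.re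
  have k3 : Integrable (fun y => (C10 y * conj C21).re) (gm n) :=
    (p10.mul (PGC.const _)).integrable.re
  have z1 : ∫ y, (conj (C00 y) * C11 y).re ∂(gm n) = 0 := by
    have h1 : ∀ y, (conj (C00 y) * C11 y).re = (conj (C11 y) * C00 y).re := by
      intro y
      simp
      ring
    simp_rw [h1]
    have := integral_re (p11.conj.mul p00).integrable (μ := gm n)
    have h3 : ∫ y, (conj (C11 y) * C00 y).re ∂(gm n) =
        (∫ y, conj (C11 y) * C00 y ∂(gm n)).re := this
    rw [h3, E1]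
    simp
  have z2 : ∫ y, (C00 y * C20 y).re ∂(gm n) = 0 := by
    have h1 : ∀ y, (C00 y * C20 y).re = (C20 y * C00 y).re := by
      intro y
      rw [mul_comm]
    simp_rw [h1]
    have := integral_re (p20.mul p00).integrable (μ := gm n)
    have h3 : ∫ y, (C20 y * C00 y).re ∂(gm n) = (∫ y, C20 y * C00 y ∂(gm n)).re := this
    rw [h3, E2]
    simp
  have z3 : ∫ y, (C10 y * conj C21).re ∂(gm n) = 0 := by
    have := integral_re (p10.mul (PGC.const (conj C21))).integrable (μ := gm n)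
    have h3 : ∫ y, (C10 y * conj C21).re ∂(gm n) = (∫ y, C10 y * conj C21 ∂(gm n)).re := this
    rw [h3, integral_mul_const, E3]
    simp
  have k12 : Integrable (fun y => n1 * (conj (C00 y) * C11 y).re + n2 * (C00 y * C20 y).re)
      (gm n) := (k1.const_mul n1).add (k2.const_mul n2)
  have k123 : Integrable (fun y => n1 * (conj (C00 y) * C11 y).re + n2 * (C00 y * C20 y).re +
      n3 * (C10 y * conj C21).re) (gm n) := k12.add (k3.const_mul n3)
  have hR : K * ∫ y, (‖C00 y‖ ^ 2 + ‖C10 y‖ ^ 2 + ‖C01 y‖ ^ 2 + ‖C20 y‖ ^ 2 +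
      ‖C11 y‖ ^ 2 + ‖C21‖ ^ 2) ∂(gm n) =
      ∫ y, (K * (‖C00 y‖ ^ 2 + ‖C10 y‖ ^ 2 + ‖C01 y‖ ^ 2 + ‖C20 y‖ ^ 2 + ‖C11 y‖ ^ 2 +
        ‖C21‖ ^ 2) + (n1 * (conj (C00 y) * C11 y).re + n2 * (C00 y * C20 y).re +
        n3 * (C10 y * conj C21).re)) ∂(gm n) := by
    rw [integral_add (jsum.const_mul K) k123, integral_add k12
      (k3.const_mul n3), integral_add (k1.const_mul n1) (k2.const_mul n2), integral_const_mul,
      integral_const_mul, integral_const_mul, integral_const_mul, z1, z2, z3]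
    ring
  rw [hR]
  refine integral_mono (integrable_inner_slice he hFi) ((jsum.const_mul K).add k123) fun y => ?_
  simp only [hqf, inner_cvec_slp he]
  exact h (C00 y) (C10 y) (C01 y) (C20 y) (C11 y) C21

end Pool.Agent.KGC
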