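import Pool.Agent.KG.GaussN
import Pool.Agent.KG.Identity

/-!
# The complex Gaussian vector
-/

open scoped BigOperators
open MeasureTheory ProbabilityTheory Set

namespace Pool.Agent.KGC

section general

variable {E : Type*} [NormedAddCommGroup E] [InnerProductSpace ℝ E] [FiniteDimensional ℝ E]
  [MeasurableSpace E] [BorelSpace E]

theorem map_inner_stdGaussian' (x : E) (hx : ‖x‖ = 1) :
    (stdGaussian E).map (fun g => inner ℝ x g) = gaussianReal 0 1 := by
  have hG : HasGaussianLaw (fun g => innerSL ℝ x g) (stdGaussian E) :=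
    IsGaussian.hasGaussianLaw_id.map (innerSL ℝ x)
  have h := hG.map_eq_gaussianReal
  have h1 : ∫ g, innerSL ℝ x g ∂(stdGaussian E) = 0 :=
    integral_strongDual_stdGaussian _
  have h2 : Var[fun g => innerSL ℝ x g; stdGaussian E] = 1 := by
    have := variance_dual_stdGaussian (E := E) (innerSL ℝ x)
    rw [innerSL_apply_norm, hx, one_pow] at this
    exact this
  rw [h1, h2] at h
  simpa using h

theorem map_pair_stdGaussian' (x x' : E) (hx : ‖x‖ = 1) (hx' : ‖x'‖ = 1)
    (h : inner ℝ x x' = (0 : ℝ)) :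
    (stdGaussian E).map (fun g => ((inner ℝ x g : ℝ), (inner ℝ x' g : ℝ)))
      = (gaussianReal 0 1).prod (gaussianReal 0 1) := by
  have hG : HasGaussianLaw (fun g => ((inner ℝ x g : ℝ), (inner ℝ x' g : ℝ)))
      (stdGaussian E) :=
    IsGaussian.hasGaussianLaw_id.map ((innerSL ℝ x).prod (innerSL ℝ x'))
  have hcov : cov[fun g => (inner ℝ x g : ℝ), fun g => (inner ℝ x' g : ℝ);
      stdGaussian E] = 0 := by
    rw [← covarianceBilin_apply_eq_cov, covarianceBilin_stdGaussian]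
    · exact h
    · exact IsGaussian.memLp_two_id
  have hind := hG.indepFun_of_covariance_eq_zero hcov
  have hm1 : Measurable (fun g : E => (inner ℝ x g : ℝ)) := by fun_prop
  have hm2 : Measurable (fun g : E => (inner ℝ x' g : ℝ)) := by fun_prop
  rw [(indepFun_iff_map_prod_eq_prod_map_map hm1.aemeasurable hm2.aemeasurable).mp hind,
    map_inner_stdGaussian' x hx, map_inner_stdGaussian' x' hx']

end general

/-- the complex Gaussian vector as a function of `2n` real Gaussians -/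
noncomputable def cvec (n : ℕ) (ω : EuclideanSpace ℝ (Fin n × Fin 2)) : EuclideanSpace ℂ (Fin n) :=
  WithLp.toLp 2 (fun j => ((ω (j, 0) : ℂ) + Complex.I * (ω (j, 1) : ℂ)) / (Real.sqrt 2 : ℂ))

theorem measurable_cvec (n : ℕ) : Measurable (cvec n) := by
  have : Continuous (cvec n) := by
    unfold cvec
    refine (PiLp.continuous_toLp 2 _).comp ?_
    fun_prop
  exact this.measurable

theorem norm_cvec (n : ℕ) (ω : EuclideanSpace ℝ (Fin n × Fin 2)) :
    ‖cvec n ω‖ = ‖ω‖ / Real.sqrt 2 := by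
  have h2 : (0 : ℝ) < Real.sqrt 2 := by positivity
  have h : ‖cvec n ω‖ ^ 2 = (‖ω‖ / Real.sqrt 2) ^ 2 := by
    rw [EuclideanSpace.norm_sq_eq, div_pow, EuclideanSpace.norm_sq_eq, Real.sq_sqrt (by norm_num),
      Fintype.sum_prod_type, Finset.sum_div]
    refine Finset.sum_congr rfl fun j _ => ?_
    rw [Fin.sum_univ_two]
    have h3 : (cvec n ω).ofLp j =
        ((ω (j, 0) : ℂ) + Complex.I * (ω (j, 1) : ℂ)) / (Real.sqrt 2 : ℂ) := rfl
    rw [h3, norm_div, div_pow, Complex.norm_real, Real.norm_eq_abs, sq_abs,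
      Real.sq_sqrt (by norm_num), Complex.sq_norm, Complex.normSq_apply]
    simp [sq]
  exact (pow_left_inj₀ (norm_nonneg _) (by positivity) two_ne_zero).mp h

/-- first real direction of a complex functional -/
noncomputable def dirRe {n : ℕ} (e : EuclideanSpace ℂ (Fin n)) : EuclideanSpace ℝ (Fin n × Fin 2) :=
  WithLp.toLp 2 (fun p => if p.2 = 0 then (e p.1).re else (e p.1).im)

/-- second real direction of a complex functional -/
noncomputable def dirIm {n : ℕ} (e : EuclideanSpace ℂ (Fin n)) : EuclideanSpace ℝ (Fin n × Fin 2) :=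
  WithLp.toLp 2 (fun p => if p.2 = 0 then -(e p.1).im else (e p.1).re)

theorem norm_dirRe {n : ℕ} (e : EuclideanSpace ℂ (Fin n)) : ‖dirRe e‖ = ‖e‖ := by
  have h : ‖dirRe e‖ ^ 2 = ‖e‖ ^ 2 := by
    rw [EuclideanSpace.norm_sq_eq, EuclideanSpace.norm_sq_eq, Fintype.sum_prod_type]
    refine Finset.sum_congr rfl fun j _ => ?_
    rw [Fin.sum_univ_two, Complex.sq_norm, Complex.normSq_apply]
    simp [dirRe, sq]
  exact (pow_left_inj₀ (norm_nonneg _) (norm_nonneg _) two_ne_zero).mp h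

theorem norm_dirIm {n : ℕ} (e : EuclideanSpace ℂ (Fin n)) : ‖dirIm e‖ = ‖e‖ := by
  have h : ‖dirIm e‖ ^ 2 = ‖e‖ ^ 2 := by
    rw [EuclideanSpace.norm_sq_eq, EuclideanSpace.norm_sq_eq, Fintype.sum_prod_type]
    refine Finset.sum_congr rfl fun j _ => ?_
    rw [Fin.sum_univ_two, Complex.sq_norm, Complex.normSq_apply]
    simp [dirIm, sq]
    ring
  exact (pow_left_inj₀ (norm_nonneg _) (norm_nonneg _) two_ne_zero).mp h

theorem inner_dir {n : ℕ} (e : EuclideanSpace ℂ (Fin n)) :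
    inner ℝ (dirRe e) (dirIm e) = (0 : ℝ) := by
  rw [PiLp.inner_apply, Fintype.sum_prod_type]
  apply Finset.sum_eq_zero
  intro j _
  rw [Fin.sum_univ_two]
  simp [dirRe, dirIm]
  ring

theorem inner_cvec {n : ℕ} (e : EuclideanSpace ℂ (Fin n)) (ω : EuclideanSpace ℝ (Fin n × Fin 2)) :
    inner ℂ e (cvec n ω) = (((inner ℝ (dirRe e) ω : ℝ) : ℂ) +
      Complex.I * ((inner ℝ (dirIm e) ω : ℝ) : ℂ)) / (Real.sqrt 2 : ℂ) := by
  rw [PiLp.inner_apply, PiLp.inner_apply, PiLp.inner_apply, Fintype.sum_prod_type,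
    Fintype.sum_prod_type, Complex.ofReal_sum, Complex.ofReal_sum, Finset.mul_sum,
    ← Finset.sum_add_distrib, Finset.sum_div]
  refine Finset.sum_congr rfl fun j _ => ?_
  rw [Fin.sum_univ_two, Fin.sum_univ_two]
  have h3 : (cvec n ω).ofLp j =
        ((ω (j, 0) : ℂ) + Complex.I * (ω (j, 1) : ℂ)) / (Real.sqrt 2 : ℂ) := rfl
  rw [h3]
  have h4 : inner ℂ (e j) (((ω (j, 0) : ℂ) + Complex.I * (ω (j, 1) : ℂ)) / (Real.sqrt 2 : ℂ)) =
      (starRingEnd ℂ (e j)) *
        (((ω (j, 0) : ℂ) + Complex.I * (ω (j, 1) : ℂ)) / (Real.sqrt 2 : ℂ)) := by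
    rw [RCLike.inner_apply']
  rw [h4, mul_div_assoc']
  congr 1
  apply Complex.ext
  · simp [dirRe, dirIm]
    ring
  · simp [dirRe, dirIm]
    ring


end Pool.Agent.KGC
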